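import Pool.Agent.Helper52.LP.U

/-! # Going down to a smaller minimum degree, all residues -/

namespace Pool.Agent.Helper52.LP

open Finset Function
open scoped Classical

variable {V : Type} [Fintype V] [DecidableEq V]

/-- two vertices with three common neighbours -/
theorem exists_three (G : SimpleGraph V) (v : V) (a b : ℕ) (hv : a ≤ dg G v)
    (hδ : ∀ w, b + 1 ≤ dg G w) (hab : 2 * (Fintype.card V - 1) < a * b) :
    ∃ u, u ≠ v ∧ ∃ c : Fin 3 → V, Injective c ∧ (∀ i, G.Adj u (c i)) ∧ ∀ i, G.Adj v (c i) := by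
  have h1 := Finset.sum_card_bipartiteAbove_eq_sum_card_bipartiteBelow
    (s := univ.filter fun w => G.Adj v w) (t := univ.erase v) (fun w u => G.Adj w u)
  have h2 : a * b ≤ ∑ w ∈ univ.filter fun w => G.Adj v w,
      #((univ.erase v).bipartiteAbove (fun w u => G.Adj w u) w) := by
    calc a * b ≤ (univ.filter fun w => G.Adj v w).card * b := Nat.mul_le_mul_right _ hv
      _ = ∑ w ∈ univ.filter fun w => G.Adj v w, b := by rw [sum_const, smul_eq_mul]
      _ ≤ _ := by
        refine Finset.sum_le_sum fun w hw => ?_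
        rw [mem_filter] at hw
        have h3 := hδ w
        unfold dg at h3
        have h4 : (univ.filter fun u => G.Adj w u).erase v =
            (univ.erase v).bipartiteAbove (fun w u => G.Adj w u) w := by
          ext u
          simp [Finset.bipartiteAbove, and_comm]
        rw [← h4, Finset.card_erase_of_mem (by simpa using hw.2.symm)]
        omega
  have h5 : ∃ u ∈ univ.erase v, 2 < #((univ.filter fun w => G.Adj v w).bipartiteBelow
      (fun w u => G.Adj w u) u) := by
    by_contra hc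
    push Not at hc
    have h6 := Finset.sum_le_card_nsmul _ _ 2 hc
    rw [Finset.card_erase_of_mem (mem_univ v), Finset.card_univ, smul_eq_mul] at h6
    omega
  obtain ⟨u, hu, h6⟩ := h5
  rw [Finset.mem_erase] at hu
  obtain ⟨x, hx, y, hy, z, hz, hxy, hxz, hyz⟩ := Finset.two_lt_card.1 h6
  simp only [Finset.bipartiteBelow, mem_filter, mem_univ, true_and] at hx hy hz
  refine ⟨u, hu.1, ![x, y, z], ?_, ?_, ?_⟩
  · intro i j hij
    fin_cases i <;> fin_cases j <;> simp_all
  · intro i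
    fin_cases i
    · exact hx.2.symm
    · exact hy.2.symm
    · exact hz.2.symm
  · intro i
    fin_cases i
    · exact hx.1
    · exact hy.1
    · exact hz.1

/-- the step for a regular graph -/
theorem step_reg (G : SimpleGraph V) (h3 : 3 ≤ Fintype.card V) (k : ℕ)
    (hG : (HP G).card % 4 = 2) (hreg : ∀ v, dg G v = k + 1) :
    ∃ G' : SimpleGraph V, G' < G ∧ (∀ u, k ≤ dg G' u) ∧ (HP G').card % 4 = 2 := by
  have h4 := four_dvd_matchings G h3 (by
    rcases Nat.even_or_odd (k + 1) with h | h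
    · right; intro v; rw [hreg]; exact h
    · left; intro v; rw [hreg]; exact h)
  have hid : (id : V → V) ∈ Inv G := by
    simp only [Inv, mem_filter, mem_univ, true_and]
    exact ⟨fun v => rfl, fun v h => absurd rfl h⟩
  have hGid : Gs G id = G := by
    ext a b
    simp only [Gs, id]
    exact ⟨fun h => h.1, fun h => ⟨h, h.ne', h.ne⟩⟩
  obtain ⟨σ, hσ, hσ0, hσ2⟩ := exists_of_dvd (Inv G) (fun σ => (HP (Gs G σ)).card) id hid h4
    (fun σ _ => even_HP _ h3) (by rw [hGid]; exact hG)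
  simp only [Inv, mem_filter, mem_univ, true_and] at hσ
  refine ⟨Gs G σ, ?_, ?_, hσ2⟩
  · refine lt_of_le_of_ne (fun a b h => h.1) ?_
    intro h
    apply hσ0
    funext v
    by_contra hv
    have h5 := hσ.2 v hv
    rw [← h] at h5
    exact h5.2.1 rfl
  · intro u
    have := dg_Gs G σ hσ.1 u
    have := hreg u
    omega

/-- the step, when the degree is large enough -/
theorem step_dense (G : SimpleGraph V) (h3 : 3 ≤ Fintype.card V) (k : ℕ)
    (hk : 2 * (Fintype.card V - 1) < (k + 2) * k)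
    (hG : (HP G).card % 4 = 2) (hδ : ∀ u, k + 1 ≤ dg G u) :
    ∃ G' : SimpleGraph V, G' < G ∧ (∀ u, k ≤ dg G' u) ∧ (HP G').card % 4 = 2 := by
  by_cases h2 : ∃ v, k + 2 ≤ dg G v
  · obtain ⟨v, hv⟩ := h2
    obtain ⟨u, huv, c, hc, hcu, hcv⟩ := exists_three G v (k + 2) k hv hδ hk
    exact step_k23 G h3 huv hc hcu hcv hG k hδ hv
  · refine step_reg G h3 k hG fun v => ?_
    push Not at h2
    have a1 := hδ v
    have a2 := h2 v
    omega

/-- go down to minimum degree `k` by steps -/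
theorem descend_of (k : ℕ) (hstep : ∀ G : SimpleGraph V, (HP G).card % 4 = 2 →
      (∀ u, k + 1 ≤ dg G u) →
      ∃ G' : SimpleGraph V, G' < G ∧ (∀ u, k ≤ dg G' u) ∧ (HP G').card % 4 = 2) :
    ∀ G : SimpleGraph V, (∀ v, k ≤ dg G v) → (HP G).card % 4 = 2 →
      ∃ G' : SimpleGraph V, G' ≤ G ∧ (∀ v, k ≤ dg G' v) ∧ (∃ v, dg G' v = k) ∧
        (HP G').card % 4 = 2 := by
  intro G
  induction G using (inferInstance : WellFoundedLT (SimpleGraph V)).induction with
  | ind G ih =>
    intro hδ hG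
    by_cases h : ∃ v, dg G v = k
    · exact ⟨G, le_rfl, hδ, h, hG⟩
    · push Not at h
      obtain ⟨G1, hlt, hδ1, hG1⟩ := hstep G hG (fun v => by
        have := hδ v
        have := h v
        omega)
      obtain ⟨G2, h1, h2, h4, h5⟩ := ih G1 hlt hδ1 hG1
      exact ⟨G2, h1.trans hlt.le, h2, h4, h5⟩

/-- a step at a vertex `w` of large degree, keeping the edges at `u` and `v` -/
theorem star_keep (G : SimpleGraph V) (h3 : 3 ≤ Fintype.card V) (u v w : V) (k : ℕ) (hk : 2 ≤ k)
    (hG : (HP G).card % 4 = 2) (hδ : ∀ u, k + 1 ≤ dg G u) (hw : k + 3 ≤ dg G w) :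
    ∃ F : Finset V, F.Nonempty ∧ (∀ x ∈ F, G.Adj w x ∧ x ≠ u ∧ x ≠ v) ∧
      (∀ x, k ≤ dg (Dv G w F) x) ∧ (HP (Dv G w F)).card % 4 = 2 := by
  have h3' : 3 ≤ (((univ.filter fun x => G.Adj w x).erase u).erase v).card := by
    have h1 := Finset.pred_card_le_card_erase (s := univ.filter fun x => G.Adj w x) (a := u)
    have h2 := Finset.pred_card_le_card_erase
      (s := (univ.filter fun x => G.Adj w x).erase u) (a := v)
    unfold dg at hw
    omega
  obtain ⟨N, hNs, hNc⟩ := Finset.exists_subset_card_eq h3'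
  have hNm : ∀ x ∈ N, G.Adj w x ∧ x ≠ u ∧ x ≠ v := by
    intro x hx
    have := hNs hx
    simp only [Finset.mem_erase, mem_filter, mem_univ, true_and] at this
    exact ⟨this.2.2, this.2.1, this.1⟩
  have h4 := star_dvd G h3 w N.powerset (by
    intro A hA hAc
    have h5 : (N.powerset.filter fun F => Disjoint F A) = (N \ A).powerset := by
      ext F
      simp only [mem_filter, mem_powerset, Finset.subset_sdiff]
    rw [h5, Finset.card_powerset]
    have h6 : 1 ≤ (N \ A).card := by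
      have := Finset.le_card_sdiff A N
      omega
    obtain ⟨j, hj⟩ := Nat.exists_eq_add_of_le h6
    rw [hj, add_comm 1 j, pow_succ]
    exact ⟨2 ^ j, by ring⟩)
  obtain ⟨F, hF, hF0, hF2⟩ := exists_of_dvd N.powerset (fun F => (HP (Dv G w F)).card) ∅
    (Finset.empty_mem_powerset _) h4 (fun F _ => even_HP _ h3) (by rw [Dv_empty]; exact hG)
  rw [mem_powerset] at hF
  refine ⟨F, Finset.nonempty_iff_ne_empty.2 hF0, fun x hx => hNm x (hF hx), ?_, hF2⟩
  intro x
  by_cases hx : x = w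
  · rw [hx]
    have h5 := dg_Dv_self G w F
    have h6 := Finset.card_le_card hF
    omega
  · have h5 := dg_Dv_ne G w F x hx
    have h6 := hδ x
    omega

omit [DecidableEq V] in
theorem dg_mono {G H : SimpleGraph V} {u : V} (h : ∀ x, G.Adj u x → H.Adj u x) :
    dg G u ≤ dg H u := by
  unfold dg
  refine Finset.card_le_card fun x hx => ?_
  rw [mem_filter] at hx ⊢
  exact ⟨mem_univ _, h x hx.2⟩

/-- the descent keeping the edges at `u` and `v` -/
theorem jump_aux (h3 : 3 ≤ Fintype.card V) (k : ℕ) (hk : 2 ≤ k) {u v : V} (huv : u ≠ v)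
    {c : Fin 3 → V} (hc : Injective c) :
    ∀ H : SimpleGraph V, (∀ i, H.Adj u (c i)) → (∀ i, H.Adj v (c i)) → k + 3 ≤ dg H u →
      k + 3 ≤ dg H v → (HP H).card % 4 = 2 → (∀ w, k + 1 ≤ dg H w) →
      ∃ G' : SimpleGraph V, G' ≤ H ∧ (∀ v, k ≤ dg G' v) ∧ (∃ v, dg G' v = k) ∧
        (HP G').card % 4 = 2 := by
  intro H
  induction H using (inferInstance : WellFoundedLT (SimpleGraph V)).induction with
  | ind H ih =>
    intro hu hv hdu hdv hG hδ
    by_cases h1 : ∃ w, w ≠ u ∧ w ≠ v ∧ k + 3 ≤ dg H w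
    · obtain ⟨w, hwu, hwv, hw⟩ := h1
      obtain ⟨F, hF0, hF, hδ1, hG1⟩ := star_keep H h3 u v w k hk hG hδ hw
      have hlt : Dv H w F < H := Dv_lt H w F hF0 fun x hx => (hF x hx).1
      by_cases h2 : ∃ x, dg (Dv H w F) x = k
      · exact ⟨_, hlt.le, hδ1, h2, hG1⟩
      · push Not at h2
        have ku : ∀ x, H.Adj u x → (Dv H w F).Adj u x := fun x hx =>
          ⟨hx, fun h => hwu h.1.symm, fun h => (hF u h.2).2.1 rfl⟩
        have kv : ∀ x, H.Adj v x → (Dv H w F).Adj v x := fun x hx =>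
          ⟨hx, fun h => hwv h.1.symm, fun h => (hF v h.2).2.2 rfl⟩
        obtain ⟨G', g1, g2, g3, g4⟩ := ih (Dv H w F) hlt (fun i => ku _ (hu i))
          (fun i => kv _ (hv i)) (hdu.trans (dg_mono ku)) (hdv.trans (dg_mono kv)) hG1
          (fun x => by
            have a1 := hδ1 x
            have a2 := h2 x
            omega)
        exact ⟨G', g1.trans hlt.le, g2, g3, g4⟩
    · push Not at h1
      obtain ⟨G', g1, g2, g3, g4⟩ := exact_k23 H h3 huv hc hu hv hG k hδ hdu hdv (fun i => by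
        have := h1 (c i) (hu i).ne' (hv i).ne'
        omega)
      exact ⟨G', g1.le, g2, g3, g4⟩

/-- from minimum degree `k' ≥ k + 3` directly to minimum degree `k` -/
theorem jump (G : SimpleGraph V) (h3 : 3 ≤ Fintype.card V) (k k' : ℕ) (hk : 2 ≤ k)
    (hkk : k + 3 ≤ k') (hcard : 2 * (Fintype.card V - 1) < k' * (k' - 1))
    (hG : (HP G).card % 4 = 2) (hδ : ∀ u, k' ≤ dg G u) :
    ∃ G' : SimpleGraph V, G' ≤ G ∧ (∀ v, k ≤ dg G' v) ∧ (∃ v, dg G' v = k) ∧
      (HP G').card % 4 = 2 := by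
  obtain ⟨v⟩ : Nonempty V := Fintype.card_pos_iff.1 (by omega)
  obtain ⟨u, huv, c, hc, hcu, hcv⟩ := exists_three G v k' (k' - 1) (hδ v)
    (fun w => by have := hδ w; omega) hcard
  exact jump_aux h3 k hk huv hc G hcu hcv (hkk.trans (hδ u)) (hkk.trans (hδ v)) hG
    (fun w => by have := hδ w; omega)

/-- in a graph on at most `2k'` vertices with minimum degree at least `k'` -/
theorem down (G : SimpleGraph V) (h3 : 3 ≤ Fintype.card V) (k k' : ℕ) (hk : 1 ≤ k)
    (hkk : k < k') (hn : Fintype.card V ≤ 2 * k')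
    (hex : ¬ (k = 3 ∧ k' = 5 ∧ 9 ≤ Fintype.card V))
    (hG : (HP G).card % 4 = 2) (hδ : ∀ u, k' ≤ dg G u) :
    ∃ G' : SimpleGraph V, G' ≤ G ∧ (∀ v, k ≤ dg G' v) ∧ (∃ v, dg G' v = k) ∧
      (HP G').card % 4 = 2 := by
  have hδk : ∀ u, k ≤ dg G u := fun u => hkk.le.trans (hδ u)
  by_cases h1 : k % 4 = 1 ∨ k % 4 = 2
  · exact descend_of k (fun G hG hδ => step G h3 k h1 hG hδ) G hδk hG
  by_cases h2 : 2 * (Fintype.card V - 1) < (k + 2) * k
  · exact descend_of k (fun G hG hδ => step_dense G h3 k h2 hG hδ) G hδk hG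
  have hk3 : 3 ≤ k := by omega
  have hk' : k + 3 ≤ k' := by
    by_contra hc
    have hk4 : k ≤ 3 := by
      by_contra h4
      have : (k + 2) * k ≤ 4 * k + 6 := by omega
      nlinarith
    have hk5 : k = 3 := by omega
    subst hk5
    omega
  refine jump G h3 k k' (by omega) hk' ?_ hG hδ
  have : 2 * (Fintype.card V - 1) + 2 ≤ 4 * k' := by omega
  have h6 : 6 ≤ k' := by omega
  obtain ⟨j, rfl⟩ := Nat.exists_eq_add_of_le h6
  have e : 6 + j - 1 = 5 + j := by omega
  rw [e]
  nlinarith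

end Pool.Agent.Helper52.LP
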