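import Pool.Agent.Helper52.LP.X

/-! # Many Hamilton paths in dense graphs on nine or ten vertices -/

namespace Pool.Agent.Helper52.LP

open Finset Function
open scoped Classical

variable {V : Type} [Fintype V] [DecidableEq V]

theorem rotw_map {α β : Type} (f : α → β) (w : ℕ × ℕ × ℕ) (l : List α) :
    (rotw w l).map f = rotw w (l.map f) := by
  simp only [rotw, rot_map]

theorem map_idxOf {α : Type} [DecidableEq α] {l : List α} (h : l.Nodup) :
    l.map (fun x => l.idxOf x) = List.range l.length := by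
  refine List.ext_getElem (by simp) ?_
  intro i h1 h2
  rw [List.getElem_map, List.getElem_range, h.idxOf_getElem]

theorem rotw_inj {α : Type} [DecidableEq α] {l : List α} (h : l.Nodup)
    (hn : l.length = 9 ∨ l.length = 10) {w w' : ℕ × ℕ × ℕ} (hw : w ∈ words l.length)
    (hw' : w' ∈ words l.length) (he : rotw w l = rotw w' l) : w = w' := by
  have h1 := congrArg (List.map fun x => l.idxOf x) he
  rw [rotw_map, rotw_map, map_idxOf h] at h1
  exact List.inj_on_of_nodup_map (words_nodup _ hn) hw hw' h1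

theorem mem_words {n i j k : ℕ} (hi : 2 ≤ i) (hj : 2 ≤ j) (hk : 2 ≤ k) (hin : i < n)
    (hjn : j < n) (hkn : k < n) (hij : j ≠ i) (hjk : k ≠ j) (h : (i, j, k) ≠ (3, 2, 3)) :
    (i, j, k) ∈ words n := by
  unfold words
  rw [List.mem_filter]
  refine ⟨?_, ?_⟩
  · rw [List.mem_flatMap]
    refine ⟨i, List.mem_range.2 hin, ?_⟩
    rw [List.mem_flatMap]
    refine ⟨j, List.mem_range.2 hjn, ?_⟩
    rw [List.mem_map]
    exact ⟨k, List.mem_range.2 hkn, rfl⟩
  · rw [decide_eq_true_iff]
    exact ⟨hi, hj, hk, hij.symm, hjk.symm, h⟩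

/-- the number of Hamilton paths with a given end -/
theorem card_last (G : SimpleGraph V) (hn : Fintype.card V = 9 ∨ Fintype.card V = 10)
    (hd : ∀ v, 5 ≤ dg G v) {l : List V} (hl : l ∈ HL G) {t : V} (ht : l.getLast? = some t)
    (S : Finset (List V)) (hS : ∀ l, l ∈ HL G → l.getLast? = some t → l ∈ S) :
    35 ≤ S.card := by
  have hlen : ∀ {l : List V}, l ∈ HL G → l.length = Fintype.card V := fun h => h.2.2
  set W : Finset (Σ _ : ℕ, Σ _ : ℕ, ℕ) := (Al G l).sigma fun i =>
    ((Al G (rot i l)).erase i).sigma fun j => (Al G (rot j (rot i l))).erase j with hW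
  have h4 : ∀ {l : List V}, l ∈ HL G → 4 ≤ (Al G l).card := fun h =>
    Al_card G h 4 hd (by rw [hlen h]; omega)
  have hWc : 36 ≤ W.card := by
    rw [hW, Finset.card_sigma]
    have h5 : ∀ i ∈ Al G l, 9 ≤ (((Al G (rot i l)).erase i).sigma fun j =>
        (Al G (rot j (rot i l))).erase j).card := by
      intro i hi
      obtain ⟨k1, k2⟩ := rot_mem G hl ht hi
      rw [Finset.card_sigma]
      have h6 : ∀ j ∈ (Al G (rot i l)).erase i, 3 ≤ ((Al G (rot j (rot i l))).erase j).card := by
        intro j hj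
        obtain ⟨k3, k4⟩ := rot_mem G k1 k2 (Finset.mem_of_mem_erase hj)
        have := Finset.pred_card_le_card_erase (s := Al G (rot j (rot i l))) (a := j)
        have := h4 k3
        omega
      have h7 := Finset.card_nsmul_le_sum _ _ 3 h6
      have h8 := Finset.pred_card_le_card_erase (s := Al G (rot i l)) (a := i)
      have h9 := h4 k1
      rw [smul_eq_mul] at h7
      omega
    have h7 := Finset.card_nsmul_le_sum _ _ 9 h5
    have h9 := h4 hl
    rw [smul_eq_mul] at h7
    omega
  have hW' : 35 ≤ (W.erase ⟨3, 2, 3⟩).card := by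
    have := Finset.pred_card_le_card_erase (s := W) (a := ⟨3, 2, 3⟩)
    omega
  refine hW'.trans (Finset.card_le_card_of_injOn
    (fun w => rotw (w.1, w.2.1, w.2.2) l) ?_ ?_)
  · rintro ⟨i, j, k⟩ hw
    rw [mem_coe, Finset.mem_erase, hW, Finset.mem_sigma, Finset.mem_sigma] at hw
    obtain ⟨-, hi, hj, hk⟩ := hw
    obtain ⟨k1, k2⟩ := rot_mem G hl ht hi
    obtain ⟨k3, k4⟩ := rot_mem G k1 k2 (Finset.mem_of_mem_erase hj)
    obtain ⟨k5, k6⟩ := rot_mem G k3 k4 (Finset.mem_of_mem_erase hk)
    exact hS _ k5 k6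
  · have key : ∀ w ∈ W.erase ⟨3, 2, 3⟩, (w.1, w.2.1, w.2.2) ∈ words l.length := by
      rintro ⟨i, j, k⟩ hw
      rw [Finset.mem_erase, hW, Finset.mem_sigma, Finset.mem_sigma] at hw
      obtain ⟨h0, hi, hj, hk⟩ := hw
      simp only at h0 hi hj hk
      rw [Finset.mem_erase] at hj hk
      obtain ⟨hji, hj⟩ := hj
      obtain ⟨hkj, hk⟩ := hk
      rw [Al, mem_filter, Finset.mem_Ico] at hi hj hk
      rw [rot_length] at hj hk
      rw [rot_length] at hk
      refine mem_words hi.1.1 hj.1.1 hk.1.1 hi.1.2 hj.1.2 hk.1.2 hji hkj ?_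
      intro h
      apply h0
      simp only [Prod.mk.injEq] at h
      obtain ⟨rfl, rfl, rfl⟩ := h
      rfl
    rintro ⟨i, j, k⟩ hw ⟨i', j', k'⟩ hw' he
    have h1 := rotw_inj hl.1 (by rw [hlen hl]; exact hn) (key _ hw) (key _ hw') he
    simp only [Prod.mk.injEq] at h1
    obtain ⟨rfl, rfl, rfl⟩ := h1
    rfl

/-- the number of Hamilton paths -/
theorem many_ham (G : SimpleGraph V) (hn : Fintype.card V = 9 ∨ Fintype.card V = 10)
    (hd : ∀ v, 5 ≤ dg G v) (hne : (HL G).Nonempty) : 35 * Fintype.card V ≤ (HL G).ncard := by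
  have hδ : ∀ v, Fintype.card V ≤ 2 * dg G v := fun v => by
    have := hd v
    omega
  set S : Finset (List V) := (HL_finite G).toFinset with hS
  have hmem : ∀ l, l ∈ S ↔ l ∈ HL G := fun l => (HL_finite G).mem_toFinset
  have hSc : (HL G).ncard = S.card := by
    rw [← Set.ncard_coe_finset, hS, Set.Finite.coe_toFinset]
  have h1 : ∀ t : V, 35 ≤ (S.filter fun l => l.getLast? = some t).card := by
    intro t
    obtain ⟨l, hl, ht⟩ := exists_ham_last G hδ (by omega) hne t
    refine card_last G hn hd hl ht _ ?_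
    intro l' h1 h2
    rw [mem_filter, hmem]
    exact ⟨h1, h2⟩
  have h2 : ∑ t : V, (S.filter fun l => l.getLast? = some t).card ≤ S.card := by
    rw [← Finset.card_biUnion]
    · refine Finset.card_le_card ?_
      intro l hl
      obtain ⟨t, _, ht⟩ := Finset.mem_biUnion.1 hl
      exact (Finset.mem_filter.1 ht).1
    · intro t _ t' _ htt
      rw [Function.onFun, Finset.disjoint_left]
      intro l hl hl'
      rw [Finset.mem_filter] at hl hl'
      apply htt
      have := hl.2.symm.trans hl'.2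
      exact Option.some.inj this
  have h3 := Finset.card_nsmul_le_sum univ (fun t : V =>
    (S.filter fun l => l.getLast? = some t).card) 35 (fun t _ => h1 t)
  rw [Finset.card_univ, smul_eq_mul] at h3
  rw [hSc, mul_comm]
  exact h3.trans h2

end Pool.Agent.Helper52.LP
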