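import Pool.Agent.Helper52.LP.P

/-! # Two explicit graphs -/

namespace Pool.Agent.Helper52.LP

/-- all paths on `m` vertices -/
def pth {n : ℕ} (adj : Fin n → Fin n → Bool) : ℕ → List (List (Fin n))
  | 0 => [[]]
  | m + 1 => (pth adj m).flatMap fun l => ((List.finRange n).filter fun v =>
      !(l.contains v) && (match l with | [] => true | x :: _ => adj v x)).map (· :: l)

theorem mem_pth {n : ℕ} (adj : Fin n → Fin n → Bool) (m : ℕ) (l : List (Fin n)) :
    l ∈ pth adj m ↔ l.Nodup ∧ l.IsChain (fun a b => adj a b = true) ∧ l.length = m := by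
  induction m generalizing l with
  | zero =>
    simp only [pth, List.mem_singleton, List.length_eq_zero_iff]
    constructor
    · rintro rfl; simp
    · rintro ⟨_, _, h⟩; exact h
  | succ m ih =>
    simp only [pth, List.mem_flatMap, List.mem_map, List.mem_filter, List.mem_finRange, true_and]
    constructor
    · rintro ⟨l', h1, v, h2, rfl⟩
      obtain ⟨g1, g2, g3⟩ := (ih l').1 h1
      rw [Bool.and_eq_true, Bool.not_eq_true', List.contains_eq_mem, decide_eq_false_iff_not] at h2
      refine ⟨List.nodup_cons.2 ⟨h2.1, g1⟩, ?_, by simp [g3]⟩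
      rw [List.isChain_cons]
      refine ⟨?_, g2⟩
      intro y hy
      rcases l' with _ | ⟨x, l'⟩
      · simp at hy
      · have : x = y := by simpa using hy
        rw [← this]
        exact h2.2
    · rintro ⟨h1, h2, h3⟩
      rcases l with _ | ⟨v, l'⟩
      · simp at h3
      · rw [List.isChain_cons] at h2
        have h1' := List.nodup_cons.1 h1
        refine ⟨l', (ih l').2 ⟨h1'.2, h2.2, by simpa using h3⟩, v, ?_, rfl⟩
        rw [Bool.and_eq_true, Bool.not_eq_true', List.contains_eq_mem, decide_eq_false_iff_not]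
        refine ⟨h1'.1, ?_⟩
        rcases l' with _ | ⟨x, l'⟩
        · rfl
        · exact h2.1 x (by simp)

def adj9 (a b : Fin 9) : Bool :=
  ([162, 85, 74, 276, 266, 193, 38, 289, 152].getD a 0 : ℕ).testBit b

def adj10 (a b : Fin 10) : Bool :=
  ([42, 393, 352, 131, 608, 277, 532, 522, 38, 208].getD a 0 : ℕ).testBit b

def G9 : SimpleGraph (Fin 9) where
  Adj a b := adj9 a b = true
  symm := ⟨by decide +kernel⟩
  loopless := ⟨by decide +kernel⟩

def G10 : SimpleGraph (Fin 10) where
  Adj a b := adj10 a b = true
  symm := ⟨by decide +kernel⟩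
  loopless := ⟨by decide +kernel⟩

theorem pth9 : (pth adj9 9).length = 186 ∧ (pth adj9 9).Nodup := by decide +kernel

theorem pth10 : (pth adj10 10).length = 286 ∧ (pth adj10 10).Nodup := by decide +kernel

theorem ncard_pth {n : ℕ} (adj : Fin n → Fin n → Bool) (G : SimpleGraph (Fin n))
    (hG : ∀ a b, G.Adj a b ↔ adj a b = true) (hn : (pth adj n).Nodup) :
    (HL G).ncard = (pth adj n).length := by
  have h : HL G = ((pth adj n).toFinset : Set (List (Fin n))) := by
    ext l
    rw [Finset.mem_coe, List.mem_toFinset, mem_pth]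
    have e : (fun a b => adj a b = true) = G.Adj := by
      funext a b
      exact propext (hG a b).symm
    rw [e]
    unfold HL
    rw [Set.mem_ofPred_eq, Fintype.card_fin]
  rw [h, Set.ncard_coe_finset, List.toFinset_card_of_nodup hn]

theorem dg_dec {n : ℕ} (adj : Fin n → Fin n → Bool) (G : SimpleGraph (Fin n))
    (hG : ∀ a b, G.Adj a b ↔ adj a b = true) (v : Fin n) :
    dg G v = (Finset.univ.filter fun w => adj v w = true).card := by
  unfold dg
  congr 1
  ext w
  simp [hG]

end Pool.Agent.Helper52.LP
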