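import Pool.Agent.Helper52.LP.T

/-! # Deleting edges at two vertices with three common neighbours -/

namespace Pool.Agent.Helper52.LP

open Finset Function
open scoped Classical

variable {V : Type} [Fintype V] [DecidableEq V]

theorem dg_Dv_self_eq (G : SimpleGraph V) (v : V) (F : Finset V) (hF : ∀ x ∈ F, G.Adj v x) :
    dg G v = dg (Dv G v F) v + F.card := by
  unfold dg
  rw [← Finset.card_union_of_disjoint]
  · congr 1
    ext w
    simp only [mem_filter, mem_univ, true_and, mem_union, Dv]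
    constructor
    · intro h
      by_cases hw : w ∈ F
      · exact Or.inr hw
      · exact Or.inl ⟨h, hw, fun h' => absurd h'.1 h.ne'⟩
    · rintro (h | h)
      · exact h.1
      · exact hF w h
  · rw [Finset.disjoint_left]
    intro w hw hw'
    simp only [mem_filter, mem_univ, true_and, Dv] at hw
    exact hw.2.1 hw'

theorem dg_Dv_other (G : SimpleGraph V) (v : V) (F : Finset V) (w : V) (hw : w ≠ v)
    (hF : w ∈ F → G.Adj v w) : dg G w = dg (Dv G v F) w + if w ∈ F then 1 else 0 := by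
  unfold dg
  by_cases h : w ∈ F
  · rw [if_pos h, ← Finset.card_singleton v, ← Finset.card_union_of_disjoint]
    · congr 1
      ext x
      simp only [mem_filter, mem_univ, true_and, mem_union, Dv, mem_singleton]
      constructor
      · intro hx
        by_cases hxv : x = v
        · exact Or.inr hxv
        · exact Or.inl ⟨hx, fun h' => hw h'.1, fun h' => hxv h'.1⟩
      · rintro (hx | hx)
        · exact hx.1
        · rw [hx]; exact (hF h).symm
    · rw [Finset.disjoint_left]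
      intro x hx hx'
      rw [mem_singleton] at hx'
      simp only [mem_filter, mem_univ, true_and, Dv] at hx
      exact hx.2.2 ⟨hx', h⟩
  · rw [if_neg h, add_zero]
    congr 1
    ext x
    simp only [mem_filter, mem_univ, true_and, Dv]
    exact ⟨fun hx => ⟨hx, fun h' => hw h'.1, fun h' => h h'.2⟩, fun hx => hx.1⟩

/-- the degrees after deleting edges at `u` and at `v` -/
theorem dg_two (G : SimpleGraph V) {u v : V} (huv : u ≠ v) (X Y : Finset V)
    (hX : ∀ x ∈ X, G.Adj u x) (hY : ∀ y ∈ Y, G.Adj v y) (hvX : v ∉ X) (huY : u ∉ Y) :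
    dg G u = dg (Dv (Dv G u X) v Y) u + X.card ∧ dg G v = dg (Dv (Dv G u X) v Y) v + Y.card ∧
      ∀ w, w ≠ u → w ≠ v → dg G w = dg (Dv (Dv G u X) v Y) w + (if w ∈ X then 1 else 0) +
        (if w ∈ Y then 1 else 0) := by
  have hY' : ∀ y ∈ Y, (Dv G u X).Adj v y := by
    intro y hy
    refine ⟨hY y hy, fun h => huv h.1.symm, fun h => hvX h.2⟩
  refine ⟨?_, ?_, ?_⟩
  · rw [dg_Dv_self_eq G u X hX, dg_Dv_other (Dv G u X) v Y u huv (fun h => absurd h huY),
      if_neg huY, add_zero]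
  · rw [dg_Dv_other G u X v huv.symm (fun h => absurd h hvX), if_neg hvX, add_zero,
      dg_Dv_self_eq (Dv G u X) v Y hY']
  · intro w h1 h2
    rw [dg_Dv_other G u X w h1 (hX w), dg_Dv_other (Dv G u X) v Y w h2 (hY' w)]
    ring

omit [Fintype V] [DecidableEq V] in
theorem Dv_two_lt (G : SimpleGraph V) {u v : V} (X Y : Finset V)
    (hX : ∀ x ∈ X, G.Adj u x) (hY : ∀ y ∈ Y, G.Adj v y) (h : X.Nonempty ∨ Y.Nonempty) :
    Dv (Dv G u X) v Y < G := by
  refine lt_of_le_of_ne (fun a b h => h.1.1) ?_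
  intro he
  rcases h with ⟨x, hx⟩ | ⟨y, hy⟩
  · have h1 := hX x hx
    rw [← he] at h1
    exact h1.1.2.1 ⟨rfl, hx⟩
  · have h1 := hY y hy
    rw [← he] at h1
    exact h1.2.1 ⟨rfl, hy⟩

section frame

variable (G : SimpleGraph V) (h3 : 3 ≤ Fintype.card V) {u v : V} (huv : u ≠ v)
  {c : Fin 3 → V} (hc : Injective c) (hu : ∀ i, G.Adj u (c i)) (hv : ∀ i, G.Adj v (c i))
  (hG : (HP G).card % 4 = 2)

include h3 huv hc hu hv hG

omit hG in
/-- from the abstract relations to the graph -/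
theorem frame (X Y : Finset (Fin 3)) :
    (ph G u v (X.image c) (Y.image c) ≠ 0 ↔
      (HP (Dv (Dv G u (X.image c)) v (Y.image c))).card % 4 = 2) ∧
    dg G u = dg (Dv (Dv G u (X.image c)) v (Y.image c)) u + X.card ∧
    dg G v = dg (Dv (Dv G u (X.image c)) v (Y.image c)) v + Y.card ∧
    (∀ i, dg G (c i) = dg (Dv (Dv G u (X.image c)) v (Y.image c)) (c i) + lo X Y i) ∧
    (∀ w, w ≠ u → w ≠ v → (∀ i, w ≠ c i) →
      dg G w = dg (Dv (Dv G u (X.image c)) v (Y.image c)) w) ∧
    (¬ (X = ∅ ∧ Y = ∅) → Dv (Dv G u (X.image c)) v (Y.image c) < G) := by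
  have hcu : ∀ X : Finset (Fin 3), u ∉ X.image c := by
    intro X h
    obtain ⟨i, _, hi⟩ := Finset.mem_image.1 h
    exact (hu i).ne hi.symm
  have hcv : ∀ X : Finset (Fin 3), v ∉ X.image c := by
    intro X h
    obtain ⟨i, _, hi⟩ := Finset.mem_image.1 h
    exact (hv i).ne hi.symm
  have hX : ∀ x ∈ X.image c, G.Adj u x := by
    intro x hx
    obtain ⟨i, _, rfl⟩ := Finset.mem_image.1 hx
    exact hu i
  have hY : ∀ y ∈ Y.image c, G.Adj v y := by
    intro x hx
    obtain ⟨i, _, rfl⟩ := Finset.mem_image.1 hx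
    exact hv i
  obtain ⟨d1, d2, d3⟩ := dg_two G huv (X.image c) (Y.image c) hX hY (hcv X) (hcu Y)
  rw [Finset.card_image_of_injective _ hc] at d1 d2
  refine ⟨ph_one G h3 huv _ _ (hcv X) (hcu Y), d1, d2, ?_, ?_, ?_⟩
  · intro i
    rw [d3 (c i) (hu i).ne' (hv i).ne']
    unfold lo
    simp only [Finset.mem_image, hc.eq_iff, exists_eq_right]
    ring
  · intro w h1 h2 h4
    have k1 : ∀ X : Finset (Fin 3), w ∉ X.image c := by
      intro X h
      obtain ⟨i, _, hi⟩ := Finset.mem_image.1 h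
      exact h4 i hi.symm
    rw [d3 w h1 h2, if_neg (k1 X), if_neg (k1 Y), add_zero, add_zero]
  · intro h
    refine Dv_two_lt G _ _ hX hY ?_
    rw [Finset.image_nonempty, Finset.image_nonempty, Finset.nonempty_iff_ne_empty,
      Finset.nonempty_iff_ne_empty]
    tauto

theorem ph_zero : ph G u v ((∅ : Finset (Fin 3)).image c) ((∅ : Finset (Fin 3)).image c) ≠ 0 := by
  rw [(frame G h3 huv hc hu hv ∅ ∅).1]
  simpa only [Finset.image_empty, Dv_empty] using hG

/-- a step at a vertex of degree at least `k + 2` with three neighbours in common with `u` -/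
theorem step_k23 (k : ℕ) (hδ : ∀ w, k + 1 ≤ dg G w) (hdv : k + 2 ≤ dg G v) :
    ∃ G' : SimpleGraph V, G' < G ∧ (∀ w, k ≤ dg G' w) ∧ (HP G').card % 4 = 2 := by
  obtain ⟨X, Y, h0, h1, h2, h4, h5⟩ := (rel G huv hc hu hv).step (ph_zero G h3 huv hc hu hv hG)
  obtain ⟨f1, f2, f3, f4, f5, f6⟩ := frame G h3 huv hc hu hv X Y
  refine ⟨_, f6 h0, ?_, f1.1 h5⟩
  intro w
  by_cases hwu : w = u
  · rw [hwu]
    have := hδ u
    omega
  by_cases hwv : w = v
  · rw [hwv]
    omega
  by_cases hw : ∃ i, w = c i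
  · obtain ⟨i, hi⟩ := hw
    rw [hi]
    have a1 := f4 i
    have a2 := h1 i
    have a3 := hδ (c i)
    omega
  · push Not at hw
    rw [← f5 w hwu hwv hw]
    have := hδ w
    omega

/-- the final step -/
theorem exact_k23 (k : ℕ) (hδ : ∀ w, k + 1 ≤ dg G w) (hdu : k + 3 ≤ dg G u)
    (hdv : k + 3 ≤ dg G v) (hcd : ∀ i, dg G (c i) ≤ k + 2) :
    ∃ G' : SimpleGraph V, G' < G ∧ (∀ w, k ≤ dg G' w) ∧ (∃ w, dg G' w = k) ∧
      (HP G').card % 4 = 2 := by
  obtain ⟨X, Y, h1, ⟨i0, h2⟩, h5⟩ := (rel G huv hc hu hv).exact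
    (ph_zero G h3 huv hc hu hv hG) (fun i => dg G (c i) - k) (by
      intro i
      have a1 := hδ (c i)
      have a2 := hcd i
      omega)
  obtain ⟨f1, f2, f3, f4, f5, f6⟩ := frame G h3 huv hc hu hv X Y
  have hi0 := hδ (c i0)
  have h0 : ¬ (X = ∅ ∧ Y = ∅) := by
    rintro ⟨rfl, rfl⟩
    simp only [lo, Finset.notMem_empty, if_false] at h2
    omega
  have hXc : X.card ≤ 3 := by
    have := Finset.card_le_univ X
    simpa using this
  have hYc : Y.card ≤ 3 := by
    have := Finset.card_le_univ Y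
    simpa using this
  refine ⟨_, f6 h0, ?_, ⟨c i0, ?_⟩, f1.1 h5⟩
  · intro w
    by_cases hwu : w = u
    · rw [hwu]
      omega
    by_cases hwv : w = v
    · rw [hwv]
      omega
    by_cases hw : ∃ i, w = c i
    · obtain ⟨i, hi⟩ := hw
      rw [hi]
      have a1 := f4 i
      have a2 := h1 i
      have a3 := hδ (c i)
      omega
    · push Not at hw
      rw [← f5 w hwu hwv hw]
      have := hδ w
      omega
  · have a1 := f4 i0
    omega

end frame

end Pool.Agent.Helper52.LP
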