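import Mathlib

/-! # Parity of pairs (Hamilton path, choice function): the basic involutions -/

namespace Pool.Agent.Helper52.LP

open Finset Function Equiv
open scoped Classical

section tools

theorem even_card_of_inv {α : Type*} (S : Finset α) (g : α → α)
    (hm : ∀ a ∈ S, g a ∈ S) (hi : ∀ a ∈ S, g (g a) = a) (hf : ∀ a ∈ S, g a ≠ a) :
    Even S.card := by
  have h : ∑ _x ∈ S, (1 : ZMod 2) = 0 := by
    refine Finset.sum_involution (fun a _ => g a) ?_ ?_ ?_ ?_
    · intro a _; decide
    · intro a ha _; exact hf a ha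
    · intro a ha; exact hm a ha
    · intro a ha; exact hi a ha
  rw [Finset.sum_const, nsmul_eq_mul, mul_one] at h
  exact (ZMod.natCast_eq_zero_iff_even).1 h

/-- a finite sum of even numbers, invariant under a fixed point free involution -/
theorem four_dvd_of_inv {α : Type*} (S : Finset α) (n : α → ℕ) (g : α → α)
    (hm : ∀ a ∈ S, g a ∈ S) (hi : ∀ a ∈ S, g (g a) = a) (hf : ∀ a ∈ S, g a ≠ a ∨ n a = 0)
    (hn : ∀ a ∈ S, n (g a) = n a) (he : ∀ a ∈ S, Even (n a)) : 4 ∣ ∑ a ∈ S, n a := by
  have h : ∑ a ∈ S, ((n a / 2 : ℕ) : ZMod 2) = 0 := by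
    refine Finset.sum_involution (fun a _ => g a) ?_ ?_ ?_ ?_
    · intro a ha
      rw [hn a ha]
      exact CharTwo.add_self_eq_zero _
    · intro a ha h0
      rcases hf a ha with h | h
      · exact h
      · exact absurd (by rw [h]; simp) h0
    · intro a ha; exact hm a ha
    · intro a ha; exact hi a ha
  rw [← Nat.cast_sum] at h
  have h2 := (ZMod.natCast_eq_zero_iff_even).1 h
  have h3 : ∑ a ∈ S, n a = 2 * ∑ a ∈ S, n a / 2 := by
    rw [Finset.mul_sum]
    refine Finset.sum_congr rfl fun a ha => ?_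
    have := he a ha
    rw [Nat.two_mul_div_two_of_even this]
  rw [h3]
  obtain ⟨r, hr⟩ := h2
  rw [hr]
  exact ⟨r, by ring⟩

/-- a finite sum invariant under a fixed point free involution is even -/
theorem even_sum_of_inv {α : Type*} (S : Finset α) (n : α → ℕ) (g : α → α)
    (hm : ∀ a ∈ S, g a ∈ S) (hi : ∀ a ∈ S, g (g a) = a) (hf : ∀ a ∈ S, g a ≠ a ∨ n a = 0)
    (hn : ∀ a ∈ S, n (g a) = n a) : Even (∑ a ∈ S, n a) := by
  have h : ∑ a ∈ S, ((n a : ℕ) : ZMod 2) = 0 := by
    refine Finset.sum_involution (fun a _ => g a) ?_ ?_ ?_ ?_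
    · intro a ha
      rw [hn a ha]
      exact CharTwo.add_self_eq_zero _
    · intro a ha h0
      rcases hf a ha with h | h
      · exact h
      · exact absurd (by rw [h]; simp) h0
    · intro a ha; exact hm a ha
    · intro a ha; exact hi a ha
  rw [← Nat.cast_sum] at h
  exact (ZMod.natCast_eq_zero_iff_even).1 h

end tools

theorem pai {W : Type} (b : Perm W) (x : W) : b (b⁻¹ x) = x := b.apply_symm_apply x

theorem pia {W : Type} (b : Perm W) (x : W) : b⁻¹ (b x) = x := b.symm_apply_apply x

variable {W : Type} [Fintype W] [DecidableEq W]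

/-- the edge family of two choice functions -/
def fam (q p : W → W) : W ⊕ W → Sym2 W := Sum.elim (fun v => s(v, q v)) (fun v => s(v, p v))

/-- the edges of the family are distinct, apart from the diagonal ones -/
def DjF (F : W ⊕ W → Sym2 W) : Prop := ∀ i j, i ≠ j → F i = F j → (F i).IsDiag

def Dj (q p : W → W) : Prop := DjF (fam q p)

omit [Fintype W] [DecidableEq W] in
theorem DjF.perm {F F' : W ⊕ W → Sym2 W} (h : DjF F) (π : Perm (W ⊕ W))
    (hF : ∀ i, F' i = F (π i)) : DjF F' := by
  intro i j hij hf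
  rw [hF i] at hf ⊢
  rw [hF j] at hf
  exact h _ _ (fun h' => hij (π.injective h')) hf

omit [Fintype W] [DecidableEq W] in
theorem DjF.inj {F F' : W ⊕ W → Sym2 W} (h : DjF F) (π : W ⊕ W → W ⊕ W) (hπ : Injective π)
    (hF : ∀ i, F' i = F (π i)) : DjF F' := by
  intro i j hij hf
  rw [hF i] at hf ⊢
  rw [hF j] at hf
  exact h _ _ (fun h' => hij (hπ h')) hf

/-- `q` is a choice of neighbours on `D`, and the identity off `D` -/
def Dom (G : SimpleGraph W) (D : Finset W) (q : W → W) : Prop :=
  ∀ v, (v ∈ D → G.Adj v (q v)) ∧ (v ∉ D → q v = v)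

omit [Fintype W] in
theorem fam_swap (q p : W → W) (v : W) (i : W ⊕ W) :
    fam (update q v (p v)) (update p v (q v)) i
      = fam q p (swap (Sum.inl v) (Sum.inr v) i) := by
  rcases i with u | u
  · by_cases h : u = v
    · subst h; simp [fam]
    · rw [swap_apply_of_ne_of_ne (by simpa using h) (by simp)]
      simp [fam, h]
  · by_cases h : u = v
    · subst h; simp [fam]
    · rw [swap_apply_of_ne_of_ne (by simp) (by simpa using h)]
      simp [fam, h]

omit [Fintype W] [DecidableEq W] in
/-- a real edge is not used twice -/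
theorem Dj.ne_of_label {q p : W → W} (h : Dj q p) {i j : W ⊕ W} (hij : i ≠ j)
    (hd : ¬ (fam q p i).IsDiag) : fam q p i ≠ fam q p j := fun h' => hd (h i j hij h')

omit [Fintype W] [DecidableEq W] in
theorem Dj.not_two_cycle {q p : W → W} (h : Dj q p) {v : W} (hv : q v ≠ v) : q (q v) ≠ v := by
  intro h'
  have := h (Sum.inl v) (Sum.inl (q v)) (by simpa using fun h => hv h.symm)
    (by simp only [fam, Sum.elim_inl]; rw [h']; exact Sym2.eq_swap)
  simp only [fam, Sum.elim_inl, Sym2.mk_isDiag_iff] at this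
  exact hv this.symm

omit [Fintype W] [DecidableEq W] in
theorem Dj.ne {q p : W → W} (h : Dj q p) {v : W} (hv : q v ≠ v) : q v ≠ p v := by
  intro h'
  have := h (Sum.inl v) (Sum.inr v) (by simp)
    (by simp only [fam, Sum.elim_inl, Sum.elim_inr]; rw [h'])
  simp only [fam, Sum.elim_inl, Sym2.mk_isDiag_iff] at this
  exact hv this.symm

/-- relabelling for the inversion of a permutation -/
theorem fam_inv (b : Perm W) (q q' p : W → W) (hq' : ∀ v, s(v, q' v) = s(b⁻¹ v, q (b⁻¹ v)))
    (h : Dj q p) : Dj q' p := by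
  refine DjF.inj h (Sum.map (⇑b⁻¹) id) ?_ ?_
  · exact (Sum.map_injective).2 ⟨(b⁻¹).injective, injective_id⟩
  · rintro (v | v)
    · simp only [fam, Sum.elim_inl, Sum.map_inl]; exact hq' v
    · simp [fam]

end Pool.Agent.Helper52.LP
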