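import Pool.Agent.Helper52.LP.A

/-! # The fixed ends identity -/

namespace Pool.Agent.Helper52.LP

open Finset Function Equiv
open scoped Classical

variable {W : Type} [Fintype W] [DecidableEq W]

/-- pairs (permutation with the virtual arc `t → s` and real arcs elsewhere, choice on `D`) -/
noncomputable def KT (G : SimpleGraph W) (s t : W) (D : Finset W) :
    Finset (Perm W × (W → W)) :=
  univ.filter fun x => x.1 t = s ∧ (∀ v, v ≠ t → G.Adj v (x.1 v)) ∧ Dom G D x.2 ∧
    Dj (update (x.1 : W → W) t t) x.2

noncomputable def KS (G : SimpleGraph W) (s t : W) (D : Finset W) :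
    Finset (Perm W × W × (W → W)) :=
  univ.filter fun x => x.1 t = t ∧ G.Adj (x.1⁻¹ s) x.2.1 ∧
    (∀ v, v ≠ t → x.1 v ≠ s → G.Adj v (x.1 v)) ∧ Dom G D x.2.2 ∧
    Dj (update (x.1 : W → W) (x.1⁻¹ s) x.2.1) x.2.2

theorem exists_third (h3 : 3 ≤ Fintype.card W) (s t : W) : ∃ v, v ≠ s ∧ v ≠ t := by
  by_contra hc
  push Not at hc
  have : (univ : Finset W) ⊆ {s, t} := by
    intro v _
    rcases eq_or_ne v s with h | h
    · simp [h]
    · simp [hc v h]
  have h1 := Finset.card_le_card this
  have h2 : ({s, t} : Finset W).card ≤ 2 := Finset.card_le_two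
  rw [Finset.card_univ] at h1
  omega

theorem even_KS (G : SimpleGraph W) (s t : W) (hst : s ≠ t) (h3 : 3 ≤ Fintype.card W)
    (D : Finset W) (hD : ∀ v, v ≠ s → v ≠ t → v ∈ D) : Even (KS G s t D).card := by
  have key : ∀ a ∈ KS G s t D, a.1⁻¹ s ≠ t := by
    intro a ha h
    simp only [KS, mem_filter, mem_univ, true_and] at ha
    rw [Perm.inv_eq_iff_eq, ha.1] at h
    exact hst h
  refine even_card_of_inv _ (fun a => if a.1 s = s then (a.1⁻¹, a.2.1, a.2.2)
    else (a.1, a.2.2 (a.1⁻¹ s), update a.2.2 (a.1⁻¹ s) a.2.1)) ?_ ?_ ?_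
  · rintro ⟨b, y, p⟩ ha
    have hk := key _ ha
    simp only [KS, mem_filter, mem_univ, true_and] at ha hk ⊢
    obtain ⟨h1, h2, h4, h5, h6⟩ := ha
    by_cases hb : b s = s
    · have hb' : b⁻¹ s = s := by rw [Perm.inv_eq_iff_eq, hb]
      simp only [if_pos hb]
      rw [hb'] at h2 h6
      refine ⟨by rw [Perm.inv_eq_iff_eq, h1], by simpa [hb] using h2, ?_, h5, ?_⟩
      · intro v hv hv'
        have := h4 (b⁻¹ v) (fun h => hv (by rw [Perm.inv_eq_iff_eq, h1] at h; exact h))
          (by rw [pai]; intro h; rw [h, hb'] at hv'; exact hv' rfl)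
        rw [pai] at this
        exact this.symm
      · rw [inv_inv, hb]
        refine fam_inv b _ _ _ ?_ h6
        intro v
        by_cases hv : v = s
        · subst hv; rw [hb']; simp
        · have : b⁻¹ v ≠ s := by
            intro h; rw [Perm.inv_eq_iff_eq, hb] at h; exact hv h
          rw [update_of_ne hv, update_of_ne this, pai]
          exact Sym2.eq_swap
    · simp only [if_neg hb]
      have hv0s : b⁻¹ s ≠ s := by
        intro h; rw [Perm.inv_eq_iff_eq] at h; exact hb h.symm
      have hv0 : b⁻¹ s ∈ D := hD _ hv0s hk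
      refine ⟨h1, (h5 _).1 hv0, h4, ?_, ?_⟩
      · intro v
        by_cases hv : v = b⁻¹ s
        · subst hv
          simp only [update_self]
          exact ⟨fun _ => h2, fun h => absurd hv0 h⟩
        · rw [update_of_ne hv]; exact h5 v
      · have := h6
        refine DjF.perm this (swap (Sum.inl (b⁻¹ s)) (Sum.inr (b⁻¹ s))) fun i => ?_
        rw [← fam_swap]
        simp
  · rintro ⟨b, y, p⟩ ha
    by_cases hb : b s = s
    · have hb' : b⁻¹ s = s := by rw [Perm.inv_eq_iff_eq, hb]
      simp [hb, hb']
    · simp [hb]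
  · rintro ⟨b, y, p⟩ ha
    have hk := key _ ha
    simp only [KS, mem_filter, mem_univ, true_and] at ha hk
    obtain ⟨h1, h2, h4, h5, h6⟩ := ha
    by_cases hb : b s = s
    · have hb' : b⁻¹ s = s := by rw [Perm.inv_eq_iff_eq, hb]
      simp only [if_pos hb]
      intro h
      rw [Prod.mk.injEq] at h
      obtain ⟨v, hvs, hvt⟩ := exists_third h3 s t
      rw [hb'] at h6
      have e1 : b v ≠ s := by
        intro h'; apply hvs; rw [← hb'] ; rw [← h', pia]
      have a1 := h4 v hvt e1
      have := h6.not_two_cycle (v := v) (by rw [update_of_ne hvs]; exact a1.ne')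
      apply this
      rw [update_of_ne hvs, update_of_ne e1]
      have hx : b⁻¹ (b v) = b (b v) := by rw [h.1]
      rw [pia] at hx
      exact hx.symm
    · simp only [if_neg hb]
      intro h
      simp only [Prod.mk.injEq, true_and] at h
      have := h6.ne (v := b⁻¹ s) (by rw [update_self]; exact h2.ne')
      rw [update_self] at this
      exact this h.1.symm

theorem even_KT (G : SimpleGraph W) (s t : W) (hst : s ≠ t) (h3 : 3 ≤ Fintype.card W)
    (D : Finset W) (hD : ∀ v, v ≠ s → v ≠ t → v ∈ D) : Even (KT G s t D).card := by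
  have key : ∀ a ∈ KS G s t D, a.1⁻¹ s ≠ t := by
    intro a ha h
    simp only [KS, mem_filter, mem_univ, true_and] at ha
    rw [Perm.inv_eq_iff_eq, ha.1] at h
    exact hst h
  have hS := even_KS G s t hst h3 D hD
  set S := KS G s t D with hSd
  have hs : Even (S.filter fun a => a.2.1 = s).card := by
    refine even_card_of_inv _ (fun a => (a.1⁻¹, a.2.1, a.2.2)) ?_ ?_ ?_
    · rintro ⟨b, y, p⟩ ha
      rw [mem_filter] at ha
      obtain ⟨ha, hy⟩ := ha
      have hk := key _ ha
      simp only [hSd, KS, mem_filter, mem_univ, true_and] at ha hk hy ⊢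
      obtain ⟨h1, h2, h4, h5, h6⟩ := ha
      subst hy
      have hall : ∀ v, v ≠ t → G.Adj v (b v) := by
        intro v hv
        by_cases h : b v = y
        · rw [h]; rw [← h, pia, h] at h2; exact h2
        · exact h4 v hv h
      refine ⟨⟨by rw [Perm.inv_eq_iff_eq, h1], ?_, ?_, h5, ?_⟩, rfl⟩
      · rw [inv_inv]; exact (hall y hst).symm
      · intro v hv _
        have := hall (b⁻¹ v) (fun h => hv (by rw [Perm.inv_eq_iff_eq, h1] at h; exact h))
        rw [pai] at this
        exact this.symm
      · rw [inv_inv]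
        refine fam_inv b _ _ _ ?_ h6
        intro v
        have e1 : update (⇑b⁻¹) (b y) y v = b⁻¹ v := by
          by_cases hv : v = b y
          · subst hv; simp
          · rw [update_of_ne hv]
        have e2 : update (⇑b) (b⁻¹ y) y (b⁻¹ v) = v := by
          by_cases hv : b⁻¹ v = b⁻¹ y
          · rw [hv, update_self]; exact (b⁻¹.injective hv).symm
          · rw [update_of_ne hv, pai]
        rw [e1, e2]
        exact Sym2.eq_swap
    · rintro ⟨b, y, p⟩ ha; simp
    · rintro ⟨b, y, p⟩ ha
      rw [mem_filter] at ha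
      obtain ⟨ha, hy⟩ := ha
      have hk := key _ ha
      simp only [hSd, KS, mem_filter, mem_univ, true_and] at ha hk hy
      obtain ⟨h1, h2, h4, h5, h6⟩ := ha
      subst hy
      intro h
      rw [Prod.mk.injEq] at h
      have e0 : update (⇑b) (b⁻¹ y) y = b := by
        funext v
        by_cases hv : v = b⁻¹ y
        · subst hv; simp
        · rw [update_of_ne hv]
      rw [e0] at h6
      have hys : b y ≠ y := by
        by_cases h' : b y = y
        · have : b⁻¹ y = y := by rw [Perm.inv_eq_iff_eq, h']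
          rw [this] at h2
          exact absurd rfl h2.ne
        · exact h'
      refine h6.not_two_cycle hys ?_
      have h' : b⁻¹ = b := h.1
      have hx : b⁻¹ (b y) = b (b y) := by rw [h']
      rw [pia] at hx
      exact hx.symm
  have ho : Even (S.filter fun a => ¬ a.2.1 = s ∧ ¬ a.2.1 = t).card := by
    refine even_card_of_inv _ (fun a => (a.1 * swap (a.1⁻¹ s) (a.1⁻¹ a.2.1), a.2.1, a.2.2)) ?_ ?_ ?_
    · rintro ⟨b, y, p⟩ ha
      rw [mem_filter] at ha
      obtain ⟨ha, hys, hyt⟩ := ha
      have hk := key _ ha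
      simp only [hSd, KS, mem_filter, mem_univ, true_and] at ha hk hys hyt ⊢
      obtain ⟨h1, h2, h4, h5, h6⟩ := ha
      have hv1t : b⁻¹ y ≠ t := by
        intro h; rw [Perm.inv_eq_iff_eq, h1] at h; exact hyt h
      have hv01 : b⁻¹ s ≠ b⁻¹ y := fun h => hys (b⁻¹.injective h).symm
      have hb' : (b * swap (b⁻¹ s) (b⁻¹ y))⁻¹ s = b⁻¹ y := by
        rw [Perm.inv_eq_iff_eq, Perm.mul_apply, swap_apply_right, pai]
      rw [hb']
      refine ⟨⟨?_, ?_, ?_, h5, ?_⟩, hys, hyt⟩
      · rw [Perm.mul_apply, swap_apply_of_ne_of_ne hk.symm hv1t.symm, h1]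
      · have := h4 (b⁻¹ y) hv1t (by rw [pai]; exact hys)
        rwa [pai] at this
      · intro v hv hv'
        rw [Perm.mul_apply] at hv' ⊢
        by_cases hv0 : v = b⁻¹ s
        · subst hv0
          rw [swap_apply_left, pai]; exact h2
        · by_cases hv1 : v = b⁻¹ y
          · subst hv1
            rw [swap_apply_right, pai] at hv'
            exact absurd rfl hv'
          · rw [swap_apply_of_ne_of_ne hv0 hv1] at hv' ⊢
            exact h4 v hv hv'
      · have e : update (⇑(b * swap (b⁻¹ s) (b⁻¹ y))) (b⁻¹ y) y = update (⇑b) (b⁻¹ s) y := by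
          funext v
          by_cases hv1 : v = b⁻¹ y
          · subst hv1
            rw [update_self, update_of_ne hv01.symm, pai]
          · rw [update_of_ne hv1, Perm.mul_apply]
            by_cases hv0 : v = b⁻¹ s
            · subst hv0
              rw [swap_apply_left, update_self, pai]
            · rw [swap_apply_of_ne_of_ne hv0 hv1, update_of_ne hv0]
        rw [e]; exact h6
    · rintro ⟨b, y, p⟩ ha
      simp only [Prod.mk.injEq, and_true]
      have hb' : (b * swap (b⁻¹ s) (b⁻¹ y))⁻¹ s = b⁻¹ y := by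
        rw [Perm.inv_eq_iff_eq, Perm.mul_apply, swap_apply_right, pai]
      have hb'' : (b * swap (b⁻¹ s) (b⁻¹ y))⁻¹ y = b⁻¹ s := by
        rw [Perm.inv_eq_iff_eq, Perm.mul_apply, swap_apply_left, pai]
      rw [hb', hb'', mul_assoc, swap_comm (b⁻¹ y) (b⁻¹ s), swap_mul_self, mul_one]
    · rintro ⟨b, y, p⟩ ha
      rw [mem_filter] at ha
      obtain ⟨ha, hys, hyt⟩ := ha
      intro h
      rw [Prod.mk.injEq] at h
      have h' := h.1
      rw [mul_eq_left, swap_eq_one_iff] at h'
      exact hys (b⁻¹.injective h').symm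
  have ht : (S.filter fun a => a.2.1 = t).card = (KT G s t D).card := by
    refine Finset.card_nbij' (fun a => (a.1 * swap (a.1⁻¹ s) t, a.2.2))
      (fun a => (a.1 * swap (a.1⁻¹ t) t, t, a.2)) ?_ ?_ ?_ ?_
    · rintro ⟨b, y, p⟩ ha
      rw [mem_coe, mem_filter] at ha
      obtain ⟨ha, hy⟩ := ha
      have hk := key _ ha
      simp only [hSd, KS, KT, mem_filter, mem_univ, true_and, mem_coe] at ha hk hy ⊢
      obtain ⟨h1, h2, h4, h5, h6⟩ := ha
      subst hy
      refine ⟨?_, ?_, h5, ?_⟩
      · rw [Perm.mul_apply, swap_apply_right, pai]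
      · intro v hv
        rw [Perm.mul_apply]
        by_cases hv0 : v = b⁻¹ s
        · subst hv0; rw [swap_apply_left, h1]; exact h2
        · rw [swap_apply_of_ne_of_ne hv0 hv]
          exact h4 v hv (fun h => hv0 (by rw [← h, pia]))
      · have e : update (⇑(b * swap (b⁻¹ s) y)) y y = update (⇑b) (b⁻¹ s) y := by
          funext v
          by_cases hv : v = y
          · subst hv
            rw [update_self, update_of_ne hk.symm, h1]
          · rw [update_of_ne hv, Perm.mul_apply]
            by_cases hv0 : v = b⁻¹ s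
            · subst hv0
              rw [swap_apply_left, update_self, h1]
            · rw [swap_apply_of_ne_of_ne hv0 hv, update_of_ne hv0]
        rw [e]; exact h6
    · rintro ⟨b, p⟩ ha
      simp only [hSd, KS, KT, mem_filter, mem_univ, true_and, mem_coe] at ha ⊢
      obtain ⟨h1, h4, h5, h6⟩ := ha
      have hv1 : b⁻¹ t ≠ t := by
        intro h; rw [Perm.inv_eq_iff_eq, h1] at h; exact hst h.symm
      have hb' : (b * swap (b⁻¹ t) t)⁻¹ s = b⁻¹ t := by
        rw [Perm.inv_eq_iff_eq, Perm.mul_apply, swap_apply_left, h1]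
      rw [hb']
      refine ⟨⟨?_, ?_, ?_, h5, ?_⟩, trivial⟩
      · rw [Perm.mul_apply, swap_apply_right, pai]
      · have := h4 _ hv1
        rwa [pai] at this
      · intro v hv hv'
        rw [Perm.mul_apply] at hv' ⊢
        by_cases hv0 : v = b⁻¹ t
        · subst hv0; rw [swap_apply_left, h1] at hv'; exact absurd rfl hv'
        · rw [swap_apply_of_ne_of_ne hv0 hv]
          exact h4 v hv
      · have e : update (⇑(b * swap (b⁻¹ t) t)) (b⁻¹ t) t = update (⇑b) t t := by
          funext v
          by_cases hv : v = t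
          · subst hv
            rw [update_self, update_of_ne hv1.symm, Perm.mul_apply, swap_apply_right,
              pai]
          · rw [update_of_ne hv]
            by_cases hv0 : v = b⁻¹ t
            · subst hv0
              rw [update_self, pai]
            · rw [update_of_ne hv0, Perm.mul_apply, swap_apply_of_ne_of_ne hv0 hv]
        rw [e]; exact h6
    · rintro ⟨b, y, p⟩ ha
      rw [mem_coe, mem_filter] at ha
      obtain ⟨ha, hy⟩ := ha
      have hk := key _ ha
      simp only [hSd, KS, mem_filter, mem_univ, true_and] at ha hk hy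
      obtain ⟨h1, h2, h4, h5, h6⟩ := ha
      subst hy
      have : (b * swap (b⁻¹ s) y)⁻¹ y = b⁻¹ s := by
        rw [Perm.inv_eq_iff_eq, Perm.mul_apply, swap_apply_left, h1]
      simp only [Prod.mk.injEq, and_true]
      rw [this, mul_assoc, swap_mul_self, mul_one]
    · rintro ⟨b, p⟩ ha
      simp only [KT, mem_filter, mem_univ, true_and, mem_coe] at ha
      obtain ⟨h1, h4, h5, h6⟩ := ha
      have : (b * swap (b⁻¹ t) t)⁻¹ s = b⁻¹ t := by
        rw [Perm.inv_eq_iff_eq, Perm.mul_apply, swap_apply_left, h1]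
      simp only [Prod.mk.injEq, and_true]
      rw [this, mul_assoc, swap_mul_self, mul_one]
  have hc : S.card = (S.filter fun a => a.2.1 = s).card + (S.filter fun a => a.2.1 = t).card
      + (S.filter fun a => ¬ a.2.1 = s ∧ ¬ a.2.1 = t).card := by
    rw [← Finset.card_filter_add_card_filter_not (fun a => a.2.1 = s) (s := S)]
    rw [← Finset.card_filter_add_card_filter_not (fun a => a.2.1 = t)
      (s := S.filter fun a => ¬ a.2.1 = s), filter_filter, filter_filter]
    have : (S.filter fun a => ¬ a.2.1 = s ∧ a.2.1 = t) = S.filter fun a => a.2.1 = t := by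
      refine filter_congr fun a _ => ?_
      constructor
      · exact fun h => h.2
      · exact fun h => ⟨by rw [h]; exact hst.symm, h⟩
    rw [this]; ring
  rw [hc, ht] at hS
  have := (Nat.even_add.1 hS).2 ho
  exact (Nat.even_add.1 this).1 hs

end Pool.Agent.Helper52.LP
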