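import Pool.Agent.Helper52.LP.B

/-! # Inverting a permutation off one cycle; splitting and merging cycles -/

namespace Pool.Agent.Helper52.LP

open Finset Function Equiv
open scoped Classical

variable {W : Type} [Fintype W] [DecidableEq W]

theorem sc_inv_right (b : Perm W) (z v : W) : b.SameCycle z (b⁻¹ v) ↔ b.SameCycle z v := by
  rw [← Perm.sameCycle_apply_right, pai]

/-- invert `b` off the cycle of `z` -/
noncomputable def flip (z : W) (b : Perm W) : Perm W where
  toFun v := if b.SameCycle z v then b v else b⁻¹ v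
  invFun v := if b.SameCycle z v then b⁻¹ v else b v
  left_inv v := by
    by_cases h : b.SameCycle z v
    · simp only [if_pos h, Perm.sameCycle_apply_right, pia]
    · simp only [if_neg h, sc_inv_right, pai]
  right_inv v := by
    by_cases h : b.SameCycle z v
    · simp only [if_pos h, sc_inv_right, pai]
    · simp only [if_neg h, Perm.sameCycle_apply_right, pia]

theorem flip_apply (z : W) (b : Perm W) (v : W) :
    flip z b v = if b.SameCycle z v then b v else b⁻¹ v := rfl

theorem flip_inv_apply (z : W) (b : Perm W) (v : W) :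
    (flip z b)⁻¹ v = if b.SameCycle z v then b⁻¹ v else b v := rfl

theorem flip_zpow (z : W) (b : Perm W) (n : ℤ) : ((flip z b) ^ n) z = (b ^ n) z := by
  induction n using Int.induction_on with
  | zero => rfl
  | succ n ih =>
    rw [add_comm, zpow_add, zpow_add, zpow_one, zpow_one, Perm.mul_apply, Perm.mul_apply, ih,
      flip_apply, if_pos]
    exact ⟨n, rfl⟩
  | pred n ih =>
    rw [sub_eq_neg_add, zpow_add, zpow_add, zpow_neg_one, zpow_neg_one, Perm.mul_apply,
      Perm.mul_apply, ih, flip_inv_apply, if_pos]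
    exact ⟨-n, rfl⟩

theorem flip_sc (z : W) (b : Perm W) (v : W) : (flip z b).SameCycle z v ↔ b.SameCycle z v := by
  simp only [Perm.SameCycle, flip_zpow]

theorem flip_flip (z : W) (b : Perm W) : flip z (flip z b) = b := by
  ext v
  rw [flip_apply, flip_apply, flip_inv_apply]
  simp only [flip_sc]
  split_ifs <;> rfl

/-- first half: two cycles are merged -/
theorem merge {b : Perm W} {z y : W} (h : ¬ b.SameCycle z y) :
    (swap z y * b).SameCycle z y := by
  by_contra hc
  apply h
  set b' := swap z y * b with hb'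
  have hsc : b'.SameCycle z (b'⁻¹ z) := (sc_inv_right _ _ _).2 (Perm.SameCycle.refl _ _)
  have hex : ∃ k : ℕ, (b' ^ k) z = b'⁻¹ z := hsc.exists_nat_pow_eq
  classical
  obtain ⟨hk, hmin⟩ := And.intro (Nat.find_spec hex) (fun m => @Nat.find_min _ _ hex m)
  set k := Nat.find hex
  have hnz : ∀ i, i + 1 ≤ k → (b' ^ (i + 1)) z ≠ z := by
    intro i hi hz
    apply hmin (k - (i + 1)) (by omega)
    have : (b' ^ k) z = (b' ^ (k - (i + 1))) ((b' ^ (i + 1)) z) := by
      rw [← Perm.mul_apply, ← pow_add]; congr 2; omega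
    rw [hz] at this
    rw [← this, hk]
  have hny : ∀ i, (b' ^ i) z ≠ y := fun i hi => hc ⟨i, by rw [zpow_natCast]; exact hi⟩
  have heq : ∀ i, i ≤ k → (b ^ i) z = (b' ^ i) z := by
    intro i
    induction i with
    | zero => intro _; rfl
    | succ i ih =>
      intro hi
      rw [pow_succ', Perm.mul_apply, ih (by omega)]
      have h1 := hnz i hi
      have h2 := hny (i + 1)
      rw [pow_succ', Perm.mul_apply, hb', Perm.mul_apply, ← hb'] at h1 h2
      rw [pow_succ', Perm.mul_apply, hb', Perm.mul_apply, ← hb']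
      have h3 : b ((b' ^ i) z) ≠ z := by
        intro h; rw [h, swap_apply_left] at h2; exact h2 rfl
      have h4 : b ((b' ^ i) z) ≠ y := by
        intro h; rw [h, swap_apply_right] at h1; exact h1 rfl
      rw [swap_apply_of_ne_of_ne h3 h4]
  refine ⟨(k : ℤ) + 1, ?_⟩
  rw [add_comm, zpow_add, zpow_one, zpow_natCast, Perm.mul_apply, heq k le_rfl, hk]
  have : b' (b'⁻¹ z) = z := pai _ _
  rw [hb', Perm.mul_apply, ← hb'] at this
  have h5 := congrArg (swap z y) this
  rw [swap_apply_self, swap_apply_left] at h5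
  exact h5

/-- second half: a cycle is split -/
theorem split {b : Perm W} {z y : W} (hzy : z ≠ y) (h : b.SameCycle z y) :
    ¬ (swap z y * b).SameCycle z y := by
  intro hc
  have hex : ∃ k : ℕ, (b ^ k) z = y := h.exists_nat_pow_eq
  classical
  obtain ⟨hk, hmin⟩ := And.intro (Nat.find_spec hex) (fun m => @Nat.find_min _ _ hex m)
  set k := Nat.find hex
  have hk0 : 0 < k := by
    rcases Nat.eq_zero_or_pos k with h0 | h0
    · rw [h0] at hk; exact absurd hk hzy
    · exact h0
  have hnz : ∀ i, i + 1 < k → (b ^ (i + 1)) z ≠ z := by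
    intro i hi hz
    apply hmin (k - (i + 1)) (by omega)
    have : (b ^ k) z = (b ^ (k - (i + 1))) ((b ^ (i + 1)) z) := by
      rw [← Perm.mul_apply, ← pow_add]; congr 2; omega
    rw [hz] at this
    rw [← this, hk]
  have hj : ∀ j : ℕ, ∃ i, i < k ∧ ((swap z y * b) ^ j) z = (b ^ i) z := by
    intro j
    induction j with
    | zero => exact ⟨0, hk0, rfl⟩
    | succ j ih =>
      obtain ⟨i, hi, he⟩ := ih
      rw [pow_succ', Perm.mul_apply, he, Perm.mul_apply, ← Perm.mul_apply b, ← pow_succ']
      rcases Nat.lt_or_ge (i + 1) k with h1 | h1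
      · refine ⟨i + 1, h1, ?_⟩
        exact swap_apply_of_ne_of_ne (hnz i h1) (hmin (i + 1) h1)
      · refine ⟨0, hk0, ?_⟩
        have : i + 1 = k := by omega
        rw [this, hk, swap_apply_right]; rfl
  obtain ⟨j, hj'⟩ := hc.exists_nat_pow_eq
  obtain ⟨i, hi, he⟩ := hj j
  exact hmin i hi (by rw [← he, hj'])

end Pool.Agent.Helper52.LP
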