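import Pool.Agent.Helper52.LP.C

/-! # Total choice functions, closed permutations modulo 4, full cycles -/

namespace Pool.Agent.Helper52.LP

open Finset Function Equiv
open scoped Classical

section tools

theorem four_dvd_card {α β : Type*} [Fintype β] [DecidableEq β] (S : Finset α) (φ : α → α)
    (hm : ∀ a ∈ S, φ a ∈ S) (hi : ∀ a ∈ S, φ (φ a) = a) (f : α → β) (g : β → β)
    (hg : ∀ y, g (g y) = y) (hfg : ∀ a ∈ S, f (φ a) = g (f a)) (hne : ∀ a ∈ S, g (f a) ≠ f a)
    (he : ∀ y, Even (S.filter fun a => f a = y).card) : 4 ∣ S.card := by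
  rw [Finset.card_eq_sum_card_fiberwise (f := f) (t := univ) (fun a _ => mem_coe.2 (mem_univ _))]
  refine four_dvd_of_inv _ _ g (fun a _ => mem_univ _) (fun a _ => hg a) ?_ ?_ (fun a _ => he a)
  · intro y _
    by_cases h : g y = y
    · right
      rw [Finset.card_eq_zero, Finset.filter_eq_empty_iff]
      intro a ha hy
      subst hy
      exact hne a ha h
    · exact Or.inl h
  · intro y _
    refine Finset.card_nbij' φ φ ?_ ?_ ?_ ?_
    · intro a ha
      rw [mem_coe, mem_filter] at ha ⊢
      refine ⟨hm a ha.1, ?_⟩
      rw [hfg a ha.1, ha.2, hg]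
    · intro a ha
      rw [mem_coe, mem_filter] at ha ⊢
      refine ⟨hm a ha.1, ?_⟩
      rw [hfg a ha.1, ha.2]
    · intro a ha
      rw [mem_coe, mem_filter] at ha
      exact hi a ha.1
    · intro a ha
      rw [mem_coe, mem_filter] at ha
      exact hi a ha.1

end tools

variable {W : Type} [Fintype W] [DecidableEq W]

/-- number of total choice functions edge disjoint from `q`: even -/
theorem even_UC (G : SimpleGraph W) (q : W → W) (v1 : W) :
    Even (univ.filter fun p : W → W => Dom G univ p ∧ Dj q p).card := by
  set T : Finset (W × W × (W → W)) := univ.filter fun x => Dom G {v1}ᶜ x.2.2 ∧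
    G.Adj x.1 x.2.1 ∧ DjF (update (fam q x.2.2) (Sum.inr v1) s(x.1, x.2.1)) with hT
  have H1 : Even T.card := by
    refine even_card_of_inv _ (fun a => (a.2.1, a.1, a.2.2)) ?_ ?_ ?_
    · rintro ⟨w, x, p⟩ ha
      simp only [hT, mem_filter, mem_univ, true_and] at ha ⊢
      refine ⟨ha.1, ha.2.1.symm, ?_⟩
      rw [Sym2.eq_swap]; exact ha.2.2
    · rintro ⟨w, x, p⟩ _; rfl
    · rintro ⟨w, x, p⟩ ha h
      simp only [hT, mem_filter, mem_univ, true_and, Prod.mk.injEq] at ha h
      exact ha.2.1.ne h.2.1
  have H2 : Even (T.filter fun a => ¬ a.1 = v1).card := by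
    refine even_card_of_inv _ (fun a => (a.1, a.2.2 a.1, update a.2.2 a.1 a.2.1)) ?_ ?_ ?_
    · rintro ⟨w, x, p⟩ ha
      simp only [hT, mem_filter, mem_univ, true_and] at ha ⊢
      obtain ⟨⟨h1, h2, h3⟩, h4⟩ := ha
      refine ⟨⟨?_, ((h1 w).1 (by simpa using h4)), ?_⟩, h4⟩
      · intro v
        by_cases hv : v = w
        · subst hv
          rw [update_self]
          exact ⟨fun _ => h2, fun h => absurd (by simpa using h4) h⟩
        · rw [update_of_ne hv]; exact h1 v
      · refine DjF.perm h3 (swap (Sum.inr w) (Sum.inr v1)) ?_
        have hne : (Sum.inr w : W ⊕ W) ≠ Sum.inr v1 := by simpa using h4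
        intro i
        by_cases hi : i = Sum.inr v1
        · subst hi
          rw [swap_apply_right, update_self, update_of_ne hne]
          rfl
        · by_cases hi' : i = Sum.inr w
          · subst hi'
            rw [swap_apply_left, update_self, update_of_ne hi]
            simp [fam]
          · rw [swap_apply_of_ne_of_ne hi' hi, update_of_ne hi, update_of_ne hi]
            rcases i with i | i
            · rfl
            · have : i ≠ w := by rintro rfl; exact hi' rfl
              simp [fam, this]
    · rintro ⟨w, x, p⟩ _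
      simp
    · rintro ⟨w, x, p⟩ ha h
      simp only [hT, mem_filter, mem_univ, true_and, Prod.mk.injEq] at ha h
      obtain ⟨⟨h1, h2, h3⟩, h4⟩ := ha
      have hne : (Sum.inr w : W ⊕ W) ≠ Sum.inr v1 := by simpa using h4
      have := h3 (Sum.inr w) (Sum.inr v1) hne (by
        rw [update_self, update_of_ne hne]
        simp only [fam, Sum.elim_inr]
        rw [h.1])
      rw [update_of_ne hne] at this
      simp only [fam, Sum.elim_inr, Sym2.mk_isDiag_iff] at this
      rw [h.1] at this
      exact h2.ne this
  have H3 : (T.filter fun a => a.1 = v1).card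
      = (univ.filter fun p : W → W => Dom G univ p ∧ Dj q p).card := by
    refine Finset.card_nbij' (fun a => update a.2.2 v1 a.2.1)
      (fun p => (v1, p v1, update p v1 v1)) ?_ ?_ ?_ ?_
    · rintro ⟨w, x, p⟩ ha
      simp only [hT, mem_filter, mem_univ, true_and, mem_coe] at ha ⊢
      obtain ⟨⟨h1, h2, h3⟩, h4⟩ := ha
      subst h4
      refine ⟨?_, ?_⟩
      · intro v
        by_cases hv : v = w
        · subst hv; rw [update_self]; exact ⟨fun _ => h2, fun h => absurd (mem_univ _) h⟩
        · rw [update_of_ne hv]
          exact ⟨fun _ => (h1 v).1 (by simpa using hv), fun h => absurd (mem_univ _) h⟩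
      · have : fam q (update p w x) = update (fam q p) (Sum.inr w) s(w, x) := by
          funext i
          rcases i with i | i
          · simp [fam]
          · by_cases hi : i = w
            · subst hi; simp [fam]
            · have : (Sum.inr i : W ⊕ W) ≠ Sum.inr w := by simpa using hi
              rw [update_of_ne this]
              simp [fam, hi]
        rw [Dj, this]; exact h3
    · intro p ha
      simp only [hT, mem_filter, mem_univ, true_and, mem_coe] at ha ⊢
      obtain ⟨h1, h3⟩ := ha
      refine ⟨⟨?_, (h1 v1).1 (mem_univ _), ?_⟩, trivial⟩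
      · intro v
        by_cases hv : v = v1
        · subst hv; rw [update_self]; exact ⟨fun h => absurd h (by simp), fun _ => rfl⟩
        · rw [update_of_ne hv]
          exact ⟨fun _ => (h1 v).1 (mem_univ _), fun h => absurd hv (by simpa using h)⟩
      · have : update (fam q (update p v1 v1)) (Sum.inr v1) s(v1, p v1) = fam q p := by
          funext i
          rcases i with i | i
          · simp [fam]
          · by_cases hi : i = v1
            · subst hi; simp [fam]
            · have : (Sum.inr i : W ⊕ W) ≠ Sum.inr v1 := by simpa using hi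
              rw [update_of_ne this]
              simp [fam, hi]
        rw [this]; exact h3
    · rintro ⟨w, x, p⟩ ha
      simp only [hT, mem_filter, mem_univ, true_and, mem_coe] at ha ⊢
      obtain ⟨⟨h1, h2, h3⟩, h4⟩ := ha
      subst h4
      have : p w = w := (h1 w).2 (by simp)
      simp only [update_self, update_idem, Prod.mk.injEq, true_and]
      exact update_eq_self_iff.2 this.symm
    · intro p _
      simp
  have H4 : T.card = (T.filter fun a => a.1 = v1).card + (T.filter fun a => ¬ a.1 = v1).card :=
    (Finset.card_filter_add_card_filter_not _).symm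
  rw [H4] at H1
  rw [← H3]
  exact (Nat.even_add.1 H1).2 H2

end Pool.Agent.Helper52.LP
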