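import Pool.Agent.Helper52.LP.D

/-! # Closed permutations modulo 4 -/

namespace Pool.Agent.Helper52.LP

open Finset Function Equiv
open scoped Classical

variable {W : Type} [Fintype W] [DecidableEq W]

theorem fam_update_l (q p : W → W) (v x : W) :
    fam (update q v x) p = update (fam q p) (Sum.inl v) s(v, x) := by
  funext i
  rcases i with i | i
  · by_cases hi : i = v
    · subst hi; simp [fam]
    · have : (Sum.inl i : W ⊕ W) ≠ Sum.inl v := by simpa using hi
      rw [update_of_ne this]; simp [fam, hi]
  · simp [fam]

theorem fam_update_r (q p : W → W) (v x : W) :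
    fam q (update p v x) = update (fam q p) (Sum.inr v) s(v, x) := by
  funext i
  rcases i with i | i
  · simp [fam]
  · by_cases hi : i = v
    · subst hi; simp [fam]
    · have : (Sum.inr i : W ⊕ W) ≠ Sum.inr v := by simpa using hi
      rw [update_of_ne this]; simp [fam, hi]

/-- placing a new edge at a label carrying a diagonal edge -/
theorem djF_update {F : W ⊕ W → Sym2 W} (i : W ⊕ W) (e : Sym2 W) (he : ¬ e.IsDiag)
    (hF : (F i).IsDiag) : DjF (update F i e) ↔ DjF F ∧ ∀ j, F j ≠ e := by
  constructor
  · intro h
    refine ⟨?_, ?_⟩
    · intro j k hjk hf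
      by_cases hj : j = i
      · subst hj; exact hF
      · by_cases hk : k = i
        · subst hk; rw [hf]; exact hF
        · have := h j k hjk (by rw [update_of_ne hj, update_of_ne hk]; exact hf)
          rwa [update_of_ne hj] at this
    · intro j hj
      by_cases hji : j = i
      · subst hji; rw [hj] at hF; exact he hF
      · have := h i j (fun h => hji h.symm) (by rw [update_self, update_of_ne hji]; exact hj.symm)
        rw [update_self] at this
        exact he this
  · rintro ⟨h, h'⟩ j k hjk hf
    by_cases hj : j = i
    · subst hj
      have hk : k ≠ j := fun h => hjk h.symm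
      rw [update_self, update_of_ne hk] at hf
      exact absurd hf.symm (h' k)
    · rw [update_of_ne hj] at hf ⊢
      by_cases hk : k = i
      · subst hk
        rw [update_self] at hf
        exact absurd hf (h' j)
      · rw [update_of_ne hk] at hf
        exact h j k hjk hf

theorem dj_two {q p : W → W} {v x x' : W} (hx : v ≠ x) (hx' : v ≠ x') :
    Dj (update q v x) (update p v x') ↔ Dj (update q v v) (update p v v) ∧ x ≠ x' ∧
      ∀ i, fam (update q v v) (update p v v) i ≠ s(v, x) ∧
        fam (update q v v) (update p v v) i ≠ s(v, x') := by
  have e1 : update q v x = update (update q v v) v x := by rw [update_idem]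
  have e2 : update p v x' = update (update p v v) v x' := by rw [update_idem]
  rw [e1, e2]
  simp only [update_idem]
  set q0 := update q v v
  set p0 := update p v v
  have hq0 : q0 v = v := by simp [q0]
  have hp0 : p0 v = v := by simp [p0]
  have e1 : update q v x = update q0 v x := by simp [q0]
  have e2 : update p v x' = update p0 v x' := by simp [p0]
  rw [e1, e2]
  unfold Dj
  have d1 : (fam (update q0 v x) p0 (Sum.inr v)).IsDiag := by simp [fam, hp0]
  have d2 : (fam q0 p0 (Sum.inl v)).IsDiag := by simp [fam, hq0]
  rw [fam_update_r, djF_update _ _ (by simpa using hx') d1, fam_update_l,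
    djF_update _ _ (by simpa using hx) d2]
  constructor
  · rintro ⟨⟨h1, h2⟩, h3⟩
    refine ⟨h1, ?_, ?_⟩
    · have := h3 (Sum.inl v)
      rw [update_self] at this
      rintro rfl; exact this rfl
    · intro i
      refine ⟨h2 i, ?_⟩
      by_cases hi : i = Sum.inl v
      · subst hi
        simp only [fam, Sum.elim_inl, hq0]
        intro h
        have : (s(v, v) : Sym2 W).IsDiag := by simp
        rw [h] at this
        exact hx' (by simpa using this)
      · have := h3 i
        rwa [update_of_ne hi] at this
  · rintro ⟨h1, h2, h3⟩
    refine ⟨⟨h1, fun i => (h3 i).1⟩, ?_⟩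
    intro i
    by_cases hi : i = Sum.inl v
    · subst hi
      rw [update_self]
      intro h
      apply h2
      have := Sym2.congr_right.1 h
      exact this
    · rw [update_of_ne hi]; exact (h3 i).2

/-- closed permutations with real arcs, and a choice of neighbours off `z` -/
noncomputable def QT (G : SimpleGraph W) (z : W) : Finset (Perm W × (W → W)) :=
  univ.filter fun x => (∀ v, G.Adj v (x.1 v)) ∧ Dom G {z}ᶜ x.2 ∧ Dj x.1 x.2

noncomputable def JS (G : SimpleGraph W) (z : W) : Finset (Perm W × W × (W → W)) :=
  univ.filter fun x => G.Adj (x.1⁻¹ z) x.2.1 ∧ (∀ v, x.1 v ≠ z → G.Adj v (x.1 v)) ∧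
    Dom G {z}ᶜ x.2.2 ∧ Dj (update (x.1 : W → W) (x.1⁻¹ z) x.2.1) x.2.2

theorem even_fib (G : SimpleGraph W) (h3 : 3 ≤ Fintype.card W) (z v0 : W) (hv : v0 ≠ z)
    (x x' : W) : Even ((JS G z).filter fun a => a.1⁻¹ z = v0 ∧ a.2.1 = x ∧ a.2.2 v0 = x').card := by
  by_cases hx : G.Adj v0 x ∧ G.Adj v0 x'
  · by_cases hxx : x = x'
    · have : ((JS G z).filter fun a => a.1⁻¹ z = v0 ∧ a.2.1 = x ∧ a.2.2 v0 = x') = ∅ := by
        rw [Finset.filter_eq_empty_iff]
        rintro ⟨b, y, p⟩ ha
        simp only [JS, mem_filter, mem_univ, true_and] at ha ⊢
        rintro ⟨e1, e2, e3⟩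
        obtain ⟨h1, h2, h3, h4⟩ := ha
        rw [e1] at h1 h4
        have := h4.ne (v := v0) (by rw [update_self]; exact h1.ne')
        rw [update_self, e2, e3] at this
        exact this hxx
      rw [this]; simp
    · set G' := G.deleteEdges {s(v0, x), s(v0, x')} with hG'
      have hadj : ∀ a b, G'.Adj a b ↔ G.Adj a b ∧ s(a, b) ≠ s(v0, x) ∧ s(a, b) ≠ s(v0, x') := by
        intro a b
        rw [hG', SimpleGraph.deleteEdges_adj]
        simp only [Set.mem_insert_iff, Set.mem_singleton_iff, not_or]
      have : ((JS G z).filter fun a => a.1⁻¹ z = v0 ∧ a.2.1 = x ∧ a.2.2 v0 = x').card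
          = (KT G' z v0 ({z, v0}ᶜ)).card := by
        refine Finset.card_nbij' (fun a => (a.1, update a.2.2 v0 v0))
          (fun a => (a.1, x, update a.2 v0 x')) ?_ ?_ ?_ ?_
        · rintro ⟨b, y, p⟩ ha
          simp only [JS, KT, mem_filter, mem_univ, true_and, mem_coe] at ha ⊢
          obtain ⟨⟨h1, h2, h3, h4⟩, e1, e2, e3⟩ := ha
          subst e2
          rw [e1] at h1 h4
          have ep : p = update p v0 x' := by rw [← e3, update_eq_self]
          rw [ep, dj_two hx.1.ne hx.2.ne] at h4
          obtain ⟨h4, h5, h6⟩ := h4
          refine ⟨?_, ?_, ?_, h4⟩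
          · rw [← e1, pai]
          · intro v hv'
            rw [hadj]
            have hbz : b v ≠ z := by
              intro h; apply hv'; rw [← e1, ← h, pia]
            refine ⟨h2 v hbz, ?_⟩
            have := h6 (Sum.inl v)
            simpa only [fam, Sum.elim_inl, update_of_ne hv'] using this
          · intro v
            constructor
            · intro hv'
              simp only [mem_compl, mem_insert, mem_singleton, not_or] at hv'
              rw [update_of_ne hv'.2, hadj]
              refine ⟨(h3 v).1 (by simpa using hv'.1), ?_⟩
              have := h6 (Sum.inr v)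
              simpa only [fam, Sum.elim_inr, update_of_ne hv'.2] using this
            · intro hv'
              simp only [mem_compl, mem_insert, mem_singleton, not_not] at hv'
              by_cases h : v = v0
              · subst h; rw [update_self]
              · rw [update_of_ne h]
                exact (h3 v).2 (by simpa using hv'.resolve_right h)
        · rintro ⟨b, p⟩ ha
          simp only [JS, KT, mem_filter, mem_univ, true_and, mem_coe] at ha ⊢
          obtain ⟨h1, h2, h3, h4⟩ := ha
          have e1 : b⁻¹ z = v0 := by rw [← h1, pia]
          have hp0 : update p v0 v0 = p :=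
            update_eq_self_iff.2 ((h3 v0).2 (by simp)).symm
          refine ⟨⟨?_, ?_, ?_, ?_⟩, e1, update_self _ _ _⟩
          · rw [e1]; exact hx.1
          · intro v hv'
            exact ((hadj _ _).1 (h2 v (fun h => hv' (by rw [h, h1])))).1
          · intro v
            constructor
            · intro hv'
              simp only [mem_compl, mem_singleton] at hv'
              by_cases h : v = v0
              · subst h; rw [update_self]; exact hx.2
              · rw [update_of_ne h]
                exact ((hadj _ _).1 ((h3 v).1 (by simp [hv', h]))).1
            · intro hv'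
              simp only [mem_compl, mem_singleton, not_not] at hv'
              rw [hv', update_of_ne hv.symm]
              exact (h3 z).2 (by simp)
          · rw [e1, dj_two hx.1.ne hx.2.ne, hp0]
            refine ⟨h4, hxx, ?_⟩
            rintro (v | v)
            · by_cases h : v = v0
              · subst h
                simp only [fam, Sum.elim_inl, update_self]
                constructor
                · intro h
                  have := (Sym2.congr_right.1 h)
                  exact hx.1.ne this
                · intro h
                  have := (Sym2.congr_right.1 h)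
                  exact hx.2.ne this
              · simp only [fam, Sum.elim_inl, update_of_ne h]
                exact ((hadj _ _).1 (h2 v h)).2
            · simp only [fam, Sum.elim_inr]
              by_cases h : v ∈ ({z, v0}ᶜ : Finset W)
              · exact ((hadj _ _).1 ((h3 v).1 h)).2
              · rw [(h3 v).2 h]
                constructor
                · intro h
                  have : (s(v, v) : Sym2 W).IsDiag := by simp
                  rw [h] at this
                  exact hx.1.ne (by simpa using this)
                · intro h
                  have : (s(v, v) : Sym2 W).IsDiag := by simp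
                  rw [h] at this
                  exact hx.2.ne (by simpa using this)
        · rintro ⟨b, y, p⟩ ha
          simp only [JS, mem_filter, mem_univ, true_and, mem_coe] at ha
          obtain ⟨⟨h1, h2, h3, h4⟩, e1, e2, e3⟩ := ha
          simp only [update_idem, Prod.mk.injEq, true_and]
          exact ⟨e2.symm, by rw [← e3, update_eq_self]⟩
        · rintro ⟨b, p⟩ ha
          simp only [KT, mem_filter, mem_univ, true_and, mem_coe] at ha
          obtain ⟨h1, h2, h3, h4⟩ := ha
          simp only [update_idem, Prod.mk.injEq, true_and]
          exact update_eq_self_iff.2 ((h3 v0).2 (by simp)).symm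
      rw [this]
      refine even_KT G' z v0 hv.symm h3 _ ?_
      intro v h1 h2
      simp [h1, h2]
  · have : ((JS G z).filter fun a => a.1⁻¹ z = v0 ∧ a.2.1 = x ∧ a.2.2 v0 = x') = ∅ := by
      rw [Finset.filter_eq_empty_iff]
      rintro ⟨b, y, p⟩ ha
      simp only [JS, mem_filter, mem_univ, true_and] at ha ⊢
      rintro ⟨e1, e2, e3⟩
      obtain ⟨h1, h2, h3, h4⟩ := ha
      apply hx
      rw [e1, e2] at h1
      refine ⟨h1, ?_⟩
      rw [← e3]
      exact (h3 v0).1 (by simpa using hv)
    rw [this]; simp

end Pool.Agent.Helper52.LP
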