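import Pool.Agent.Helper52.LP.E

/-! # Closed permutations modulo 4, continued -/

namespace Pool.Agent.Helper52.LP

open Finset Function Equiv
open scoped Classical

variable {W : Type} [Fintype W] [DecidableEq W]

/-- relabelling by an injective map -/
theorem Dj.relabel {q q' p : W → W} (h : Dj q p) (π : W → W) (hπ : Injective π)
    (hq' : ∀ v, s(v, q' v) = s(π v, q (π v))) : Dj q' p := by
  refine DjF.inj h (Sum.map π id) ?_ ?_
  · exact (Sum.map_injective).2 ⟨hπ, injective_id⟩
  · rintro (v | v)
    · simp only [fam, Sum.elim_inl, Sum.map_inl]; exact hq' v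
    · simp [fam]

/-- the relabelling for `flip` -/
noncomputable def offp (z : W) (b : Perm W) : W → W := fun v => if b.SameCycle z v then v else b⁻¹ v

theorem offp_inj (z : W) (b : Perm W) : Injective (offp z b) := by
  intro u v h
  unfold offp at h
  split_ifs at h with h1 h2 h2
  · exact h
  · rw [h] at h1
    exact absurd ((sc_inv_right _ _ _).1 h1) h2
  · rw [← h] at h2
    exact absurd ((sc_inv_right _ _ _).1 h2) h1
  · exact (b⁻¹).injective h

theorem fib_ne (G : SimpleGraph W) (h3 : 3 ≤ Fintype.card W) (z v0 : W) (hv : v0 ≠ z) :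
    4 ∣ ((JS G z).filter fun a => a.1⁻¹ z = v0).card := by
  refine four_dvd_card _ (fun a => (a.1, a.2.2 v0, update a.2.2 v0 a.2.1)) ?_ ?_
    (fun a => (a.2.1, a.2.2 v0)) Prod.swap (fun y => Prod.swap_swap y) ?_ ?_ ?_
  · rintro ⟨b, y, p⟩ ha
    simp only [JS, mem_filter, mem_univ, true_and] at ha ⊢
    obtain ⟨⟨h1, h2, h3, h4⟩, e1⟩ := ha
    rw [e1] at h1 h4 ⊢
    refine ⟨⟨(h3 _).1 (by simpa using hv), h2, ?_, ?_⟩, rfl⟩
    · intro v
      by_cases h : v = v0
      · subst h; rw [update_self]
        exact ⟨fun _ => h1, fun h => absurd (by simpa using hv) h⟩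
      · rw [update_of_ne h]; exact h3 v
    · refine DjF.perm h4 (swap (Sum.inl v0) (Sum.inr v0)) fun i => ?_
      rw [← fam_swap]
      simp
  · rintro ⟨b, y, p⟩ _
    simp
  · rintro ⟨b, y, p⟩ _
    simp
  · rintro ⟨b, y, p⟩ ha h
    simp only [JS, mem_filter, mem_univ, true_and, Prod.swap_prod_mk, Prod.mk.injEq] at ha h
    obtain ⟨⟨h1, h2, h3, h4⟩, e1⟩ := ha
    rw [e1] at h1 h4
    have := h4.ne (v := v0) (by rw [update_self]; exact h1.ne')
    rw [update_self] at this
    exact this h.2
  · rintro ⟨x, x'⟩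
    have := even_fib G h3 z v0 hv x x'
    rw [filter_filter]
    convert this using 4
    rw [Prod.mk.injEq]

theorem fib_eq (G : SimpleGraph W) (h3 : 3 ≤ Fintype.card W) (z : W) :
    4 ∣ ((JS G z).filter fun a => a.1⁻¹ z = z).card := by
  have hinvz : ∀ b : Perm W, b⁻¹ z = z → b z = z := fun b h => by
    conv_lhs => rw [← h]
    exact pai _ _
  refine four_dvd_card _ (fun a => (a.1⁻¹, a.2.1, a.2.2)) ?_ ?_
    (fun a => a.1) (fun b => b⁻¹) (fun y => inv_inv y) ?_ ?_ ?_
  · rintro ⟨b, y, p⟩ ha
    simp only [JS, mem_filter, mem_univ, true_and] at ha ⊢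
    obtain ⟨⟨h1, h2, h3, h4⟩, e1⟩ := ha
    have e2 := hinvz b e1
    rw [e1] at h1 h4
    rw [inv_inv, e2]
    refine ⟨⟨h1, ?_, h3, ?_⟩, rfl⟩
    · intro v hv
      have := h2 (b⁻¹ v) (by rw [pai]; rintro rfl; exact hv e1)
      rw [pai] at this
      exact this.symm
    · refine h4.relabel (⇑b⁻¹) (b⁻¹).injective ?_
      intro v
      by_cases h : v = z
      · subst h; rw [update_self, e1, update_self]
      · have : b⁻¹ v ≠ z := by
          intro h'; rw [Perm.inv_eq_iff_eq, e2] at h'; exact h h'
        rw [update_of_ne h, update_of_ne this, pai]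
        exact Sym2.eq_swap
  · rintro ⟨b, y, p⟩ _
    simp
  · rintro ⟨b, y, p⟩ _
    simp
  · rintro ⟨b, y, p⟩ ha h
    simp only [JS, mem_filter, mem_univ, true_and] at ha h
    obtain ⟨⟨h1, h2, h4, h5⟩, e1⟩ := ha
    have e2 := hinvz b e1
    rw [e1] at h1 h5
    obtain ⟨v, hv, -⟩ := exists_third h3 z z
    have hbz : b v ≠ z := by
      intro h'; apply hv; rw [← e1, ← h', pia]
    have a1 := h2 v hbz
    refine h5.not_two_cycle (v := v) (by rw [update_of_ne hv]; exact a1.ne') ?_
    rw [update_of_ne hv, update_of_ne hbz]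
    have hx : b⁻¹ (b v) = b (b v) := by rw [h]
    rw [pia] at hx
    exact hx.symm
  · intro b
    by_cases hb : b z = z ∧ ∀ v, b v ≠ z → G.Adj v (b v)
    · have hbi : b⁻¹ z = z := by rw [Perm.inv_eq_iff_eq, hb.1]
      have := even_UC G b z
      convert this using 1
      refine Finset.card_nbij' (fun a => update a.2.2 z a.2.1)
        (fun p => (b, p z, update p z z)) ?_ ?_ ?_ ?_
      · rintro ⟨b', y, p⟩ ha
        simp only [JS, mem_filter, mem_univ, true_and, mem_coe] at ha ⊢
        obtain ⟨⟨⟨h1, h2, h4, h5⟩, e1⟩, e3⟩ := ha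
        subst e3
        rw [e1] at h1 h5
        refine ⟨?_, ?_⟩
        · intro v
          by_cases hv : v = z
          · subst hv; rw [update_self]; exact ⟨fun _ => h1, fun h => absurd (mem_univ _) h⟩
          · rw [update_of_ne hv]
            exact ⟨fun _ => (h4 v).1 (by simpa using hv), fun h => absurd (mem_univ _) h⟩
        · refine DjF.perm h5 (swap (Sum.inl z) (Sum.inr z)) fun i => ?_
          have e : update (⇑b') z z = b' := update_eq_self_iff.2 hb.1.symm
          rw [← fam_swap, update_self, update_idem, (h4 z).2 (by simp), e]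
      · intro p ha
        simp only [JS, mem_filter, mem_univ, true_and, mem_coe] at ha ⊢
        obtain ⟨h1, h4⟩ := ha
        rw [hbi]
        refine ⟨⟨⟨(h1 z).1 (mem_univ _), hb.2, ?_, ?_⟩, rfl⟩, trivial⟩
        · intro v
          by_cases hv : v = z
          · subst hv; rw [update_self]
            exact ⟨fun h => absurd h (by simp), fun _ => rfl⟩
          · rw [update_of_ne hv]
            exact ⟨fun _ => (h1 v).1 (mem_univ _), fun h => absurd hv (by simpa using h)⟩
        · have h5 := DjF.perm (F' := fam (update (⇑b) z (p z)) (update p z (b z))) h4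
            (swap (Sum.inl z) (Sum.inr z)) (fun i => fam_swap _ _ _ _)
          rw [hb.1] at h5
          exact h5
      · rintro ⟨b', y, p⟩ ha
        simp only [JS, mem_filter, mem_univ, true_and, mem_coe] at ha ⊢
        obtain ⟨⟨⟨h1, h2, h4, h5⟩, e1⟩, e3⟩ := ha
        subst e3
        simp only [update_self, update_idem, Prod.mk.injEq, true_and]
        exact update_eq_self_iff.2 ((h4 z).2 (by simp)).symm
      · intro p _
        simp
    · suffices key : (((JS G z).filter fun a => a.1⁻¹ z = z).filter fun a => a.1 = b) = ∅ by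
        have h0 := congrArg Finset.card key
        rw [Finset.card_empty] at h0
        refine ⟨0, ?_⟩
        convert h0
      rw [Finset.filter_eq_empty_iff]
      rintro ⟨b', y, p⟩ ha
      simp only [JS, mem_filter, mem_univ, true_and] at ha ⊢
      rintro rfl
      obtain ⟨⟨h1, h2, h4, h5⟩, e1⟩ := ha
      exact hb ⟨hinvz _ e1, h2⟩

theorem four_dvd_JS (G : SimpleGraph W) (h3 : 3 ≤ Fintype.card W) (z : W) :
    4 ∣ (JS G z).card := by
  rw [Finset.card_eq_sum_card_fiberwise (f := fun a => a.1⁻¹ z) (t := univ)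
    (fun a _ => mem_coe.2 (mem_univ _))]
  refine Finset.dvd_sum fun v0 _ => ?_
  by_cases h : v0 = z
  · subst h; exact fib_eq G h3 _
  · exact fib_ne G h3 z v0 h

end Pool.Agent.Helper52.LP
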