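import Pool.Agent.Helper52.LP.F

/-! # Closed permutations modulo 4, and full cycles -/

namespace Pool.Agent.Helper52.LP

open Finset Function Equiv
open scoped Classical

variable {W : Type} [Fintype W] [DecidableEq W]

theorem flip_sc_eq (z : W) (b : Perm W) {v : W} (h : b.SameCycle z v) : flip z b v = b v := by
  rw [flip_apply, if_pos h]

theorem flip_nsc_eq (z : W) (b : Perm W) {v : W} (h : ¬ b.SameCycle z v) :
    flip z b v = b⁻¹ v := by
  rw [flip_apply, if_neg h]

theorem J2_flip (G : SimpleGraph W) (z : W) :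
    Even ((JS G z).filter fun a => a.2.1 ≠ z ∧ ¬ a.1.SameCycle z a.2.1).card := by
  refine even_card_of_inv _ (fun a => (flip z a.1, a.2.1, a.2.2)) ?_ ?_ ?_
  · rintro ⟨b, y, p⟩ ha
    simp only [JS, mem_filter, mem_univ, true_and] at ha ⊢
    obtain ⟨⟨h1, h2, h3, h4⟩, hy, hsc⟩ := ha
    have hv0 : (flip z b)⁻¹ z = b⁻¹ z := by
      rw [flip_inv_apply, if_pos (Perm.SameCycle.refl _ _)]
    have hv0sc : b.SameCycle z (b⁻¹ z) := (sc_inv_right _ _ _).2 (Perm.SameCycle.refl _ _)
    rw [hv0]
    refine ⟨⟨h1, ?_, h3, ?_⟩, hy, by rw [flip_sc]; exact hsc⟩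
    · intro v hv
      by_cases h : b.SameCycle z v
      · rw [flip_sc_eq z b h] at hv ⊢
        exact h2 v hv
      · rw [flip_nsc_eq z b h] at hv ⊢
        have := h2 (b⁻¹ v) (by rw [pai]; rintro rfl; exact h (Perm.SameCycle.refl _ _))
        rw [pai] at this
        exact this.symm
    · refine h4.relabel (offp z b) (offp_inj z b) ?_
      intro v
      by_cases h : b.SameCycle z v
      · simp only [offp, if_pos h]
        by_cases hv : v = b⁻¹ z
        · rw [hv, update_self, update_self]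
        · rw [update_of_ne hv, update_of_ne hv, flip_sc_eq z b h]
      · simp only [offp, if_neg h]
        have h' : ¬ b.SameCycle z (b⁻¹ v) := fun h'' => h ((sc_inv_right _ _ _).1 h'')
        have hv : v ≠ b⁻¹ z := by rintro rfl; exact h hv0sc
        have hv' : b⁻¹ v ≠ b⁻¹ z := by intro h''; rw [h''] at h'; exact h' hv0sc
        rw [update_of_ne hv, update_of_ne hv', flip_nsc_eq z b h, pai]
        exact Sym2.eq_swap
  · rintro ⟨b, y, p⟩ _
    simp only [flip_flip]
  · rintro ⟨b, y, p⟩ ha h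
    simp only [JS, mem_filter, mem_univ, true_and, Prod.mk.injEq, and_true] at ha h
    obtain ⟨⟨h1, h2, h3, h4⟩, hy, hsc⟩ := ha
    have hv0sc : b.SameCycle z (b⁻¹ z) := (sc_inv_right _ _ _).2 (Perm.SameCycle.refl _ _)
    have hsc' : ¬ b.SameCycle z (b y) := fun h => hsc (Perm.sameCycle_apply_right.1 h)
    have hyv : y ≠ b⁻¹ z := by rintro rfl; exact hsc hv0sc
    have hyv' : b y ≠ b⁻¹ z := by intro h''; rw [h''] at hsc'; exact hsc' hv0sc
    have hbz : b y ≠ z := by intro h''; rw [h''] at hsc'; exact hsc' (Perm.SameCycle.refl _ _)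
    have a1 := h2 y hbz
    refine h4.not_two_cycle (v := y) (by rw [update_of_ne hyv]; exact a1.ne') ?_
    rw [update_of_ne hyv, update_of_ne hyv']
    have e : b⁻¹ (b y) = b (b y) := by
      rw [← flip_nsc_eq z b hsc', h]
    rw [pia] at e
    exact e.symm

/-- the swap which merges or splits -/
theorem swap_eq (b : Perm W) (z y : W) : b * swap (b⁻¹ z) (b⁻¹ y) = swap z y * b := by
  ext v
  rw [Perm.mul_apply, Perm.mul_apply]
  by_cases h : v = b⁻¹ z
  · subst h; rw [swap_apply_left, pai, pai, swap_apply_left]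
  · by_cases h' : v = b⁻¹ y
    · subst h'; rw [swap_apply_right, pai, pai, swap_apply_right]
    · rw [swap_apply_of_ne_of_ne h h', swap_apply_of_ne_of_ne]
      · rintro rfl; exact h (pia _ _).symm
      · rintro rfl; exact h' (pia _ _).symm

theorem J2_swap_mem (G : SimpleGraph W) (z : W) (a : Perm W × W × (W → W)) (ha : a ∈ JS G z)
    (hy : a.2.1 ≠ z) : (swap z a.2.1 * a.1, a.2.1, a.2.2) ∈ JS G z := by
  obtain ⟨b, y, p⟩ := a
  simp only at hy
  simp only [JS, mem_filter, mem_univ, true_and] at ha ⊢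
  obtain ⟨h1, h2, h3, h4⟩ := ha
  have hv01 : b⁻¹ z ≠ b⁻¹ y := fun h => hy (b⁻¹.injective h).symm
  have hb' : (swap z y * b)⁻¹ z = b⁻¹ y := by
    rw [Perm.inv_eq_iff_eq, Perm.mul_apply, pai, swap_apply_right]
  rw [hb']
  refine ⟨?_, ?_, h3, ?_⟩
  · have := h2 (b⁻¹ y) (by rw [pai]; exact hy)
    rwa [pai] at this
  · intro v hv
    rw [Perm.mul_apply] at hv ⊢
    by_cases hv0 : b v = z
    · rw [hv0, swap_apply_left]
      rw [← hv0, pia] at h1
      exact h1
    · by_cases hv1 : b v = y
      · rw [hv1, swap_apply_right] at hv; exact absurd rfl hv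
      · rw [swap_apply_of_ne_of_ne hv0 hv1]
        exact h2 v hv0
  · have e : update (⇑(swap z y * b)) (b⁻¹ y) y = update (⇑b) (b⁻¹ z) y := by
      funext v
      by_cases hv1 : v = b⁻¹ y
      · subst hv1
        rw [update_self, update_of_ne hv01.symm, pai]
      · rw [update_of_ne hv1, Perm.mul_apply]
        by_cases hv0 : v = b⁻¹ z
        · subst hv0
          rw [update_self, pai, swap_apply_left]
        · rw [update_of_ne hv0, swap_apply_of_ne_of_ne]
          · rintro rfl; exact hv0 (pia _ _).symm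
          · rintro rfl; exact hv1 (pia _ _).symm
    rw [e]; exact h4

theorem four_dvd_J2 (G : SimpleGraph W) (z : W) :
    4 ∣ ((JS G z).filter fun a => a.2.1 ≠ z).card := by
  have h1 := J2_flip G z
  have h2 : ((JS G z).filter fun a => a.2.1 ≠ z ∧ a.1.SameCycle z a.2.1).card
      = ((JS G z).filter fun a => a.2.1 ≠ z ∧ ¬ a.1.SameCycle z a.2.1).card := by
    have hinv : ∀ (z y : W) (b : Perm W), swap z y * (swap z y * b) = b := by
      intro z y b; rw [← mul_assoc, swap_mul_self, one_mul]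
    refine Finset.card_nbij' (fun a => (swap z a.2.1 * a.1, a.2.1, a.2.2))
      (fun a => (swap z a.2.1 * a.1, a.2.1, a.2.2)) ?_ ?_ ?_ ?_
    · intro a ha
      rw [mem_coe, mem_filter] at ha ⊢
      exact ⟨J2_swap_mem G z a ha.1 ha.2.1, ha.2.1, split ha.2.1.symm ha.2.2⟩
    · intro a ha
      rw [mem_coe, mem_filter] at ha ⊢
      exact ⟨J2_swap_mem G z a ha.1 ha.2.1, ha.2.1, merge ha.2.2⟩
    · rintro ⟨b, y, p⟩ _
      simp only [hinv]
    · rintro ⟨b, y, p⟩ _
      simp only [hinv]
  have h3 : ((JS G z).filter fun a => a.2.1 ≠ z).card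
      = ((JS G z).filter fun a => a.2.1 ≠ z ∧ a.1.SameCycle z a.2.1).card
        + ((JS G z).filter fun a => a.2.1 ≠ z ∧ ¬ a.1.SameCycle z a.2.1).card := by
    rw [← Finset.card_filter_add_card_filter_not (fun a => a.1.SameCycle z a.2.1)
      (s := (JS G z).filter fun a => a.2.1 ≠ z), filter_filter, filter_filter]
  rw [h3, h2]
  obtain ⟨r, hr⟩ := h1
  rw [hr]
  exact ⟨r, by ring⟩

theorem four_dvd_QT (G : SimpleGraph W) (h3 : 3 ≤ Fintype.card W) (z : W) :
    4 ∣ (QT G z).card := by
  have h1 := four_dvd_JS G h3 z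
  have h2 := four_dvd_J2 G z
  have h4 : (QT G z).card = ((JS G z).filter fun a => a.2.1 = z).card := by
    refine Finset.card_nbij' (fun a => (a.1, z, a.2)) (fun a => (a.1, a.2.2)) ?_ ?_ ?_ ?_
    · rintro ⟨b, p⟩ ha
      simp only [JS, QT, mem_filter, mem_univ, true_and, mem_coe] at ha ⊢
      obtain ⟨h1, h2, h3⟩ := ha
      refine ⟨⟨?_, fun v _ => h1 v, h2, ?_⟩, trivial⟩
      · have := h1 (b⁻¹ z)
        rwa [pai] at this
      · have : update (⇑b) (b⁻¹ z) z = b := update_eq_self_iff.2 (pai _ _).symm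
        rw [this]; exact h3
    · rintro ⟨b, y, p⟩ ha
      simp only [JS, QT, mem_filter, mem_univ, true_and, mem_coe] at ha ⊢
      obtain ⟨⟨h1, h2, h3, h4⟩, rfl⟩ := ha
      refine ⟨?_, h3, ?_⟩
      · intro v
        by_cases hv : b v = y
        · rw [hv]; rw [← hv, pia, hv] at h1; exact h1
        · exact h2 v hv
      · have : update (⇑b) (b⁻¹ y) y = b := update_eq_self_iff.2 (pai _ _).symm
        rw [this] at h4; exact h4
    · rintro ⟨b, p⟩ _; rfl
    · rintro ⟨b, y, p⟩ ha
      rw [mem_coe, mem_filter] at ha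
      obtain ⟨_, hy⟩ := ha
      simp only at hy
      subst hy; rfl
  rw [← Finset.card_filter_add_card_filter_not (fun a => a.2.1 = z) (s := JS G z), ← h4] at h1
  exact (Nat.dvd_add_left h2).1 h1

/-- the full cycle version, fixed ends -/
theorem even_KTf (G : SimpleGraph W) (s t : W) (hst : s ≠ t) (h3 : 3 ≤ Fintype.card W)
    (D : Finset W) (hD : ∀ v, v ≠ s → v ≠ t → v ∈ D) :
    Even ((KT G s t D).filter fun a => ∀ v, a.1.SameCycle t v).card := by
  have h1 := even_KT G s t hst h3 D hD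
  rw [← Finset.card_filter_add_card_filter_not (fun a => ∀ v, a.1.SameCycle t v)] at h1
  refine (Nat.even_add.1 h1).2 ?_
  refine even_card_of_inv _ (fun a => (flip t a.1, a.2)) ?_ ?_ ?_
  · rintro ⟨b, p⟩ ha
    simp only [KT, mem_filter, mem_univ, true_and] at ha ⊢
    obtain ⟨⟨h1, h2, h3, h4⟩, h5⟩ := ha
    refine ⟨⟨by rw [flip_sc_eq _ _ (Perm.SameCycle.refl _ _), h1], ?_, h3, ?_⟩, ?_⟩
    · intro v hv
      by_cases h : b.SameCycle t v
      · rw [flip_sc_eq t b h]
        exact h2 v hv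
      · rw [flip_nsc_eq t b h]
        have := h2 (b⁻¹ v) (fun h' => h ((sc_inv_right _ _ _).1 (by rw [h'])))
        rw [pai] at this
        exact this.symm
    · refine h4.relabel (offp t b) (offp_inj t b) ?_
      intro v
      by_cases h : b.SameCycle t v
      · simp only [offp, if_pos h]
        by_cases hv : v = t
        · rw [hv, update_self, update_self]
        · rw [update_of_ne hv, update_of_ne hv, flip_sc_eq t b h]
      · simp only [offp, if_neg h]
        have h' : ¬ b.SameCycle t (b⁻¹ v) := fun h'' => h ((sc_inv_right _ _ _).1 h'')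
        have hv : v ≠ t := by rintro rfl; exact h (Perm.SameCycle.refl _ _)
        have hv' : b⁻¹ v ≠ t := by intro h''; rw [h''] at h'; exact h' (Perm.SameCycle.refl _ _)
        rw [update_of_ne hv, update_of_ne hv', flip_nsc_eq t b h, pai]
        exact Sym2.eq_swap
    · intro h; apply h5; intro v; rw [← flip_sc]; exact h v
  · rintro ⟨b, p⟩ _
    simp only [flip_flip]
  · rintro ⟨b, p⟩ ha h
    simp only [KT, mem_filter, mem_univ, true_and, Prod.mk.injEq, and_true, not_forall] at ha h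
    obtain ⟨⟨h1, h2, h3, h4⟩, v, hsc⟩ := ha
    have hsc' : ¬ b.SameCycle t (b v) := fun h => hsc (Perm.sameCycle_apply_right.1 h)
    have hvt : v ≠ t := by rintro rfl; exact hsc (Perm.SameCycle.refl _ _)
    have hvt' : b v ≠ t := by intro h''; rw [h''] at hsc'; exact hsc' (Perm.SameCycle.refl _ _)
    have a1 := h2 v hvt
    refine h4.not_two_cycle (v := v) (by rw [update_of_ne hvt]; exact a1.ne') ?_
    rw [update_of_ne hvt, update_of_ne hvt']
    have e : b⁻¹ (b v) = b (b v) := by
      rw [← flip_nsc_eq t b hsc', h]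
    rw [pia] at e
    exact e.symm

/-- the full cycle version, closed -/
theorem four_dvd_QTf (G : SimpleGraph W) (h3 : 3 ≤ Fintype.card W) (z : W) :
    4 ∣ ((QT G z).filter fun a => ∀ v, a.1.SameCycle z v).card := by
  have h1 := four_dvd_QT G h3 z
  rw [← Finset.card_filter_add_card_filter_not (fun a => ∀ v, a.1.SameCycle z v)] at h1
  refine (Nat.dvd_add_left ?_).1 h1
  refine four_dvd_card _ (fun a => (a.1⁻¹, a.2)) ?_ ?_ (fun a => (a.1 z, a.1⁻¹ z)) Prod.swap
    (fun y => Prod.swap_swap y) ?_ ?_ ?_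
  · rintro ⟨b, p⟩ ha
    simp only [QT, mem_filter, mem_univ, true_and] at ha ⊢
    obtain ⟨⟨h1, h2, h3⟩, h5⟩ := ha
    refine ⟨⟨?_, h2, ?_⟩, ?_⟩
    · intro v
      have := h1 (b⁻¹ v)
      rw [pai] at this; exact this.symm
    · refine h3.relabel (⇑b⁻¹) (b⁻¹).injective ?_
      intro v
      rw [pai]; exact Sym2.eq_swap
    · intro h; apply h5; intro v; rw [← Perm.sameCycle_inv]; exact h v
  · rintro ⟨b, p⟩ _; simp
  · rintro ⟨b, p⟩ _; simp
  · rintro ⟨b, p⟩ ha h
    simp only [QT, mem_filter, mem_univ, true_and, Prod.swap_prod_mk, Prod.mk.injEq] at ha h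
    obtain ⟨⟨h1, h2, h3⟩, h5⟩ := ha
    refine h3.not_two_cycle (v := z) (h1 z).ne' ?_
    rw [← h.1, pai]
  · rintro ⟨x, x'⟩
    rw [filter_filter]
    refine even_card_of_inv _ (fun a => (flip z a.1, a.2)) ?_ ?_ ?_
    · rintro ⟨b, p⟩ ha
      simp only [QT, mem_filter, mem_univ, true_and, Prod.mk.injEq] at ha ⊢
      obtain ⟨⟨h1, h2, h3⟩, h5, h6, h7⟩ := ha
      refine ⟨⟨?_, h2, ?_⟩, ?_, ?_, ?_⟩
      · intro v
        by_cases h : b.SameCycle z v
        · rw [flip_sc_eq z b h]
          exact h1 v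
        · rw [flip_nsc_eq z b h]
          have := h1 (b⁻¹ v)
          rw [pai] at this
          exact this.symm
      · refine h3.relabel (offp z b) (offp_inj z b) ?_
        intro v
        by_cases h : b.SameCycle z v
        · simp only [offp, if_pos h]
          rw [flip_sc_eq z b h]
        · simp only [offp, if_neg h]
          rw [flip_nsc_eq z b h, pai]
          exact Sym2.eq_swap
      · intro h; apply h5; intro v; rw [← flip_sc]; exact h v
      · rw [flip_sc_eq _ _ (Perm.SameCycle.refl _ _), h6]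
      · rw [flip_inv_apply, if_pos (Perm.SameCycle.refl _ _), h7]
    · rintro ⟨b, p⟩ _
      simp only [flip_flip]
    · rintro ⟨b, p⟩ ha h
      simp only [QT, mem_filter, mem_univ, true_and, Prod.mk.injEq, and_true, not_forall] at ha h
      obtain ⟨⟨h1, h2, h3⟩, ⟨v, hsc⟩, -⟩ := ha
      have hsc' : ¬ b.SameCycle z (b v) := fun h => hsc (Perm.sameCycle_apply_right.1 h)
      refine h3.not_two_cycle (v := v) (h1 v).ne' ?_
      have e : b⁻¹ (b v) = b (b v) := by
        rw [← flip_nsc_eq z b hsc', h]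
      rw [pia] at e
      exact e.symm

end Pool.Agent.Helper52.LP
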