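import Pool.Agent.Helper52.LP.G

/-! # Matchings and choice functions without 2-cycles -/

namespace Pool.Agent.Helper52.LP

open Finset Function Equiv
open scoped Classical

variable {V : Type} [Fintype V] [DecidableEq V]

/-- choices of a neighbour (or of the vertex itself, if marked) without 2-cycles -/
noncomputable def PCh (R : SimpleGraph V) (Mk : Finset V) : Finset (V → V) :=
  univ.filter fun p => (∀ v, R.Adj v (p v) ∨ (p v = v ∧ v ∈ Mk)) ∧ ∀ v, p v ≠ v → p (p v) ≠ v

/-- matchings, as involutions -/
noncomputable def Inv (R : SimpleGraph V) : Finset (V → V) :=
  univ.filter fun σ => (∀ v, σ (σ v) = v) ∧ ∀ v, σ v ≠ v → R.Adj v (σ v)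

noncomputable def al (R : SimpleGraph V) (Mk : Finset V) (v : V) : Finset V :=
  univ.filter fun w => R.Adj v w ∨ (w = v ∧ v ∈ Mk)

noncomputable def dg (R : SimpleGraph V) (v : V) : ℕ := (univ.filter fun w => R.Adj v w).card

theorem card_al (R : SimpleGraph V) (Mk : Finset V) (v : V) :
    (al R Mk v).card = dg R v + if v ∈ Mk then 1 else 0 := by
  unfold al dg
  by_cases h : v ∈ Mk
  · rw [if_pos h, ← Finset.card_singleton v, ← Finset.card_union_of_disjoint]
    · congr 1
      ext w
      simp [h, or_comm]
    · rw [Finset.disjoint_singleton_right]
      simp
  · rw [if_neg h]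
    congr 1
    ext w
    simp [h]

theorem pch_inv (R : SimpleGraph V) (Mk : Finset V) (hodd : ∀ v, Odd (al R Mk v).card) :
    ((PCh R Mk).card : ZMod 2) = (Inv R).card := by
  set P : Finset ((V → V) × (V → V)) := univ.filter fun x => x.1 ∈ Inv R ∧
    (∀ v, x.2 v ∈ al R Mk v) ∧ (∀ v, x.1 v ≠ v → x.2 v = x.1 v) with hP
  have h1 : (P.card : ZMod 2) = (Inv R).card := by
    rw [Finset.card_eq_sum_card_fiberwise (f := fun x => x.1) (t := Inv R)
      (fun x hx => by
        have := mem_coe.1 hx
        simp only [hP, mem_filter, mem_univ, true_and] at this
        exact mem_coe.2 this.1)]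
    rw [Nat.cast_sum, Finset.card_eq_sum_ones (Inv R), Nat.cast_sum]
    refine Finset.sum_congr rfl fun σ hσ => ?_
    have e : (P.filter fun x => x.1 = σ).card
        = ∏ v, (if σ v ≠ v then ({σ v} : Finset V) else al R Mk v).card := by
      rw [← Fintype.card_piFinset]
      refine Finset.card_nbij' (fun x => x.2) (fun p => (σ, p)) ?_ ?_ ?_ ?_
      · rintro ⟨σ', p⟩ hx
        simp only [hP, mem_filter, mem_univ, true_and, mem_coe] at hx
        obtain ⟨⟨h1, h2, h3⟩, rfl⟩ := hx
        rw [mem_coe, Fintype.mem_piFinset]
        intro v
        by_cases h : σ' v = v
        · rw [if_neg (not_not.2 h)]; exact h2 v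
        · rw [if_pos h, mem_singleton]; exact h3 v h
      · intro p hp
        rw [mem_coe, Fintype.mem_piFinset] at hp
        simp only [hP, mem_filter, mem_univ, true_and, mem_coe]
        refine ⟨⟨hσ, ?_, ?_⟩, trivial⟩
        · intro v
          have := hp v
          by_cases h : σ v = v
          · rwa [if_neg (not_not.2 h)] at this
          · rw [if_pos h, mem_singleton] at this
            rw [this]
            simp only [Inv, mem_filter, mem_univ, true_and] at hσ
            simp only [al, mem_filter, mem_univ, true_and]
            exact Or.inl (hσ.2 v h)
        · intro v h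
          have := hp v
          rwa [if_pos h, mem_singleton] at this
      · rintro ⟨σ', p⟩ hx
        rw [mem_coe, mem_filter] at hx
        rw [← hx.2]
      · intro p _; rfl
    have ho : Odd (P.filter fun x => x.1 = σ).card := by
      rw [e]
      refine Finset.prod_induction _ Odd (fun a b => Odd.mul) odd_one ?_
      intro v _
      split_ifs
      · simp
      · exact hodd v
    have := (ZMod.natCast_eq_one_iff_odd).2 ho
    simpa using this
  have h2 : (P.card : ZMod 2) = (PCh R Mk).card := by
    rw [Finset.card_eq_sum_card_fiberwise (f := fun x => x.2)
      (t := univ.filter fun p : V → V => ∀ v, p v ∈ al R Mk v)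
      (fun x hx => by
        have := mem_coe.1 hx
        simp only [hP, mem_filter, mem_univ, true_and] at this
        exact mem_coe.2 (mem_filter.2 ⟨mem_univ _, this.2.1⟩))]
    have e : PCh R Mk = (univ.filter fun p : V → V => ∀ v, p v ∈ al R Mk v).filter
        fun p => ∀ v, p v ≠ v → p (p v) ≠ v := by
      ext p
      simp only [PCh, al, mem_filter, mem_univ, true_and]
    rw [e, Finset.card_filter, Nat.cast_sum, Nat.cast_sum]
    refine Finset.sum_congr rfl fun p hp => ?_
    simp only [mem_filter, mem_univ, true_and] at hp
    by_cases hno : ∀ v, p v ≠ v → p (p v) ≠ v
    · rw [if_pos hno]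
      congr 1
      rw [Finset.card_eq_one]
      refine ⟨(id, p), ?_⟩
      ext ⟨σ, p'⟩
      simp only [hP, Inv, mem_filter, mem_univ, true_and, mem_singleton, Prod.mk.injEq]
      constructor
      · rintro ⟨⟨⟨h1, h2⟩, h3, h4⟩, rfl⟩
        refine ⟨?_, rfl⟩
        funext v
        by_contra hv
        have hv' : σ v ≠ v := hv
        have a1 := h4 v hv'
        have a2 := h4 (σ v) (by rw [h1]; exact hv'.symm)
        refine hno v (by rw [a1]; exact hv') ?_
        rw [a1, a2, h1]
      · rintro ⟨rfl, rfl⟩
        exact ⟨⟨⟨fun v => rfl, fun v h => absurd rfl h⟩, hp, fun v h => absurd rfl h⟩, rfl⟩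
    · rw [if_neg hno]
      push Not at hno
      obtain ⟨v0, hv0, hw0⟩ := hno
      have hR : R.Adj v0 (p v0) := by
        have := hp v0
        simp only [al, mem_filter, mem_univ, true_and] at this
        rcases this with h | h
        · exact h
        · exact absurd h.1 hv0
      have hev : Even (P.filter fun x => x.2 = p).card := by
        refine even_card_of_inv _ (fun x => (fun v => x.1 (swap v0 (p v0) v), x.2)) ?_ ?_ ?_
        · rintro ⟨σ, p'⟩ hx
          simp only [hP, Inv, mem_filter, mem_univ, true_and] at hx ⊢
          obtain ⟨⟨⟨h1, h2⟩, h3, h4⟩, rfl⟩ := hx
          -- `σ` preserves `{v0, p v0}`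
          have c0 : σ v0 = v0 ∨ σ v0 = p' v0 := by
            by_cases h : σ v0 = v0
            · exact Or.inl h
            · exact Or.inr (h4 v0 h).symm
          have c1 : (σ v0 = v0 ∧ σ (p' v0) = p' v0) ∨ (σ v0 = p' v0 ∧ σ (p' v0) = v0) := by
            rcases c0 with h | h
            · left
              refine ⟨h, ?_⟩
              by_contra h'
              have := h4 (p' v0) h'
              rw [hw0] at this
              have h5 := h1 (p' v0)
              rw [← this, h] at h5
              exact hv0 h5.symm
            · right
              refine ⟨h, ?_⟩
              rw [← h, h1]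
          have hother : ∀ v, v ≠ v0 → v ≠ p' v0 → σ v ≠ v0 ∧ σ v ≠ p' v0 := by
            intro v hv hv'
            constructor
            · intro h
              have := h1 v
              rw [h] at this
              rcases c1 with c | c
              · rw [c.1] at this; exact hv this.symm
              · rw [c.1] at this; exact hv' this.symm
            · intro h
              have := h1 v
              rw [h] at this
              rcases c1 with c | c
              · rw [c.2] at this; exact hv' this.symm
              · rw [c.2] at this; exact hv this.symm
          refine ⟨⟨⟨?_, ?_⟩, h3, ?_⟩, rfl⟩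
          · intro v
            by_cases hv : v = v0
            · subst hv
              rw [swap_apply_left]
              rcases c1 with c | c
              · rw [c.2, swap_apply_right, c.1]
              · rw [c.2, swap_apply_left, c.2]
            · by_cases hv' : v = p' v0
              · subst hv'
                rw [swap_apply_right]
                rcases c1 with c | c
                · rw [c.1, swap_apply_left, c.2]
                · rw [c.1, swap_apply_right, c.1]
              · rw [swap_apply_of_ne_of_ne hv hv',
                  swap_apply_of_ne_of_ne (hother v hv hv').1 (hother v hv hv').2, h1]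
          · intro v
            by_cases hv : v = v0
            · subst hv
              rw [swap_apply_left]
              rcases c1 with c | c
              · rw [c.2]; intro _; exact hR
              · rw [c.2]; intro h; exact absurd rfl h
            · by_cases hv' : v = p' v0
              · subst hv'
                rw [swap_apply_right]
                rcases c1 with c | c
                · rw [c.1]; intro _; exact hR.symm
                · rw [c.1]; intro h; exact absurd rfl h
              · rw [swap_apply_of_ne_of_ne hv hv']
                exact h2 v
          · intro v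
            by_cases hv : v = v0
            · subst hv
              rw [swap_apply_left]
              rcases c1 with c | c
              · rw [c.2]; intro _; rfl
              · rw [c.2]; intro h; exact absurd rfl h
            · by_cases hv' : v = p' v0
              · subst hv'
                rw [swap_apply_right]
                rcases c1 with c | c
                · rw [c.1]; intro _; exact hw0
                · rw [c.1]; intro h; exact absurd rfl h
              · rw [swap_apply_of_ne_of_ne hv hv']
                exact h4 v
        · rintro ⟨σ, p'⟩ _
          simp only [swap_apply_self]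
        · rintro ⟨σ, p'⟩ hx h
          simp only [hP, Inv, mem_filter, mem_univ, true_and, Prod.mk.injEq, and_true] at hx h
          obtain ⟨⟨⟨h1, h2⟩, h3, h4⟩, rfl⟩ := hx
          have h5 := congrFun h v0
          simp only [swap_apply_left] at h5
          have h6 := congrArg σ h5
          rw [h1, h1] at h6
          exact hv0 h6
      have := (ZMod.natCast_eq_zero_iff_even).2 hev
      rw [this]; simp
  rw [← h2, h1]

end Pool.Agent.Helper52.LP
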