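import Pool.Agent.Helper52.LP.H

/-! # Hamilton paths as pairs (full cycle, start), and the sum over matchings -/

namespace Pool.Agent.Helper52.LP

open Finset Function Equiv
open scoped Classical

variable {V : Type} [Fintype V] [DecidableEq V]

/-- directed Hamilton paths: a cyclic permutation and the start of the path -/
noncomputable def HP (G : SimpleGraph V) : Finset (Perm V × V) :=
  univ.filter fun x => (∀ v, x.1.SameCycle x.2 v) ∧ ∀ v, x.1 v ≠ x.2 → G.Adj v (x.1 v)

/-- `G` without the edges of the path -/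
def RG (G : SimpleGraph V) (x : Perm V × V) : SimpleGraph V where
  Adj a b := G.Adj a b ∧ ¬ (b = x.1 a ∧ b ≠ x.2) ∧ ¬ (a = x.1 b ∧ a ≠ x.2)
  symm := ⟨fun _ _ h => ⟨h.1.symm, h.2.2, h.2.1⟩⟩
  loopless := ⟨fun _ h => h.1.ne rfl⟩

/-- the reversed path -/
def rev (x : Perm V × V) : Perm V × V := (x.1⁻¹, x.1⁻¹ x.2)

theorem rev_rev (x : Perm V × V) : rev (rev x) = x := by
  obtain ⟨c, s⟩ := x
  simp only [rev, inv_inv, pai]

theorem rev_mem {G : SimpleGraph V} {x : Perm V × V} (hx : x ∈ HP G) : rev x ∈ HP G := by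
  obtain ⟨c, s⟩ := x
  simp only [HP, rev, mem_filter, mem_univ, true_and] at hx ⊢
  refine ⟨?_, ?_⟩
  · intro v
    rw [Perm.sameCycle_inv]
    exact ((sc_inv_right c v s).2 (hx.1 v).symm).symm
  · intro v hv
    have hvs : v ≠ s := fun h => hv (by rw [h])
    have := hx.2 (c⁻¹ v) (by rw [pai]; exact hvs)
    rw [pai] at this
    exact this.symm

theorem RG_rev (G : SimpleGraph V) (x : Perm V × V) : RG G (rev x) = RG G x := by
  obtain ⟨c, s⟩ := x
  ext a b
  simp only [RG, rev]
  have h1 : ∀ a b : V, (b = c⁻¹ a ∧ b ≠ c⁻¹ s) ↔ (a = c b ∧ a ≠ s) := by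
    intro a b
    constructor
    · rintro ⟨rfl, h⟩
      exact ⟨(pai _ _).symm, fun h' => h (by rw [h'])⟩
    · rintro ⟨rfl, h⟩
      refine ⟨(pia _ _).symm, fun h' => h ?_⟩
      rw [h', pai]
  rw [h1, h1]
  constructor
  · rintro ⟨h, h2, h3⟩; exact ⟨h, h3, h2⟩
  · rintro ⟨h, h2, h3⟩; exact ⟨h, h3, h2⟩

/-- a full cycle on at least three points has no 2-cycle -/
theorem full_no_two {W : Type} [Fintype W] [DecidableEq W] (c : Perm W) (z : W)
    (hf : ∀ v, c.SameCycle z v) (h3 : 3 ≤ Fintype.card W) (v : W) : c (c v) ≠ v := by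
  intro h
  obtain ⟨w, hw1, hw2⟩ := exists_third h3 v (c v)
  have hj : ∀ j : ℕ, (c ^ j) v = v ∨ (c ^ j) v = c v := by
    intro j
    induction j with
    | zero => exact Or.inl rfl
    | succ j ih =>
      rw [pow_succ', Perm.mul_apply]
      rcases ih with ih | ih
      · right; rw [ih]
      · left; rw [ih, h]
  have hs : c.SameCycle v w := (hf v).symm.trans (hf w)
  obtain ⟨j, hj'⟩ := hs.exists_nat_pow_eq
  rcases hj j with h' | h'
  · rw [hj'] at h'; exact hw1 h'
  · rw [hj'] at h'; exact hw2 h'

theorem full_ne {W : Type} [Fintype W] [DecidableEq W] (c : Perm W) (z : W)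
    (hf : ∀ v, c.SameCycle z v) (h3 : 3 ≤ Fintype.card W) (v : W) : c v ≠ v := by
  intro h
  apply full_no_two c z hf h3 v
  rw [h, h]

theorem dj_iff {W : Type} [Fintype W] [DecidableEq W] (q p : W → W) :
    Dj q p ↔ (∀ v w, v ≠ w → s(v, q v) = s(w, q w) → v = q v) ∧
      (∀ v w, s(v, q v) = s(w, p w) → v = q v) ∧
      (∀ v w, v ≠ w → s(v, p v) = s(w, p w) → v = p v) := by
  constructor
  · intro h
    refine ⟨?_, ?_, ?_⟩
    · intro v w hvw he
      have := h (Sum.inl v) (Sum.inl w) (by simpa using hvw) he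
      simpa [fam] using this
    · intro v w he
      have := h (Sum.inl v) (Sum.inr w) (by simp) he
      simpa [fam] using this
    · intro v w hvw he
      have := h (Sum.inr v) (Sum.inr w) (by simpa using hvw) he
      simpa [fam] using this
  · rintro ⟨h1, h2, h3⟩
    rintro (v | v) (w | w) hvw he
    · simp only [fam, Sum.elim_inl, Sym2.mk_isDiag_iff] at he ⊢
      exact h1 v w (by rintro rfl; exact hvw rfl) he
    · simp only [fam, Sum.elim_inl, Sum.elim_inr, Sym2.mk_isDiag_iff] at he ⊢
      exact h2 v w he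
    · simp only [fam, Sum.elim_inl, Sum.elim_inr, Sym2.mk_isDiag_iff] at he ⊢
      have := h2 w v he.symm
      have hd : (s(w, q w) : Sym2 W).IsDiag := by simpa using this
      rw [← he] at hd
      simpa using hd
    · simp only [fam, Sum.elim_inr, Sym2.mk_isDiag_iff] at he ⊢
      exact h3 v w (by rintro rfl; exact hvw rfl) he

/-- fixed ends: choices along a path are choices in the rest of the graph -/
theorem pch_odd_iff (G : SimpleGraph V) (h3 : 3 ≤ Fintype.card V) (c : Perm V) (s : V)
    (hx : (c, s) ∈ HP G) (p : V → V) :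
    p ∈ PCh (RG G (c, s)) {s, c⁻¹ s} ↔
      (∀ v, p v ≠ v → G.Adj v (p v)) ∧ (∀ v, p v = v → v = s ∨ v = c⁻¹ s) ∧
        Dj (update c (c⁻¹ s) (c⁻¹ s)) p := by
  simp only [HP, mem_filter, mem_univ, true_and] at hx
  obtain ⟨hf, hx⟩ := hx
  have hn2 := full_no_two c s hf h3
  have hn1 := full_ne c s hf h3
  simp only [PCh, mem_filter, mem_univ, true_and, mem_insert, mem_singleton, dj_iff, RG]
  constructor
  · rintro ⟨h1, h2⟩
    refine ⟨?_, ?_, ?_, ?_, ?_⟩
    · intro v hv
      rcases h1 v with h | h
      · exact h.1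
      · exact absurd h.1 hv
    · intro v hv
      rcases h1 v with h | h
      · exact absurd hv.symm h.1.ne
      · exact h.2
    · intro v w hvw he
      by_cases hv : v = c⁻¹ s
      · subst hv; rw [update_self]
      · by_cases hw : w = c⁻¹ s
        · subst hw
          rw [update_self, update_of_ne hv] at he
          have : (s(v, c v) : Sym2 V).IsDiag := by rw [he]; simp
          rw [Sym2.mk_isDiag_iff] at this
          exact absurd this.symm (hn1 v)
        · rw [update_of_ne hv, update_of_ne hw, Sym2.eq_iff] at he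
          rcases he with he | he
          · exact absurd he.1 hvw
          · exact absurd (by rw [he.2, ← he.1]) (hn2 v)
    · intro v w he
      by_cases hv : v = c⁻¹ s
      · subst hv; rw [update_self]
      · exfalso
        rw [update_of_ne hv] at he
        have hcv : c v ≠ s := fun h => hv (by rw [← h, pia])
        have hw : p w ≠ w := by
          intro h
          have : (s(v, c v) : Sym2 V).IsDiag := by rw [he, h]; simp
          rw [Sym2.mk_isDiag_iff] at this
          exact hn1 v this.symm
        rcases h1 w with h | h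
        · rw [Sym2.eq_iff] at he
          rcases he with ⟨rfl, e⟩ | ⟨e, e'⟩
          · exact h.2.1 ⟨e.symm, by rw [← e]; exact hcv⟩
          · exact h.2.2 ⟨by rw [← e, e'], by rw [← e']; exact hcv⟩
        · exact hw h.1
    · intro v w hvw he
      by_contra hv
      rw [Sym2.eq_iff] at he
      rcases he with he | he
      · exact hvw he.1
      · refine h2 v (fun h => hv h.symm) ?_
        rw [he.2, ← he.1]
  · rintro ⟨h1, h2, h4, h5, h6⟩
    refine ⟨?_, ?_⟩
    · intro v
      by_cases hv : p v = v
      · exact Or.inr ⟨hv, h2 v hv⟩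
      · refine Or.inl ⟨h1 v hv, ?_, ?_⟩
        · rintro ⟨e1, e2⟩
          have hvt : v ≠ c⁻¹ s := by
            intro h
            apply e2; rw [e1, h, pai]
          have := h5 v v (by rw [update_of_ne hvt, e1])
          rw [update_of_ne hvt] at this
          exact hn1 v this.symm
        · rintro ⟨e1, e2⟩
          have hvt : p v ≠ c⁻¹ s := by
            intro h
            apply e2; rw [e1, h, pai]
          have := h5 (p v) v (by rw [update_of_ne hvt, ← e1]; exact Sym2.eq_swap)
          rw [update_of_ne hvt] at this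
          exact hn1 _ this.symm
    · intro v hv hpp
      have := h6 v (p v) (fun h => hv h.symm) (by rw [hpp]; exact Sym2.eq_swap)
      exact hv this.symm

end Pool.Agent.Helper52.LP
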