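import Pool.Agent.Helper52.LP.I

/-! # The odd case -/

namespace Pool.Agent.Helper52.LP

open Finset Function Equiv
open scoped Classical

variable {V : Type} [Fintype V] [DecidableEq V]

theorem sum_card_eq {α β : Type*} [Fintype α] [Fintype β] [DecidableEq α] [DecidableEq β] (S : Finset α) (F : α → Finset β) :
    ∑ x ∈ S, (F x).card = (univ.filter fun a : α × β => a.1 ∈ S ∧ a.2 ∈ F a.1).card := by
  rw [Finset.card_eq_sum_card_fiberwise (f := fun a : α × β => a.1) (t := S)
    (fun a ha => by
      have := mem_coe.1 ha
      rw [mem_filter] at this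
      exact mem_coe.2 this.2.1)]
  refine Finset.sum_congr rfl fun x hx => ?_
  refine Finset.card_nbij' (fun b => (x, b)) (fun a => a.2) ?_ ?_ ?_ ?_
  · intro b hb
    rw [mem_coe, mem_filter, mem_filter]
    exact ⟨⟨mem_univ _, hx, hb⟩, rfl⟩
  · intro a ha
    rw [mem_coe, mem_filter, mem_filter] at ha
    rw [← ha.2]
    exact ha.1.2.2
  · intro b _; rfl
  · intro a ha
    rw [mem_coe, mem_filter, mem_filter] at ha
    rw [← ha.2]

theorem four_dvd_odd (G : SimpleGraph V) (h3 : 3 ≤ Fintype.card V) :
    4 ∣ ∑ x ∈ HP G, (PCh (RG G x) {x.2, x.1⁻¹ x.2}).card := by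
  rw [sum_card_eq]
  refine four_dvd_card _ (fun a => (rev a.1, a.2)) ?_ ?_
    (fun a => (a.1.2, a.1.1⁻¹ a.1.2, univ.filter fun v => a.2 v ≠ v))
    (fun y => (y.2.1, y.1, y.2.2)) (fun y => rfl) ?_ ?_ ?_
  · rintro ⟨x, p⟩ ha
    rw [mem_filter] at ha ⊢
    refine ⟨mem_univ _, rev_mem ha.2.1, ?_⟩
    have := ha.2.2
    have e := RG_rev G x
    rw [e]
    simp only [rev, inv_inv, pai] at this ⊢
    rw [Finset.pair_comm]
    exact this
  · rintro ⟨x, p⟩ _
    simp only [rev_rev]
  · rintro ⟨⟨c, s⟩, p⟩ _
    simp only [rev, inv_inv, pai]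
  · rintro ⟨⟨c, s⟩, p⟩ ha h
    rw [mem_filter] at ha
    simp only [Prod.mk.injEq] at h
    have hf := ha.2.1
    simp only [HP, mem_filter, mem_univ, true_and] at hf
    have := full_ne c s hf.1 h3 (c⁻¹ s)
    rw [pai] at this
    exact this h.2.1
  · rintro ⟨s, t, D⟩
    by_cases hst : s = t
    · refine ⟨0, ?_⟩
      simp only [add_zero]
      rw [Finset.card_eq_zero, Finset.filter_eq_empty_iff]
      rintro ⟨⟨c, s'⟩, p⟩ ha h
      rw [mem_filter] at ha
      simp only [Prod.mk.injEq] at h
      have hf := ha.2.1
      simp only [HP, mem_filter, mem_univ, true_and] at hf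
      have := full_ne c s' hf.1 h3 (c⁻¹ s')
      rw [pai] at this
      apply this
      rw [h.2.1, ← hst, h.1]
    · by_cases hD : ∀ v, v ≠ s → v ≠ t → v ∈ D
      · have := even_KTf G s t hst h3 D hD
        convert this using 1
        refine Finset.card_nbij' (fun a => (a.1.1, a.2)) (fun b => ((b.1, s), b.2)) ?_ ?_ ?_ ?_
        · rintro ⟨⟨c, s'⟩, p⟩ ha
          rw [mem_coe, mem_filter, mem_filter] at ha
          obtain ⟨⟨-, ha1, ha2⟩, hc⟩ := ha
          simp only [Prod.mk.injEq] at hc ha1 ha2
          obtain ⟨rfl, e2, e3⟩ := hc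
          rw [pch_odd_iff G h3 c s' ha1] at ha2
          obtain ⟨g1, g2, g3⟩ := ha2
          simp only [HP, mem_filter, mem_univ, true_and] at ha1
          simp only [KT, mem_coe, mem_filter, mem_univ, true_and]
          refine ⟨⟨by rw [← e2, pai], ?_, ?_, ?_⟩, ?_⟩
          · intro v hv
            refine ha1.2 v fun h => hv ?_
            rw [← e2, ← h, pia]
          · intro v
            rw [← e3]
            simp only [mem_filter, mem_univ, true_and, not_not]
            exact ⟨g1 v, fun h => h⟩
          · rw [← e2]; exact g3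
          · intro v
            have : c.SameCycle s' t := by
              rw [← e2]; exact (sc_inv_right _ _ _).2 (Perm.SameCycle.refl _ _)
            exact this.symm.trans (ha1.1 v)
        · rintro ⟨c, p⟩ ha
          simp only [KT, mem_coe, mem_filter, mem_univ, true_and] at ha
          obtain ⟨⟨h1, h2, h4, h5⟩, h6⟩ := ha
          have e2 : c⁻¹ s = t := by rw [← h1, pia]
          have hHP : (c, s) ∈ HP G := by
            simp only [HP, mem_filter, mem_univ, true_and]
            refine ⟨fun v => (h6 s).symm.trans (h6 v), ?_⟩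
            intro v hv
            exact h2 v (fun h => hv (by rw [h, h1]))
          rw [mem_coe, mem_filter, mem_filter]
          refine ⟨⟨mem_univ _, hHP, ?_⟩, ?_⟩
          · rw [pch_odd_iff G h3 c s hHP]
            refine ⟨?_, ?_, ?_⟩
            · intro v hv
              by_cases hvD : v ∈ D
              · exact (h4 v).1 hvD
              · exact absurd ((h4 v).2 hvD) hv
            · intro v hv
              by_cases hvD : v ∈ D
              · exact absurd hv.symm ((h4 v).1 hvD).ne
              · by_contra hc
                push Not at hc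
                rw [e2] at hc
                exact hvD (hD v hc.1 hc.2)
            · rw [e2]; exact h5
          · simp only [Prod.mk.injEq, true_and]
            refine ⟨e2, ?_⟩
            ext v
            simp only [mem_filter, mem_univ, true_and]
            by_cases hvD : v ∈ D
            · simp only [hvD, iff_true]
              exact ((h4 v).1 hvD).ne'
            · simp only [hvD, iff_false, not_not]
              exact (h4 v).2 hvD
        · rintro ⟨⟨c, s'⟩, p⟩ ha
          rw [mem_coe, mem_filter] at ha
          have := ha.2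
          simp only [Prod.mk.injEq] at this
          simp only [this.1]
        · rintro ⟨c, p⟩ _; rfl
      · refine ⟨0, ?_⟩
        simp only [add_zero]
        rw [Finset.card_eq_zero, Finset.filter_eq_empty_iff]
        rintro ⟨⟨c, s'⟩, p⟩ ha h
        rw [mem_filter] at ha
        obtain ⟨-, ha1, ha2⟩ := ha
        simp only [Prod.mk.injEq] at h ha1 ha2
        obtain ⟨rfl, e2, e3⟩ := h
        rw [pch_odd_iff G h3 c s' ha1] at ha2
        apply hD
        intro v hv hvt
        rw [← e3]
        simp only [mem_filter, mem_univ, true_and]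
        intro hp
        rcases ha2.2.1 v hp with h | h
        · exact hv h
        · rw [e2] at h; exact hvt h

end Pool.Agent.Helper52.LP
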