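import Pool.Agent.Helper52.LP.J

/-! # The even case: the cone over the graph -/

namespace Pool.Agent.Helper52.LP

open Finset Function Equiv
open scoped Classical

variable {V : Type} [Fintype V] [DecidableEq V]

/-- the cone -/
def cone (G : SimpleGraph V) : SimpleGraph (Option V) where
  Adj a b := match a, b with
    | none, none => False
    | none, some _ => True
    | some _, none => True
    | some a, some b => G.Adj a b
  symm := ⟨by rintro (_ | a) (_ | b) h <;> first | exact h | trivial | exact h.symm⟩
  loopless := ⟨by rintro (_ | a) h <;> first | exact h | exact h.ne rfl⟩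

/-- the closed permutation through the apex -/
def hat (c : Perm V) (s : V) : Perm (Option V) := Equiv.Perm.decomposeOption.symm (some s, c)

theorem hat_none (c : Perm V) (s : V) : hat c s none = some s := by
  simp [hat, Equiv.Perm.decomposeOption]

theorem hat_some (c : Perm V) (s : V) (v : V) :
    hat c s (some v) = if c v = s then none else some (c v) := by
  simp only [hat, Equiv.Perm.decomposeOption, Equiv.coe_fn_symm_mk, Perm.mul_apply,
    Equiv.optionCongr_apply, Option.map_some]
  split_ifs with h
  · rw [h, swap_apply_right]
  · rw [swap_apply_of_ne_of_ne (by simp) (by simpa using h)]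

theorem hat_surj (b : Perm (Option V)) (h : b none ≠ none) : ∃ c s, b = hat c s := by
  obtain ⟨s, hs⟩ := Option.ne_none_iff_exists'.1 h
  refine ⟨(Equiv.Perm.decomposeOption b).2, s, ?_⟩
  unfold hat
  rw [Equiv.eq_symm_apply]
  refine Prod.ext ?_ rfl
  simp [Equiv.Perm.decomposeOption, hs]

theorem hat_inj {c c' : Perm V} {s s' : V} (h : hat c s = hat c' s') : c = c' ∧ s = s' := by
  unfold hat at h
  have := Equiv.Perm.decomposeOption.symm.injective h
  simp only [Prod.mk.injEq, Option.some.injEq] at this
  exact ⟨this.2, this.1⟩

theorem hat_full (c : Perm V) (s : V) :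
    (∀ v, (hat c s).SameCycle none v) ↔ ∀ v, c.SameCycle s v := by
  constructor
  · intro h v
    have hn : ∀ n : ℕ, ((hat c s) ^ n) none = none ∨
        ∃ v, ((hat c s) ^ n) none = some v ∧ c.SameCycle s v := by
      intro n
      induction n with
      | zero => exact Or.inl rfl
      | succ n ih =>
        rw [pow_succ', Perm.mul_apply]
        rcases ih with h | ⟨v, h, hv⟩
        · right; rw [h, hat_none]; exact ⟨s, rfl, Perm.SameCycle.refl _ _⟩
        · rw [h, hat_some]
          split_ifs with h'
          · exact Or.inl rfl
          · exact Or.inr ⟨_, rfl, Perm.sameCycle_apply_right.2 hv⟩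
    obtain ⟨n, hn'⟩ := (h (some v)).exists_nat_pow_eq
    rcases hn n with h | ⟨v', h, hv⟩
    · rw [hn'] at h; exact absurd h (by simp)
    · rw [hn'] at h
      have := Option.some.inj h
      rw [this]; exact hv
  · intro h v
    have hs : (hat c s).SameCycle none (some s) := by
      have := (Perm.SameCycle.refl (hat c s) none)
      rw [← Perm.sameCycle_apply_right, hat_none] at this
      exact this
    have hn : ∀ n : ℕ, (hat c s).SameCycle none (some ((c ^ n) s)) := by
      intro n
      induction n with
      | zero => exact hs
      | succ n ih =>
        rw [pow_succ', Perm.mul_apply]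
        by_cases h' : c ((c ^ n) s) = s
        · rw [h']; exact hs
        · rw [← Perm.sameCycle_apply_right, hat_some, if_neg h'] at ih
          exact ih
    rcases v with _ | v
    · exact Perm.SameCycle.refl _ _
    · obtain ⟨n, hn'⟩ := (h v).exists_nat_pow_eq
      rw [← hn']; exact hn n

/-- choices in the cone -/
def hatp (p : V → V) : Option V → Option V
  | none => none
  | some v => if p v = v then none else some (p v)

theorem hatp_inj : Injective (hatp : (V → V) → _) := by
  intro p p' h
  funext v
  have := congrFun h (some v)
  simp only [hatp] at this
  split_ifs at this with h1 h2 h2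
  · rw [h1, h2]
  · exact Option.some.inj this

theorem dj_hat (G : SimpleGraph V) (h3 : 3 ≤ Fintype.card V) (c : Perm V) (s : V)
    (hf : ∀ v, c.SameCycle s v) (p : V → V) (hp : ∀ v, p v ≠ v → G.Adj v (p v)) :
    Dj (hat c s) (hatp p) ↔ p ∈ PCh (RG G (c, s)) ({s, c⁻¹ s}ᶜ) := by
  have hn2 := full_no_two c s hf h3
  have hn1 := full_ne c s hf h3
  have hF := (hat_full c s).2 hf
  have h4 : 3 ≤ Fintype.card (Option V) := by
    rw [Fintype.card_option]; omega
  have hN2 := full_no_two (hat c s) none hF h4
  have hN1 := full_ne (hat c s) none hF h4
  rw [dj_iff]
  simp only [PCh, mem_filter, mem_univ, true_and, mem_compl, mem_insert, mem_singleton, RG]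
  constructor
  · rintro ⟨h1, h2, h5⟩
    refine ⟨?_, ?_⟩
    · intro v
      by_cases hv : p v = v
      · refine Or.inr ⟨hv, ?_⟩
        rintro (rfl | h)
        · have := h2 none (some v) (by
            rw [hat_none]; simp only [hatp, if_pos hv]; exact Sym2.eq_swap)
          rw [hat_none] at this
          exact absurd this (by simp)
        · have := h2 (some v) (some v) (by
            rw [hat_some]; simp only [hatp, if_pos hv]; rw [if_pos]; rw [h, pai])
          rw [hat_some, if_pos (by rw [h, pai])] at this
          exact absurd this (by simp)
      · refine Or.inl ⟨hp v hv, ?_, ?_⟩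
        · rintro ⟨e1, e2⟩
          have := h2 (some v) (some v) (by
            rw [hat_some]; simp only [hatp, if_neg hv]; rw [if_neg, e1]; rw [← e1]; exact e2)
          exact hN1 _ this.symm
        · rintro ⟨e1, e2⟩
          have := h2 (some (p v)) (some v) (by
            rw [hat_some]; simp only [hatp, if_neg hv]; rw [if_neg, ← e1]
            · exact Sym2.eq_swap
            · rw [← e1]; exact e2)
          exact hN1 _ this.symm
    · intro v hv hpp
      have hv' : ¬ p (p v) = p v := by rw [hpp]; exact fun h => hv h.symm
      have := h5 (some v) (some (p v)) (by simpa using fun h => hv (Eq.symm h)) (by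
        simp only [hatp, if_neg hv, if_neg hv']
        rw [hpp]; exact Sym2.eq_swap)
      simp only [hatp, if_neg hv] at this
      exact hv (Option.some.inj this).symm
  · rintro ⟨h1, h2⟩
    refine ⟨?_, ?_, ?_⟩
    · intro v w hvw he
      rw [Sym2.eq_iff] at he
      rcases he with he | ⟨e1, e2⟩
      · exact absurd he.1 hvw
      · exact absurd (by rw [e2, ← e1]) (hN2 v)
    · intro v w he
      exfalso
      rcases w with _ | w
      · have : (s(v, hat c s v)).IsDiag := by rw [he]; simp [hatp]
        rw [Sym2.mk_isDiag_iff] at this
        exact hN1 _ this.symm
      · by_cases hw : p w = w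
        · simp only [hatp, if_pos hw] at he
          have hm : w ≠ s ∧ w ≠ c⁻¹ s := by
            rcases h1 w with h | h
            · rw [hw] at h; exact absurd rfl h.1.ne
            · exact ⟨fun h' => h.2 (Or.inl h'), fun h' => h.2 (Or.inr h')⟩
          rw [Sym2.eq_iff] at he
          rcases he with ⟨e1, e2⟩ | ⟨e1, e2⟩
          · rw [e1, hat_some] at e2
            split_ifs at e2 with h
            apply hm.2
            rw [← h, pia]
          · rw [e1, hat_none] at e2
            exact hm.1 (Option.some.inj e2).symm
        · simp only [hatp, if_neg hw] at he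
          have hm : ¬(p w = c w ∧ p w ≠ s) ∧ ¬(w = c (p w) ∧ w ≠ s) := by
            rcases h1 w with h | h
            · exact h.2
            · exact absurd h.1 hw
          rw [Sym2.eq_iff] at he
          rcases he with ⟨e1, e2⟩ | ⟨e1, e2⟩
          · rw [e1, hat_some] at e2
            split_ifs at e2 with h
            have e3 := Option.some.inj e2
            exact hm.1 ⟨e3.symm, by rw [← e3]; exact h⟩
          · rw [e1, hat_some] at e2
            split_ifs at e2 with h
            have e3 := Option.some.inj e2
            exact hm.2 ⟨e3.symm, by rw [← e3]; exact h⟩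
    · intro v w hvw he
      rcases v with _ | v
      · rfl
      · exfalso
        rcases w with _ | w
        · have : (s(some v, hatp p (some v))).IsDiag := by rw [he]; simp [hatp]
          rw [Sym2.mk_isDiag_iff] at this
          by_cases hv : p v = v
          · simp [hatp, hv] at this
          · simp only [hatp, if_neg hv] at this
            exact hv (Option.some.inj this).symm
        · rw [Sym2.eq_iff] at he
          rcases he with ⟨e1, e2⟩ | ⟨e1, e2⟩
          · exact hvw e1
          · by_cases hv : p v = v
            · simp only [hatp, if_pos hv] at e2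
              exact absurd e2 (by simp)
            · by_cases hw : p w = w
              · simp only [hatp, if_pos hw] at e1
                exact absurd e1 (by simp)
              · simp only [hatp, if_neg hv, if_neg hw] at e1 e2
                have e3 := Option.some.inj e1
                have e4 := Option.some.inj e2
                exact h2 v hv (by rw [e4, ← e3])

end Pool.Agent.Helper52.LP
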