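import Pool.Agent.Helper52.LP.K

/-! # The sum over matchings is divisible by four -/

namespace Pool.Agent.Helper52.LP

open Finset Function Equiv
open scoped Classical

variable {V : Type} [Fintype V] [DecidableEq V]

theorem four_dvd_even (G : SimpleGraph V) (h3 : 3 ≤ Fintype.card V) :
    4 ∣ ∑ x ∈ HP G, (PCh (RG G x) ({x.2, x.1⁻¹ x.2}ᶜ)).card := by
  have h4 : 3 ≤ Fintype.card (Option V) := by
    rw [Fintype.card_option]; omega
  have h := four_dvd_QTf (cone G) h4 none
  rw [sum_card_eq]
  convert h using 1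
  refine Finset.card_bij (fun a _ => (hat a.1.1 a.1.2, hatp a.2)) ?_ ?_ ?_
  · rintro ⟨⟨c, s⟩, p⟩ ha
    simp only [mem_filter, mem_univ, true_and, HP, QT] at ha ⊢
    obtain ⟨⟨hf, h1⟩, h2⟩ := ha
    have hp : ∀ v, p v ≠ v → G.Adj v (p v) := by
      intro v hv
      simp only [PCh, mem_filter, mem_univ, true_and] at h2
      rcases h2.1 v with h | h
      · exact h.1
      · exact absurd h.1 hv
    refine ⟨⟨?_, ?_, ?_⟩, (hat_full c s).2 hf⟩
    · rintro (_ | v)
      · rw [hat_none]; trivial
      · rw [hat_some]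
        split_ifs with h
        · trivial
        · exact h1 v h
    · rintro (_ | v)
      · exact ⟨fun h => absurd h (by simp), fun _ => rfl⟩
      · refine ⟨fun _ => ?_, fun h => absurd (by simp) h⟩
        simp only [hatp]
        split_ifs with h
        · trivial
        · exact hp v h
    · exact (dj_hat G h3 c s hf p hp).2 h2
  · rintro ⟨⟨c, s⟩, p⟩ _ ⟨⟨c', s'⟩, p'⟩ _ he
    simp only [Prod.mk.injEq] at he ⊢
    exact ⟨hat_inj he.1, hatp_inj he.2⟩
  · rintro ⟨b, q⟩ ha
    simp only [mem_filter, mem_univ, true_and, QT] at ha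
    obtain ⟨⟨h1, h2, h5⟩, hf⟩ := ha
    obtain ⟨c, s, rfl⟩ := hat_surj b (h1 none).ne'
    set p : V → V := fun v => (q (some v)).getD v with hp
    have hq : hatp p = q := by
      funext v
      rcases v with _ | v
      · exact ((h2 none).2 (by simp)).symm
      · simp only [hatp, hp]
        have hv := (h2 (some v)).1 (by simp)
        rcases hqv : q (some v) with _ | w
        · simp
        · rw [hqv] at hv
          have : w ≠ v := fun h => (SimpleGraph.Adj.ne hv) (by rw [h])
          simp [this]
    have hf' := (hat_full c s).1 hf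
    have hadj : ∀ v, p v ≠ v → G.Adj v (p v) := by
      intro v hv
      have hv' := (h2 (some v)).1 (by simp)
      rw [← hq] at hv'
      simp only [hatp, if_neg hv] at hv'
      exact hv'
    refine ⟨((c, s), p), ?_, by simp only [hq]⟩
    simp only [mem_filter, mem_univ, true_and, HP]
    refine ⟨⟨hf', ?_⟩, ?_⟩
    · intro v hv
      have := h1 (some v)
      rw [hat_some, if_neg hv] at this
      exact this
    · rw [← dj_hat G h3 c s hf' p hadj, hq]
      exact h5

theorem dg_RG (G : SimpleGraph V) (h3 : 3 ≤ Fintype.card V) (c : Perm V) (s : V)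
    (hx : (c, s) ∈ HP G) (v : V) :
    dg (RG G (c, s)) v + (if v = s ∨ v = c⁻¹ s then 1 else 2) = dg G v := by
  simp only [HP, mem_filter, mem_univ, true_and] at hx
  obtain ⟨hf, hx⟩ := hx
  have hn2 := full_no_two c s hf h3
  have hn1 := full_ne c s hf h3
  have hst : s ≠ c⁻¹ s := by
    intro h
    have := hn1 (c⁻¹ s)
    rw [pai] at this
    exact this h
  set A : Finset V := (if c v = s then ∅ else {c v}) ∪ (if v = s then ∅ else {c⁻¹ v}) with hA
  have hAc : A.card = if v = s ∨ v = c⁻¹ s then 1 else 2 := by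
    by_cases h1 : v = s
    · have h2 : c v ≠ s := by rw [h1]; exact hn1 s
      rw [hA, if_neg h2, if_pos h1, if_pos (Or.inl h1)]
      simp
    · by_cases h2 : v = c⁻¹ s
      · have h4 : c v = s := by rw [h2, pai]
        rw [hA, if_pos h4, if_neg h1, if_pos (Or.inr h2)]
        simp
      · have h4 : c v ≠ s := fun h => h2 (by rw [← h, pia])
        rw [hA, if_neg h4, if_neg h1, if_neg (by tauto)]
        have : c v ≠ c⁻¹ v := by
          intro h
          apply hn2 v
          rw [h, pai]
        rw [Finset.card_union_of_disjoint (by simpa using this)]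
        simp
  have hU : (univ.filter fun w => G.Adj v w) = (univ.filter fun w => (RG G (c, s)).Adj v w) ∪ A := by
    ext w
    simp only [mem_filter, mem_univ, true_and, mem_union, RG, hA]
    constructor
    · intro h
      by_cases h1 : w = c v ∧ w ≠ s
      · right; left
        rw [if_neg (by rw [← h1.1]; exact h1.2)]; simp [h1.1]
      · by_cases h2 : v = c w ∧ v ≠ s
        · right; right
          rw [if_neg h2.2]
          simp only [mem_singleton]
          rw [h2.1, pia]
        · exact Or.inl ⟨h, h1, h2⟩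
    · rintro (h | h | h)
      · exact h.1
      · split_ifs at h with h1
        · simp at h
        · rw [mem_singleton] at h
          rw [h]; exact hx v h1
      · split_ifs at h with h1
        · simp at h
        · rw [mem_singleton] at h
          rw [h]
          have := hx (c⁻¹ v) (by rw [pai]; exact h1)
          rw [pai] at this
          exact this.symm
  unfold dg
  rw [hU, Finset.card_union_of_disjoint, hAc]
  rw [Finset.disjoint_left]
  intro w hw hwA
  simp only [mem_filter, mem_univ, true_and, RG] at hw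
  obtain ⟨g1, g2, g3⟩ := hw
  rw [hA, mem_union] at hwA
  rcases hwA with h | h
  · split_ifs at h with h1
    · simp at h
    · rw [mem_singleton] at h
      exact g2 ⟨h, by rw [h]; exact h1⟩
  · split_ifs at h with h1
    · simp at h
    · rw [mem_singleton] at h
      exact g3 ⟨by rw [h, pai], h1⟩

/-- the key congruence, on the side of the paths -/
theorem four_dvd_Inv (G : SimpleGraph V) (h3 : 3 ≤ Fintype.card V)
    (hdeg : (∀ v, Odd (dg G v)) ∨ ∀ v, Even (dg G v)) :
    4 ∣ ∑ x ∈ HP G, (Inv (RG G x)).card := by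
  obtain ⟨Mk, hMr, hMo, hM4⟩ : ∃ Mk : Perm V × V → Finset V, (∀ x, Mk (rev x) = Mk x) ∧
      (∀ x ∈ HP G, ∀ v, Odd (al (RG G x) (Mk x) v).card) ∧
      4 ∣ ∑ x ∈ HP G, (PCh (RG G x) (Mk x)).card := by
    rcases hdeg with hd | hd
    · refine ⟨fun x => {x.2, x.1⁻¹ x.2}, ?_, ?_, four_dvd_odd G h3⟩
      · rintro ⟨c, s⟩
        simp only [rev, inv_inv, pai]
        exact Finset.pair_comm _ _
      · rintro ⟨c, s⟩ hx v
        have h1 := dg_RG G h3 c s hx v
        have h2 := hd v
        rw [card_al]
        simp only [mem_insert, mem_singleton]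
        rw [← h1] at h2
        by_cases h : v = s ∨ v = c⁻¹ s
        · rw [if_pos h] at h2 ⊢; exact h2
        · rw [if_neg h] at h2 ⊢
          rw [Nat.odd_add] at h2
          exact h2.2 (by decide)
    · refine ⟨fun x => {x.2, x.1⁻¹ x.2}ᶜ, ?_, ?_, four_dvd_even G h3⟩
      · rintro ⟨c, s⟩
        simp only [rev, inv_inv, pai]
        rw [Finset.pair_comm]
      · rintro ⟨c, s⟩ hx v
        have h1 := dg_RG G h3 c s hx v
        have h2 := hd v
        rw [card_al]
        simp only [mem_compl, mem_insert, mem_singleton]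
        rw [← h1] at h2
        by_cases h : v = s ∨ v = c⁻¹ s
        · rw [if_pos h] at h2
          rw [if_neg (not_not.2 h), add_zero]
          rw [Nat.even_add_one, Nat.not_even_iff_odd] at h2
          exact h2
        · rw [if_neg h] at h2
          rw [if_pos h]
          rw [Nat.even_add] at h2
          have := h2.2 (by decide)
          exact this.add_one
  have hsum : 4 ∣ ∑ x ∈ HP G, ((PCh (RG G x) (Mk x)).card + (Inv (RG G x)).card) := by
    refine four_dvd_of_inv _ _ rev (fun x hx => rev_mem hx) (fun x _ => rev_rev x) ?_ ?_ ?_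
    · rintro ⟨c, s⟩ hx
      left
      intro h
      have h' := congrArg Prod.snd h
      simp only [rev] at h'
      simp only [HP, mem_filter, mem_univ, true_and] at hx
      have := full_ne c s hx.1 h3 (c⁻¹ s)
      rw [pai] at this
      exact this h'.symm
    · intro x _
      rw [RG_rev, hMr]
    · intro x hx
      have := pch_inv (RG G x) (Mk x) (hMo x hx)
      rw [← ZMod.natCast_eq_zero_iff_even, Nat.cast_add, this]
      exact CharTwo.add_self_eq_zero _
  rw [Finset.sum_add_distrib] at hsum
  exact (Nat.dvd_add_right hM4).1 hsum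

/-- `G` without the edges of a matching -/
def Gs (G : SimpleGraph V) (σ : V → V) : SimpleGraph V where
  Adj a b := G.Adj a b ∧ b ≠ σ a ∧ a ≠ σ b
  symm := ⟨fun _ _ h => ⟨h.1.symm, h.2.2, h.2.1⟩⟩
  loopless := ⟨fun _ h => h.1.ne rfl⟩

/-- in a graph with all degrees odd or all degrees even, the number of Hamilton paths avoiding
a matching, summed over all matchings, is even (counted with direction: divisible by four) -/
theorem four_dvd_matchings (G : SimpleGraph V) (h3 : 3 ≤ Fintype.card V)
    (hdeg : (∀ v, Odd (dg G v)) ∨ ∀ v, Even (dg G v)) :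
    4 ∣ ∑ σ ∈ Inv G, (HP (Gs G σ)).card := by
  have h := four_dvd_Inv G h3 hdeg
  rw [sum_card_eq] at h ⊢
  convert h using 1
  refine Finset.card_nbij' Prod.swap Prod.swap ?_ ?_ (fun _ _ => rfl) (fun _ _ => rfl)
  · rintro ⟨σ, c, s⟩ ha
    simp only [mem_coe, mem_filter, mem_univ, true_and, Prod.swap_prod_mk, HP, Inv, RG, Gs] at ha ⊢
    obtain ⟨⟨h1, h2⟩, h4, h5⟩ := ha
    refine ⟨⟨h4, fun v hv => (h5 v hv).1⟩, h1, ?_⟩
    intro v hv
    refine ⟨h2 v hv, ?_, ?_⟩
    · rintro ⟨e1, e2⟩
      exact (h5 v (by rw [← e1]; exact e2)).2.1 e1.symm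
    · rintro ⟨e1, e2⟩
      have := (h5 (σ v) (by rw [← e1]; exact e2)).2.1
      rw [h1, ← e1] at this
      exact this rfl
  · rintro ⟨⟨c, s⟩, σ⟩ ha
    simp only [mem_coe, mem_filter, mem_univ, true_and, Prod.swap_prod_mk, HP, Inv, RG, Gs] at ha ⊢
    obtain ⟨⟨h4, h5⟩, h1, h2⟩ := ha
    refine ⟨⟨h1, fun v hv => (h2 v hv).1⟩, h4, ?_⟩
    intro v hv
    have hne := (h5 v hv).ne
    refine ⟨h5 v hv, ?_, ?_⟩
    · intro h
      have hσ : σ v ≠ v := by rw [← h]; exact hne.symm
      exact (h2 v hσ).2.1 ⟨h.symm, by rw [← h]; exact hv⟩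
    · intro h
      have hσ : σ v ≠ v := by
        intro h'
        have := h1 (c v)
        rw [← h, h'] at this
        exact hne this
      have h6 : σ v = c v := by
        have := h1 (c v)
        rw [← h] at this
        exact this
      exact (h2 v hσ).2.1 ⟨h6, by rw [h6]; exact hv⟩

end Pool.Agent.Helper52.LP
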