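import Pool.Agent.Helper52.LP.L

/-! # One step down -/

namespace Pool.Agent.Helper52.LP

open Finset Function Equiv
open scoped Classical

variable {V : Type} [Fintype V] [DecidableEq V]

/-- delete the edges from `v` to `F` -/
def Dv (G : SimpleGraph V) (v : V) (F : Finset V) : SimpleGraph V where
  Adj a b := G.Adj a b ∧ ¬ (a = v ∧ b ∈ F) ∧ ¬ (b = v ∧ a ∈ F)
  symm := ⟨fun _ _ h => ⟨h.1.symm, h.2.2, h.2.1⟩⟩
  loopless := ⟨fun _ h => h.1.ne rfl⟩

/-- the neighbours of `v` on the path -/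
noncomputable def Nb (x : Perm V × V) (v : V) : Finset V :=
  (if x.1 v = x.2 then ∅ else {x.1 v}) ∪ (if v = x.2 then ∅ else {x.1⁻¹ v})

theorem Nb_rev (x : Perm V × V) (v : V) : Nb (rev x) v = Nb x v := by
  obtain ⟨c, s⟩ := x
  simp only [Nb, rev, inv_inv]
  rw [Finset.union_comm]
  have h1 : (c⁻¹ v = c⁻¹ s) ↔ v = s := (c⁻¹).injective.eq_iff
  have h2 : (v = c⁻¹ s) ↔ c v = s := by
    rw [Perm.eq_inv_iff_eq]
  simp only [h1, h2]

theorem Nb_sub {G : SimpleGraph V} {x : Perm V × V} (hx : x ∈ HP G) (v : V) :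
    ∀ u ∈ Nb x v, G.Adj v u := by
  obtain ⟨c, s⟩ := x
  simp only [HP, mem_filter, mem_univ, true_and] at hx
  intro u hu
  simp only [Nb, mem_union] at hu
  rcases hu with h | h
  · split_ifs at h with h1
    · simp at h
    · rw [mem_singleton] at h
      rw [h]; exact hx.2 v h1
  · split_ifs at h with h1
    · simp at h
    · rw [mem_singleton] at h
      rw [h]
      have := hx.2 (c⁻¹ v) (by rw [pai]; exact h1)
      rw [pai] at this
      exact this.symm

theorem Nb_card {G : SimpleGraph V} (h3 : 3 ≤ Fintype.card V) {x : Perm V × V} (hx : x ∈ HP G)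
    (v : V) : (Nb x v).card = 1 ∨ (Nb x v).card = 2 := by
  obtain ⟨c, s⟩ := x
  simp only [HP, mem_filter, mem_univ, true_and] at hx
  have hn2 := full_no_two c s hx.1 h3
  have hn1 := full_ne c s hx.1 h3
  simp only [Nb]
  by_cases h1 : v = s
  · have h2 : c v ≠ s := by rw [h1]; exact hn1 s
    rw [if_neg h2, if_pos h1]
    left; simp
  · rw [if_neg h1]
    by_cases h2 : c v = s
    · rw [if_pos h2]; left; simp
    · rw [if_neg h2]
      right
      have : c v ≠ c⁻¹ v := by
        intro h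
        apply hn2 v
        rw [h, pai]
      rw [Finset.card_union_of_disjoint (by simpa using this)]
      simp

theorem mem_HP_Dv {G : SimpleGraph V} {v : V} {F : Finset V} {x : Perm V × V} :
    x ∈ HP (Dv G v F) ↔ x ∈ HP G ∧ Disjoint F (Nb x v) := by
  obtain ⟨c, s⟩ := x
  simp only [HP, mem_filter, mem_univ, true_and, Dv, Nb, Finset.disjoint_left, mem_union]
  constructor
  · rintro ⟨h1, h2⟩
    refine ⟨⟨h1, fun u hu => (h2 u hu).1⟩, ?_⟩
    intro w hw hw'
    rcases hw' with h | h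
    · split_ifs at h with h5
      · simp at h
      · rw [mem_singleton] at h
        exact (h2 v h5).2.1 ⟨rfl, by rw [← h]; exact hw⟩
    · split_ifs at h with h5
      · simp at h
      · rw [mem_singleton] at h
        have := (h2 (c⁻¹ v) (by rw [pai]; exact h5)).2.2
        rw [pai] at this
        exact this ⟨rfl, by rw [← h]; exact hw⟩
  · rintro ⟨⟨h1, h2⟩, h4⟩
    refine ⟨h1, fun u hu => ⟨h2 u hu, ?_, ?_⟩⟩
    · rintro ⟨rfl, h⟩
      apply h4 h
      left
      rw [if_neg hu]; simp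
    · rintro ⟨h, h'⟩
      apply h4 h'
      right
      rw [← h, if_neg hu, mem_singleton, pia]

theorem even_HP (G : SimpleGraph V) (h3 : 3 ≤ Fintype.card V) : Even (HP G).card := by
  refine even_card_of_inv _ rev (fun x hx => rev_mem hx) (fun x _ => rev_rev x) ?_
  rintro ⟨c, s⟩ hx h
  have h' := congrArg Prod.snd h
  simp only [rev] at h'
  simp only [HP, mem_filter, mem_univ, true_and] at hx
  have := full_ne c s hx.1 h3 (c⁻¹ s)
  rw [pai] at this
  exact this h'.symm

theorem star_dvd (G : SimpleGraph V) (h3 : 3 ≤ Fintype.card V) (v : V)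
    (Fam : Finset (Finset V))
    (he : ∀ A : Finset V, (∀ u ∈ A, G.Adj v u) → (A.card = 1 ∨ A.card = 2) →
      Even (Fam.filter fun F => Disjoint F A).card) :
    4 ∣ ∑ F ∈ Fam, (HP (Dv G v F)).card := by
  have h1 : ∑ F ∈ Fam, (HP (Dv G v F)).card
      = ∑ x ∈ HP G, (Fam.filter fun F => Disjoint F (Nb x v)).card := by
    rw [sum_card_eq, sum_card_eq]
    refine Finset.card_nbij' Prod.swap Prod.swap ?_ ?_ (fun _ _ => rfl) (fun _ _ => rfl)
    · rintro ⟨F, x⟩ ha
      simp only [mem_coe, mem_filter, mem_univ, true_and, Prod.swap_prod_mk, mem_HP_Dv] at ha ⊢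
      exact ⟨ha.2.1, ha.1, ha.2.2⟩
    · rintro ⟨x, F⟩ ha
      simp only [mem_coe, mem_filter, mem_univ, true_and, Prod.swap_prod_mk, mem_HP_Dv] at ha ⊢
      exact ⟨ha.2.1, ha.1, ha.2.2⟩
  rw [h1]
  refine four_dvd_of_inv _ _ rev (fun x hx => rev_mem hx) (fun x _ => rev_rev x) ?_ ?_ ?_
  · rintro ⟨c, s⟩ hx
    left
    intro h
    have h' := congrArg Prod.snd h
    simp only [rev] at h'
    simp only [HP, mem_filter, mem_univ, true_and] at hx
    have := full_ne c s hx.1 h3 (c⁻¹ s)
    rw [pai] at this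
    exact this h'.symm
  · intro x _
    rw [Nb_rev]
  · intro x hx
    exact he _ (Nb_sub hx v) (Nb_card h3 hx v)

theorem exists_of_dvd {ι : Type*} (S : Finset ι) (f : ι → ℕ) (i0 : ι) (hi : i0 ∈ S)
    (h4 : 4 ∣ ∑ i ∈ S, f i) (he : ∀ i ∈ S, Even (f i)) (h2 : f i0 % 4 = 2) :
    ∃ i ∈ S, i ≠ i0 ∧ f i % 4 = 2 := by
  by_contra hc
  push Not at hc
  have h0 : 4 ∣ ∑ i ∈ S.erase i0, f i := by
    refine Finset.dvd_sum fun i hi' => ?_
    rw [Finset.mem_erase] at hi'
    have a1 := he i hi'.2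
    have a2 := hc i hi'.2 hi'.1
    obtain ⟨r, hr⟩ := a1
    omega
  rw [← Finset.add_sum_erase S f hi] at h4
  have := (Nat.dvd_add_left h0).1 h4
  omega

theorem dg_Dv_self (G : SimpleGraph V) (v : V) (F : Finset V) :
    dg G v ≤ dg (Dv G v F) v + F.card := by
  unfold dg
  refine le_trans (Finset.card_le_card (t := (univ.filter fun w => (Dv G v F).Adj v w) ∪ F) ?_)
    (Finset.card_union_le _ _)
  intro w hw
  simp only [mem_filter, mem_univ, true_and, mem_union, Dv] at hw ⊢
  by_cases h : w ∈ F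
  · exact Or.inr h
  · left
    exact ⟨hw, h, fun h' => hw.ne h'.1.symm⟩

theorem dg_Dv_ne (G : SimpleGraph V) (v : V) (F : Finset V) (u : V) (hu : u ≠ v) :
    dg G u ≤ dg (Dv G v F) u + 1 := by
  unfold dg
  have := (Finset.card_singleton v)
  rw [← this]
  refine le_trans (Finset.card_le_card (t := (univ.filter fun w => (Dv G v F).Adj u w) ∪ {v}) ?_)
    (Finset.card_union_le _ _)
  intro w hw
  simp only [mem_filter, mem_univ, true_and, mem_union, Dv, mem_singleton] at hw ⊢
  by_cases h : w = v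
  · exact Or.inr h
  · left
    exact ⟨hw, fun h' => hu h'.1, fun h' => h h'.1⟩

theorem Dv_empty (G : SimpleGraph V) (v : V) : Dv G v ∅ = G := by
  ext a b
  simp [Dv]

theorem Dv_lt (G : SimpleGraph V) (v : V) (F : Finset V) (hF : F.Nonempty)
    (hsub : ∀ u ∈ F, G.Adj v u) : Dv G v F < G := by
  obtain ⟨u, hu⟩ := hF
  refine lt_of_le_of_ne (fun a b h => h.1) ?_
  intro h
  have h1 := hsub u hu
  rw [← h] at h1
  exact h1.2.1 ⟨rfl, hu⟩

/-- from a family of subsets of the star -/
theorem star_step (G : SimpleGraph V) (h3 : 3 ≤ Fintype.card V) (v : V) (k : ℕ)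
    (hG : (HP G).card % 4 = 2) (hδ : ∀ u, k + 1 ≤ dg G u) (Fam : Finset (Finset V))
    (h0 : ∅ ∈ Fam) (hsub : ∀ F ∈ Fam, ∀ u ∈ F, G.Adj v u) (hc : ∀ F ∈ Fam, k + F.card ≤ dg G v)
    (he : ∀ A : Finset V, (∀ u ∈ A, G.Adj v u) → (A.card = 1 ∨ A.card = 2) →
      Even (Fam.filter fun F => Disjoint F A).card) :
    ∃ G' : SimpleGraph V, G' < G ∧ (∀ u, k ≤ dg G' u) ∧ (HP G').card % 4 = 2 := by
  have h4 := star_dvd G h3 v Fam he
  obtain ⟨F, hF, hF0, hF2⟩ := exists_of_dvd Fam (fun F => (HP (Dv G v F)).card) ∅ h0 h4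
    (fun F _ => even_HP _ h3) (by rw [Dv_empty]; exact hG)
  refine ⟨Dv G v F, Dv_lt G v F (Finset.nonempty_iff_ne_empty.2 hF0) (hsub F hF), ?_, hF2⟩
  intro u
  by_cases hu : u = v
  · subst hu
    have := dg_Dv_self G u F
    have := hc F hF
    omega
  · have := dg_Dv_ne G v F u hu
    have := hδ u
    omega

theorem disj_filter_card (N A : Finset V) (T : Finset ℕ) (hA : A ⊆ N) :
    ((N.powerset.filter fun F => F.card ∈ T).filter fun F => Disjoint F A).card
      = ∑ i ∈ T, (N.card - A.card).choose i := by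
  have h1 : ((N.powerset.filter fun F => F.card ∈ T).filter fun F => Disjoint F A)
      = T.biUnion fun i => (N \ A).powersetCard i := by
    ext F
    simp only [mem_filter, mem_powerset, mem_biUnion, mem_powersetCard, Finset.subset_sdiff]
    constructor
    · rintro ⟨⟨h1, h2⟩, h3⟩
      exact ⟨F.card, h2, ⟨h1, h3⟩, rfl⟩
    · rintro ⟨i, hi, ⟨h1, h3⟩, h2⟩
      exact ⟨⟨h1, by rw [h2]; exact hi⟩, h3⟩
  rw [h1, Finset.card_biUnion]
  · refine Finset.sum_congr rfl fun i _ => ?_
    rw [Finset.card_powersetCard, Finset.card_sdiff_of_subset hA]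
  · intro i _ j _ hij
    rw [Function.onFun, Finset.disjoint_left]
    intro F hF hF'
    rw [mem_powersetCard] at hF hF'
    exact hij (by rw [← hF.2, ← hF'.2])

theorem choose_two_mod (m : ℕ) : (m % 4 = 2 ∨ m % 4 = 3 → Odd (m.choose 2)) ∧
    (m % 4 = 0 ∨ m % 4 = 1 → Even (m.choose 2)) := by
  have key : ∀ a : ℕ, (4 * a).choose 2 = 2 * (a * (4 * a - 1)) ∧
      (4 * a + 1).choose 2 = 2 * (a * (4 * a + 1)) ∧
      (4 * a + 2).choose 2 = 2 * (a * (4 * a + 1) + 2 * a) + 1 ∧
      (4 * a + 3).choose 2 = 2 * (a * (4 * a + 1) + 2 * a + 2 * a + 1) + 1 := by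
    intro a
    have e1 : (4 * a + 1).choose 2 = 2 * (a * (4 * a + 1)) := by
      rw [Nat.choose_two_right]
      have : (4 * a + 1) * (4 * a + 1 - 1) = 2 * (2 * (a * (4 * a + 1))) := by
        rw [Nat.add_sub_cancel]; ring
      rw [this]; omega
    have e2 : (4 * a + 2).choose 2 = (4 * a + 1).choose 2 + (4 * a + 1) := by
      rw [Nat.choose_succ_succ' (4 * a + 1) 1, Nat.choose_one_right]; ring
    have e3 : (4 * a + 3).choose 2 = (4 * a + 2).choose 2 + (4 * a + 2) := by
      rw [Nat.choose_succ_succ' (4 * a + 2) 1, Nat.choose_one_right]; ring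
    refine ⟨?_, e1, ?_, ?_⟩
    · rcases a with _ | a
      · rfl
      · rw [Nat.choose_two_right]
        have : 4 * (a + 1) * (4 * (a + 1) - 1) = 2 * (2 * ((a + 1) * (4 * (a + 1) - 1))) := by ring
        rw [this]; omega
    · rw [e2, e1]; ring
    · rw [e3, e2, e1]; ring
  refine ⟨?_, ?_⟩
  · rintro (h | h)
    · obtain ⟨a, rfl⟩ : ∃ a, m = 4 * a + 2 := ⟨m / 4, by omega⟩
      rw [(key a).2.2.1]; exact ⟨_, rfl⟩
    · obtain ⟨a, rfl⟩ : ∃ a, m = 4 * a + 3 := ⟨m / 4, by omega⟩
      rw [(key a).2.2.2]; exact ⟨_, rfl⟩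
  · rintro (h | h)
    · obtain ⟨a, rfl⟩ : ∃ a, m = 4 * a := ⟨m / 4, by omega⟩
      rw [(key a).1]; exact even_two_mul _
    · obtain ⟨a, rfl⟩ : ∃ a, m = 4 * a + 1 := ⟨m / 4, by omega⟩
      rw [(key a).2.1]; exact even_two_mul _

/-- the star at a vertex whose degree is exactly `k + 2` -/
theorem step_two (G : SimpleGraph V) (h3 : 3 ≤ Fintype.card V) (v : V) (k : ℕ)
    (hk : k % 4 = 1 ∨ k % 4 = 2)
    (hG : (HP G).card % 4 = 2) (hδ : ∀ u, k + 1 ≤ dg G u) (hv : dg G v = k + 2) :
    ∃ G' : SimpleGraph V, G' < G ∧ (∀ u, k ≤ dg G' u) ∧ (HP G').card % 4 = 2 := by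
  set N : Finset V := univ.filter fun w => G.Adj v w with hN
  have hNc : N.card = k + 2 := hv
  have hNm : ∀ u, u ∈ N ↔ G.Adj v u := by intro u; simp [hN]
  obtain ⟨T, hT0, hT2, hTe⟩ : ∃ T : Finset ℕ, 0 ∈ T ∧ (∀ i ∈ T, i ≤ 2) ∧
      ∀ m, (m = k ∨ m = k + 1) → Even (∑ i ∈ T, m.choose i) := by
    rcases hk with hk | hk
    · refine ⟨{0, 1, 2}, by simp, by simp, ?_⟩
      rintro m hm
      rw [Finset.sum_insert (by simp), Finset.sum_insert (by simp), Finset.sum_singleton,
        Nat.choose_zero_right, Nat.choose_one_right]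
      rcases hm with rfl | rfl
      · have h := (choose_two_mod m).2 (Or.inr hk)
        have h' : Odd m := by rw [Nat.odd_iff]; omega
        rw [← add_assoc]
        exact (h'.one_add).add h
      · have h := (choose_two_mod (k + 1)).1 (Or.inl (by omega))
        have h' : Even (k + 1) := by rw [Nat.even_iff]; omega
        rw [← add_assoc]
        exact (h'.one_add).add_odd h
    · refine ⟨{0, 2}, by simp, by simp, ?_⟩
      rintro m hm
      rw [Finset.sum_insert (by simp), Finset.sum_singleton, Nat.choose_zero_right]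
      rcases hm with rfl | rfl
      · have h := (choose_two_mod m).1 (Or.inl hk)
        exact h.one_add
      · have h := (choose_two_mod (k + 1)).1 (Or.inr (by omega))
        exact h.one_add
  refine star_step G h3 v k hG hδ (N.powerset.filter fun F => F.card ∈ T) ?_ ?_ ?_ ?_
  · simp [hT0]
  · intro F hF u hu
    rw [mem_filter, mem_powerset] at hF
    exact (hNm u).1 (hF.1 hu)
  · intro F hF
    rw [mem_filter] at hF
    have := hT2 _ hF.2
    rw [hv]; omega
  · intro A hA hAc
    rw [disj_filter_card N A T (fun u hu => (hNm u).2 (hA u hu)), hNc]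
    apply hTe
    omega

/-- a vertex of degree at least `k + 3` -/
theorem step_three (G : SimpleGraph V) (h3 : 3 ≤ Fintype.card V) (v : V) (k : ℕ)
    (hG : (HP G).card % 4 = 2) (hδ : ∀ u, k + 1 ≤ dg G u) (hv : k + 3 ≤ dg G v) :
    ∃ G' : SimpleGraph V, G' < G ∧ (∀ u, k ≤ dg G' u) ∧ (HP G').card % 4 = 2 := by
  have h3' : 3 ≤ (univ.filter fun w => G.Adj v w).card := le_trans (by omega) hv
  obtain ⟨N, hNs, hNc⟩ := Finset.exists_subset_card_eq h3'
  have hNm : ∀ u ∈ N, G.Adj v u := by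
    intro u hu
    have := hNs hu
    simpa using this
  refine star_step G h3 v k hG hδ N.powerset ?_ ?_ ?_ ?_
  · simp
  · intro F hF u hu
    rw [mem_powerset] at hF
    exact hNm u (hF hu)
  · intro F hF
    rw [mem_powerset] at hF
    have := Finset.card_le_card hF
    omega
  · intro A _ hAc
    have e : (N.powerset.filter fun F => Disjoint F A) = (N \ A).powerset := by
      ext F
      simp only [mem_filter, mem_powerset, Finset.subset_sdiff]
    rw [e, Finset.card_powerset]
    have h1 : 1 ≤ (N \ A).card := by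
      have := Finset.le_card_sdiff A N
      omega
    exact (Nat.even_pow.2 ⟨even_two, by omega⟩)

theorem dg_Gs (G : SimpleGraph V) (σ : V → V) (hσ : ∀ v, σ (σ v) = v) (u : V) :
    dg G u ≤ dg (Gs G σ) u + 1 := by
  unfold dg
  have := (Finset.card_singleton (σ u))
  rw [← this]
  refine le_trans (Finset.card_le_card (t := (univ.filter fun w => (Gs G σ).Adj u w) ∪ {σ u}) ?_)
    (Finset.card_union_le _ _)
  intro w hw
  simp only [mem_filter, mem_univ, true_and, mem_union, Gs, mem_singleton] at hw ⊢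
  by_cases h : w = σ u
  · exact Or.inr h
  · left
    exact ⟨hw, h, fun h' => h (by rw [h', hσ])⟩

/-- the step -/
theorem step (G : SimpleGraph V) (h3 : 3 ≤ Fintype.card V) (k : ℕ)
    (hk : k % 4 = 1 ∨ k % 4 = 2)
    (hG : (HP G).card % 4 = 2) (hδ : ∀ u, k + 1 ≤ dg G u) :
    ∃ G' : SimpleGraph V, G' < G ∧ (∀ u, k ≤ dg G' u) ∧ (HP G').card % 4 = 2 := by
  by_cases h1 : ∃ v, k + 3 ≤ dg G v
  · obtain ⟨v, hv⟩ := h1
    exact step_three G h3 v k hG hδ hv
  · by_cases h2 : ∃ v, dg G v = k + 2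
    · obtain ⟨v, hv⟩ := h2
      exact step_two G h3 v k hk hG hδ hv
    · have hreg : ∀ v, dg G v = k + 1 := by
        intro v
        push Not at h1 h2
        have a1 := h1 v
        have a2 := h2 v
        have a3 := hδ v
        omega
      have h4 := four_dvd_matchings G h3 (by
        rcases Nat.even_or_odd (k + 1) with h | h
        · right; intro v; rw [hreg]; exact h
        · left; intro v; rw [hreg]; exact h)
      have hid : (id : V → V) ∈ Inv G := by
        simp only [Inv, mem_filter, mem_univ, true_and]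
        exact ⟨fun v => rfl, fun v h => absurd rfl h⟩
      have hGid : Gs G id = G := by
        ext a b
        simp only [Gs, id]
        exact ⟨fun h => h.1, fun h => ⟨h, h.ne', h.ne⟩⟩
      obtain ⟨σ, hσ, hσ0, hσ2⟩ := exists_of_dvd (Inv G) (fun σ => (HP (Gs G σ)).card) id hid h4
        (fun σ _ => even_HP _ h3) (by rw [hGid]; exact hG)
      simp only [Inv, mem_filter, mem_univ, true_and] at hσ
      refine ⟨Gs G σ, ?_, ?_, hσ2⟩
      · refine lt_of_le_of_ne (fun a b h => h.1) ?_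
        intro h
        apply hσ0
        funext v
        by_contra hv
        have h5 := hσ.2 v hv
        rw [← h] at h5
        exact h5.2.1 rfl
      · intro u
        have := dg_Gs G σ hσ.1 u
        have := hreg u
        omega

end Pool.Agent.Helper52.LP
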