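import Pool.Agent.Helper52.LP.M

/-! # Hamilton paths as lists -/

namespace Pool.Agent.Helper52.LP

open Finset Function Equiv
open scoped Classical

variable {V : Type} [Fintype V] [DecidableEq V]

/-- the vertex sequences of Hamilton paths -/
def HL (G : SimpleGraph V) : Set (List V) :=
  {l | l.Nodup ∧ l.IsChain G.Adj ∧ l.length = Fintype.card V}

theorem full_cycleOf (c : Perm V) (s : V) (hf : ∀ v, c.SameCycle s v) : c.cycleOf s = c := by
  ext v
  rw [Perm.cycleOf_apply, if_pos (hf v)]

theorem toList_length (h3 : 3 ≤ Fintype.card V) (c : Perm V) (s : V)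
    (hf : ∀ v, c.SameCycle s v) : (c.toList s).length = Fintype.card V := by
  rw [Perm.length_toList, full_cycleOf c s hf, ← Finset.card_univ]
  congr 1
  ext v
  simp only [Perm.mem_support, mem_univ, iff_true]
  exact full_ne c s hf h3 v

theorem toList_mem_HL (G : SimpleGraph V) (h3 : 3 ≤ Fintype.card V) (x : Perm V × V)
    (hx : x ∈ HP G) : x.1.toList x.2 ∈ HL G := by
  obtain ⟨c, s⟩ := x
  simp only [HP, mem_filter, mem_univ, true_and] at hx
  have hlen := toList_length h3 c s hx.1
  refine ⟨Perm.nodup_toList c s, ?_, hlen⟩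
  rw [List.isChain_iff_getElem]
  intro i hi
  rw [Perm.getElem_toList, Perm.getElem_toList, pow_succ', Perm.mul_apply]
  apply hx.2
  intro h
  have h1 : (c.toList s)[i + 1] = (c.toList s)[0]'(by omega) := by
    rw [Perm.getElem_toList, Perm.getElem_toList, pow_succ', Perm.mul_apply, h]
    rfl
  have := (List.Nodup.getElem_inj_iff (Perm.nodup_toList c s)).1 h1
  omega

theorem HL_mem_HP (G : SimpleGraph V) (l : List V) (hl : l ∈ HL G)
    (h0 : 0 < l.length) : (l.formPerm, l[0]) ∈ HP G := by
  obtain ⟨hn, hc, hlen⟩ := hl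
  have hmem : ∀ v, v ∈ l := by
    intro v
    have : l.toFinset = univ := by
      apply Finset.eq_univ_of_card
      rw [List.toFinset_card_of_nodup hn, hlen]
    have hv := mem_univ v
    rw [← this, List.mem_toFinset] at hv
    exact hv
  simp only [HP, mem_filter, mem_univ, true_and]
  refine ⟨?_, ?_⟩
  · intro v
    obtain ⟨i, hi, rfl⟩ := List.mem_iff_getElem.1 (hmem v)
    refine ⟨i, ?_⟩
    rw [zpow_natCast, List.formPerm_pow_apply_getElem l hn i 0 h0]
    congr 1
    rw [zero_add, Nat.mod_eq_of_lt hi]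
  · intro v hv
    obtain ⟨i, hi, rfl⟩ := List.mem_iff_getElem.1 (hmem v)
    rw [List.formPerm_apply_getElem l hn i hi] at hv ⊢
    rcases Nat.lt_or_ge (i + 1) l.length with h | h
    · simp only [Nat.mod_eq_of_lt h]
      exact (List.isChain_iff_getElem.1 hc) i h
    · exfalso
      apply hv
      congr 1
      have : i + 1 = l.length := by omega
      rw [this, Nat.mod_self]

theorem ncard_HL (G : SimpleGraph V) (h3 : 3 ≤ Fintype.card V) :
    (HL G).ncard = (HP G).card := by
  rw [← Set.ncard_coe_finset]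
  symm
  refine Set.ncard_congr (fun x _ => x.1.toList x.2) ?_ ?_ ?_
  · intro x hx
    exact toList_mem_HL G h3 x (mem_coe.1 hx)
  · rintro ⟨c, s⟩ ⟨c', s'⟩ hx hx' h
    rw [mem_coe] at hx hx'
    simp only [HP, mem_filter, mem_univ, true_and] at hx hx' h
    have h1 := congrArg List.formPerm h
    rw [Perm.formPerm_toList, Perm.formPerm_toList, full_cycleOf c s hx.1,
      full_cycleOf c' s' hx'.1] at h1
    have hl := toList_length h3 c s hx.1
    have hl' := toList_length h3 c' s' hx'.1
    have e1 : (c.toList s)[0]'(by omega) = s := by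
      rw [Perm.getElem_toList]; rfl
    have e2 : (c'.toList s')[0]'(by omega) = s' := by
      rw [Perm.getElem_toList]; rfl
    have e0 : (c.toList s)[0]'(by omega) = (c'.toList s')[0]'(by omega) := by simp only [h]
    have e3 : s = s' := e1.symm.trans (e0.trans e2)
    rw [h1, e3]
  · intro l hl
    have h0 : 0 < l.length := by rw [hl.2.2]; omega
    refine ⟨(l.formPerm, l[0]), mem_coe.2 (HL_mem_HP G l hl h0), ?_⟩
    have := Perm.toList_formPerm_nontrivial l (by rw [hl.2.2]; omega) hl.1
    exact this

theorem HL_mono {G G' : SimpleGraph V} (h : G' ≤ G) : HL G' ⊆ HL G := by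
  rintro l ⟨h1, h2, h3⟩
  exact ⟨h1, List.IsChain.imp (fun a b hab => h hab) h2, h3⟩

theorem HL_finite (G : SimpleGraph V) : (HL G).Finite := by
  refine Set.Finite.subset (List.finite_length_eq V (Fintype.card V)) ?_
  rintro l ⟨_, _, h⟩
  exact h

end Pool.Agent.Helper52.LP
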