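import Pool.Agent.Helper52.LP.N

/-! # Every edge of a graph with all degrees at least `n/2` is in a Hamilton path -/

namespace Pool.Agent.Helper52.LP

open Finset Function
open scoped Classical

section lists

variable {V : Type} {G : SimpleGraph V}

theorem chain_reverse {l : List V} (h : l.IsChain G.Adj) : l.reverse.IsChain G.Adj := by
  rw [List.isChain_reverse]
  exact List.IsChain.imp (fun a b hab => hab.symm) h

/-- the list is a closed walk -/
def Cyc (G : SimpleGraph V) (C : List V) : Prop :=
  C.IsChain G.Adj ∧ ∀ x ∈ C.getLast?, ∀ y ∈ C.head?, G.Adj x y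

/-- consecutive elements, in either order -/
def Con (a b : V) (l : List V) : Prop := [a, b] <:+: l ∨ [b, a] <:+: l

theorem Con.symm {a b : V} {l : List V} (h : Con a b l) : Con b a l := Or.symm h

theorem Con.reverse {a b : V} {l : List V} (h : Con a b l) : Con a b l.reverse := by
  rcases h with h | h
  · right
    have := List.reverse_infix.2 h
    simpa using this
  · left
    have := List.reverse_infix.2 h
    simpa using this

theorem Con.append_left {a b : V} {l : List V} (l' : List V) (h : Con a b l) :
    Con a b (l' ++ l) := by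
  rcases h with h | h
  · exact Or.inl (h.trans (List.suffix_append l' l).isInfix)
  · exact Or.inr (h.trans (List.suffix_append l' l).isInfix)

theorem Con.append_right {a b : V} {l : List V} (l' : List V) (h : Con a b l) :
    Con a b (l ++ l') := by
  rcases h with h | h
  · exact Or.inl (h.trans (List.prefix_append l l').isInfix)
  · exact Or.inr (h.trans (List.prefix_append l l').isInfix)

theorem pair_infix_append {a b : V} : ∀ {l l' : List V}, [a, b] <:+: l ++ l' →
    [a, b] <:+: l ∨ [a, b] <:+: l' ∨ (a ∈ l.getLast? ∧ b ∈ l'.head?) := by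
  intro l
  induction l with
  | nil => intro l' h; right; left; simpa using h
  | cons x l ih =>
    intro l' h
    rw [List.cons_append, List.infix_cons_iff] at h
    rcases h with h | h
    · obtain ⟨t, ht⟩ := h
      simp only [List.cons_append, List.nil_append] at ht
      rcases l with _ | ⟨y, l⟩
      · right; right
        rw [List.nil_append] at ht
        have e1 := (List.cons_eq_cons.1 ht).1
        have e2 := (List.cons_eq_cons.1 ht).2
        refine ⟨by simp [e1], ?_⟩
        rw [← e2]; simp
      · left
        rw [List.cons_append] at ht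
        have e1 := (List.cons_eq_cons.1 ht).1
        have e2 := (List.cons_eq_cons.1 ht).2
        have e3 := (List.cons_eq_cons.1 e2).1
        rw [e1, e3]
        exact (List.prefix_append [x, y] l).isInfix
    · rcases ih h with h | h | ⟨h, h'⟩
      · left; exact h.trans (List.suffix_cons x l).isInfix
      · right; left; exact h
      · right; right
        refine ⟨?_, h'⟩
        rcases l with _ | ⟨y, l⟩
        · simp at h
        · rw [List.getLast?_cons_cons]; exact h

theorem Con.append_cases {a b : V} {l l' : List V} (h : Con a b (l ++ l')) :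
    Con a b l ∨ Con a b l' ∨ (a ∈ l.getLast? ∧ b ∈ l'.head?) ∨ (b ∈ l.getLast? ∧ a ∈ l'.head?) := by
  rcases h with h | h
  · rcases pair_infix_append h with h | h | h
    · exact Or.inl (Or.inl h)
    · exact Or.inr (Or.inl (Or.inl h))
    · exact Or.inr (Or.inr (Or.inl h))
  · rcases pair_infix_append h with h | h | h
    · exact Or.inl (Or.inr h)
    · exact Or.inr (Or.inl (Or.inr h))
    · exact Or.inr (Or.inr (Or.inr h))

theorem Con.adj {a b : V} {l : List V} (h : Con a b l) (hl : l.IsChain G.Adj) : G.Adj a b := by
  rcases h with ⟨s, t, rfl⟩ | ⟨s, t, rfl⟩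
  · have := hl.left_of_append.right_of_append
    simpa using this
  · have := hl.left_of_append.right_of_append
    have h' : G.Adj b a := by simpa using this
    exact h'.symm

theorem con_mid {a b : V} {u w : List V} (ha : a ∈ u.getLast?) (hb : b ∈ w.head?) :
    Con a b (u ++ w) := by
  left
  obtain ⟨u', rfl⟩ := List.getLast?_eq_some_iff.1 ha
  obtain ⟨w', rfl⟩ := List.head?_eq_some_iff.1 hb
  exact ⟨u', w', by simp⟩

/-- open a closed walk at a vertex, keeping a given pair of consecutive elements -/
theorem open_cyc {a b : V} {C : List V} (hC : Cyc G C) (hab : Con a b C) {y z : V}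
    (hz : z ∈ C) (hyz : G.Adj y z) :
    ∃ L : List V, L.Perm (y :: C) ∧ L.IsChain G.Adj ∧ Con a b L := by
  obtain ⟨u, w, rfl⟩ := List.append_of_mem hz
  obtain ⟨h1, h2⟩ := hC
  have hA : (z :: w ++ u).IsChain G.Adj := by
    refine List.IsChain.append h1.right_of_append h1.left_of_append ?_
    intro x hx x' hx'
    refine h2 x ?_ x' ?_
    · rw [List.getLast?_append_of_ne_nil _ (by simp)]; exact hx
    · rcases u with _ | ⟨t, u⟩
      · simp at hx'
      · simpa using hx'
  have hB : ((u ++ [z]).reverse ++ w.reverse).IsChain G.Adj := by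
    have e : u ++ z :: w = (u ++ [z]) ++ w := by simp
    rw [e] at h1 h2
    refine List.IsChain.append (chain_reverse h1.left_of_append)
      (chain_reverse h1.right_of_append) ?_
    intro x hx x' hx'
    rw [List.getLast?_reverse] at hx
    rw [List.head?_reverse] at hx'
    refine (h2 x' ?_ x ?_).symm
    · rcases w with _ | ⟨t, w⟩
      · simp at hx'
      · rw [List.getLast?_append_of_ne_nil _ (by simp)]; exact hx'
    · rw [List.head?_append_of_ne_nil _ (by simp)]; exact hx
  have hLA : Con a b (z :: w ++ u) → ∃ L : List V, L.Perm (y :: (u ++ z :: w)) ∧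
      L.IsChain G.Adj ∧ Con a b L := by
    intro h
    refine ⟨y :: (z :: w ++ u), ?_, ?_, ?_⟩
    · exact List.Perm.cons _ List.perm_append_comm
    · rw [List.isChain_cons]
      exact ⟨by simpa using hyz, hA⟩
    · exact Con.append_left [y] h
  have hLB : Con a b ((u ++ [z]).reverse ++ w.reverse) →
      ∃ L : List V, L.Perm (y :: (u ++ z :: w)) ∧ L.IsChain G.Adj ∧ Con a b L := by
    intro h
    refine ⟨y :: ((u ++ [z]).reverse ++ w.reverse), ?_, ?_, ?_⟩
    · refine List.Perm.cons _ ?_
      have e : u ++ z :: w = (u ++ [z]) ++ w := by simp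
      rw [e]
      exact List.Perm.append (List.reverse_perm _) (List.reverse_perm _)
    · rw [List.isChain_cons]
      exact ⟨by simpa using hyz, hB⟩
    · exact Con.append_left [y] h
  rcases hab.append_cases with h | h | h | h
  · exact hLA (h.append_left (z :: w))
  · exact hLA (h.append_right u)
  · refine hLB ?_
    have h' : z = b := by simpa using h.2
    subst h'
    refine Con.append_right _ (Con.reverse ?_)
    exact con_mid h.1 (by simp)
  · refine hLB ?_
    have h' : z = a := by simpa using h.2
    subst h'
    refine Con.append_right _ (Con.reverse ?_)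
    exact (con_mid h.1 (by simp)).symm

end lists

section dirac

variable {V : Type} [Fintype V] [DecidableEq V]

theorem nodup_length_le {l : List V} (h : l.Nodup) : l.length ≤ Fintype.card V := by
  rw [← List.toFinset_card_of_nodup h]
  exact Finset.card_le_univ _

/-- every edge is in a Hamilton path -/
theorem exists_ham_through (G : SimpleGraph V) (hδ : ∀ v, Fintype.card V ≤ 2 * dg G v) {a b : V}
    (hab : G.Adj a b) : ∃ l ∈ HL G, Con a b l := by
  set n := Fintype.card V with hn
  let P : ℕ → Prop := fun m => ∃ l : List V, l.Nodup ∧ l.IsChain G.Adj ∧ Con a b l ∧ l.length = m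
  have hP2 : P 2 := by
    refine ⟨[a, b], ?_, ?_, Or.inl (List.infix_refl _), rfl⟩
    · simpa using hab.ne
    · simpa using hab
  have h2n : 2 ≤ n := by
    obtain ⟨l, h1, _, _, h4⟩ := hP2
    rw [← h4]; exact nodup_length_le h1
  have hspec : P (Nat.findGreatest P n) := Nat.findGreatest_spec h2n hP2
  have hm2 : 2 ≤ Nat.findGreatest P n := Nat.le_findGreatest h2n hP2
  have hmax : ∀ l' : List V, l'.Nodup → l'.IsChain G.Adj → Con a b l' →
      l'.length ≤ Nat.findGreatest P n := by
    intro l' h1 h2 h3
    exact Nat.le_findGreatest (nodup_length_le h1) ⟨l', h1, h2, h3, rfl⟩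
  obtain ⟨l, hl1, hl2, hl3, hlm⟩ := hspec
  rw [← hlm] at hm2 hmax
  clear hlm
  rcases Nat.lt_or_ge l.length n with hlt | hge
  swap
  · exact ⟨l, ⟨hl1, hl2, le_antisymm (nodup_length_le hl1) hge⟩, hl3⟩
  exfalso
  set f : ℕ → V := fun i => l.getD i a with hf
  have hfi : ∀ i (h : i < l.length), f i = l[i] := by
    intro i h
    simp only [hf]
    rw [List.getD_eq_getElem?_getD, List.getElem?_eq_getElem h]; rfl
  have hfm : ∀ w ∈ l, ∃ i, i < l.length ∧ f i = w := by
    intro w hw
    obtain ⟨i, hi, rfl⟩ := List.mem_iff_getElem.1 hw
    exact ⟨i, hi, hfi i hi⟩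
  have hfinj : ∀ i j, i < l.length → j < l.length → f i = f j → i = j := by
    intro i j hi hj h
    rw [hfi i hi, hfi j hj] at h
    exact (List.Nodup.getElem_inj_iff hl1).1 h
  have hhead : ∀ w, G.Adj (f 0) w → w ∈ l := by
    intro w hw
    by_contra hwl
    have := hmax (w :: l) (List.nodup_cons.2 ⟨hwl, hl1⟩) (by
      rw [List.isChain_cons]
      refine ⟨?_, hl2⟩
      intro y hy
      rw [List.head?_eq_getElem?, List.getElem?_eq_getElem (by omega)] at hy
      have hy' : l[0] = y := by simpa using hy
      rw [← hy', ← hfi 0 (by omega)]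
      exact hw.symm) (Con.append_left [w] hl3)
    simp at this
  have hlast : ∀ w, G.Adj (f (l.length - 1)) w → w ∈ l := by
    intro w hw
    by_contra hwl
    have := hmax (w :: l.reverse) (List.nodup_cons.2 ⟨by simpa using hwl, by simpa using hl1⟩) (by
      rw [List.isChain_cons]
      refine ⟨?_, chain_reverse hl2⟩
      intro y hy
      rw [List.head?_reverse, List.getLast?_eq_getElem?, List.getElem?_eq_getElem (by omega)] at hy
      have hy' : l[l.length - 1] = y := by simpa using hy
      rw [← hy', ← hfi _ (by omega)]
      exact hw.symm) (Con.append_left [w] hl3.reverse)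
    simp at this
  set m := l.length with hm
  set S := (range (m - 1)).filter fun i => G.Adj (f 0) (f (i + 1)) with hS
  set T := (range (m - 1)).filter fun i => G.Adj (f i) (f (m - 1)) with hT
  have hSc : dg G (f 0) ≤ S.card := by
    unfold dg
    refine le_trans (Finset.card_le_card (t := S.image fun i => f (i + 1)) ?_)
      Finset.card_image_le
    intro w hw
    simp only [mem_filter, mem_univ, true_and] at hw
    obtain ⟨j, hj, rfl⟩ := hfm w (hhead w hw)
    have hj0 : j ≠ 0 := by rintro rfl; exact hw.ne rfl
    rw [mem_image]
    refine ⟨j - 1, ?_, by congr 1; omega⟩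
    rw [hS, mem_filter, mem_range]
    refine ⟨by omega, ?_⟩
    have : j - 1 + 1 = j := by omega
    rw [this]; exact hw
  have hTc : dg G (f (m - 1)) ≤ T.card := by
    unfold dg
    refine le_trans (Finset.card_le_card (t := T.image f) ?_) Finset.card_image_le
    intro w hw
    simp only [mem_filter, mem_univ, true_and] at hw
    obtain ⟨j, hj, rfl⟩ := hfm w (hlast w hw)
    have hj0 : j ≠ m - 1 := by rintro rfl; exact hw.ne rfl
    rw [mem_image]
    refine ⟨j, ?_, rfl⟩
    rw [hT, mem_filter, mem_range]
    exact ⟨by omega, hw.symm⟩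
  have hST : (S ∪ T).card ≤ m - 1 := by
    have : (S ∪ T).card ≤ (range (m - 1)).card :=
      Finset.card_le_card (Finset.union_subset (Finset.filter_subset _ _) (Finset.filter_subset _ _))
    rwa [card_range] at this
  have h2 : 1 < (S ∩ T).card := by
    have h1 := Finset.card_union_add_card_inter S T
    have h3 := hδ (f 0)
    have h4 := hδ (f (m - 1))
    omega
  -- an index whose edge is not `ab`
  obtain ⟨i, hi, hne⟩ : ∃ i ∈ S ∩ T, ¬ ((f i = a ∧ f (i + 1) = b) ∨ (f i = b ∧ f (i + 1) = a)) := by
    obtain ⟨i, hi, j, hj, hij⟩ := Finset.one_lt_card.1 h2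
    by_contra hc
    push Not at hc
    have hir : i < m - 1 := by
      have := (mem_inter.1 hi).1
      rw [hS, mem_filter, mem_range] at this
      exact this.1
    have hjr : j < m - 1 := by
      have := (mem_inter.1 hj).1
      rw [hS, mem_filter, mem_range] at this
      exact this.1
    have c1 := hc i hi
    have c2 := hc j hj
    rcases c1 with c1 | c1 <;> rcases c2 with c2 | c2
    · exact hij (hfinj i j (by omega) (by omega) (by rw [c1.1, c2.1]))
    · have e1 := hfinj i (j + 1) (by omega) (by omega) (by rw [c1.1, c2.2])
      have e2 := hfinj (i + 1) j (by omega) (by omega) (by rw [c1.2, c2.1])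
      omega
    · have e1 := hfinj i (j + 1) (by omega) (by omega) (by rw [c1.1, c2.2])
      have e2 := hfinj (i + 1) j (by omega) (by omega) (by rw [c1.2, c2.1])
      omega
    · exact hij (hfinj i j (by omega) (by omega) (by rw [c1.1, c2.1]))
  have hiS := (mem_inter.1 hi).1
  have hiT := (mem_inter.1 hi).2
  rw [hS, mem_filter, mem_range] at hiS
  rw [hT, mem_filter, mem_range] at hiT
  obtain ⟨hir, hiS⟩ := hiS
  obtain ⟨-, hiT⟩ := hiT
  -- the closed walk
  set p := l.take (i + 1) with hp
  set q := l.drop (i + 1) with hq
  have hpq : p ++ q = l := List.take_append_drop _ _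
  have hplast : p.getLast? = some (f i) := by
    rw [hp, List.getLast?_take, if_neg (by omega)]
    have : l[i + 1 - 1]? = some (f i) := by
      rw [Nat.add_sub_cancel, List.getElem?_eq_getElem (by omega), hfi i (by omega)]
    rw [this]; rfl
  have hphead : p.head? = some (f 0) := by
    rw [hp, List.head?_take, if_neg (by omega), List.head?_eq_getElem?,
      List.getElem?_eq_getElem (by omega), hfi 0 (by omega)]
  have hqhead : q.head? = some (f (i + 1)) := by
    rw [hq, List.head?_drop, List.getElem?_eq_getElem (by omega), hfi (i + 1) (by omega)]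
  have hqlast : q.getLast? = some (f (m - 1)) := by
    rw [hq, List.getLast?_drop, if_neg (by omega), List.getLast?_eq_getElem?,
      List.getElem?_eq_getElem (by omega), hfi _ (by omega)]
  have hCyc : Cyc G (p ++ q.reverse) := by
    refine ⟨?_, ?_⟩
    · refine List.IsChain.append (hl2.take _) (chain_reverse (hl2.drop _)) ?_
      intro x hx y hy
      rw [hplast] at hx
      rw [List.head?_reverse, hqlast] at hy
      have hx' := Option.mem_some_iff.1 hx
      have hy' := Option.mem_some_iff.1 hy
      rw [← hx', ← hy']; exact hiT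
    · intro x hx y hy
      have hq0 : q.reverse ≠ [] := by
        intro h
        rw [List.reverse_eq_nil_iff] at h
        rw [h] at hqhead
        simp at hqhead
      have hp0 : p ≠ [] := by
        intro h
        rw [h] at hphead
        simp at hphead
      rw [List.getLast?_append_of_ne_nil _ hq0, List.getLast?_reverse, hqhead] at hx
      rw [List.head?_append_of_ne_nil _ hp0, hphead] at hy
      have hx' := Option.mem_some_iff.1 hx
      have hy' := Option.mem_some_iff.1 hy
      rw [← hx', ← hy']; exact hiS.symm
  have hCon : Con a b (p ++ q.reverse) := by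
    rw [← hpq] at hl3
    rcases hl3.append_cases with h | h | h | h
    · exact h.append_right _
    · exact (h.reverse).append_left _
    · exfalso
      rw [hplast, hqhead] at h
      exact hne (Or.inl ⟨Option.mem_some_iff.1 h.1, Option.mem_some_iff.1 h.2⟩)
    · exfalso
      rw [hplast, hqhead] at h
      exact hne (Or.inr ⟨Option.mem_some_iff.1 h.1, Option.mem_some_iff.1 h.2⟩)
  have hperm : (p ++ q.reverse).Perm l := by
    rw [← hpq]
    exact List.Perm.append_left _ (List.reverse_perm _)
  -- a vertex outside, with a neighbour inside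
  obtain ⟨y, hy⟩ : ∃ y, y ∉ l := by
    by_contra hc
    push Not at hc
    have : l.toFinset = univ := by
      ext v; simp [hc v]
    have h5 := List.toFinset_card_of_nodup hl1
    rw [this, Finset.card_univ] at h5
    omega
  obtain ⟨z, hz, hyz⟩ : ∃ z ∈ l, G.Adj y z := by
    by_contra hc
    push Not at hc
    have h5 : dg G y ≤ ((univ \ l.toFinset).erase y).card := by
      unfold dg
      refine Finset.card_le_card ?_
      intro w hw
      simp only [mem_filter, mem_univ, true_and] at hw
      rw [mem_erase, mem_sdiff, List.mem_toFinset]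
      exact ⟨hw.ne', mem_univ _, fun h => hc w h hw⟩
    rw [Finset.card_erase_of_mem (by simp [hy]), Finset.card_sdiff_of_subset (Finset.subset_univ _),
      Finset.card_univ, List.toFinset_card_of_nodup hl1] at h5
    have h6 : S.card ≤ m - 1 := by
      have := Finset.card_le_card (Finset.filter_subset
        (fun i => G.Adj (f 0) (f (i + 1))) (range (m - 1)))
      rwa [card_range] at this
    have h7 := hδ (f 0)
    have h8 := hδ y
    omega
  obtain ⟨L, hL1, hL2, hL3⟩ := open_cyc hCyc hCon (hperm.mem_iff.2 hz) hyz
  have hL4 : L.Perm (y :: l) := hL1.trans (List.Perm.cons _ hperm)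
  have := hmax L (hL4.nodup_iff.2 (List.nodup_cons.2 ⟨hy, hl1⟩)) hL2 hL3
  rw [hL4.length_eq] at this
  simp at this
  omega

end dirac

end Pool.Agent.Helper52.LP
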