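import Pool.Agent.Helper52.LP.O

/-! # Hamilton paths through two given vertices -/

namespace Pool.Agent.Helper52.LP

open Finset Function
open scoped Classical

section lists

variable {V : Type}

theorem Con.mem_left {a b : V} {l : List V} (h : Con a b l) : a ∈ l := by
  rcases h with h | h
  · exact h.subset (by simp)
  · exact h.subset (by simp)

theorem Con.mem_right {a b : V} {l : List V} (h : Con a b l) : b ∈ l := h.symm.mem_left

theorem con_iff {u x : V} {A R : List V} (hn : (A ++ u :: R).Nodup) :
    Con u x (A ++ u :: R) ↔ x ∈ A.getLast? ∨ x ∈ R.head? := by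
  rw [List.nodup_append] at hn
  obtain ⟨-, h2, h3⟩ := hn
  have hA : u ∉ A := fun h => h3 u h u (by simp) rfl
  have hR : u ∉ R := (List.nodup_cons.1 h2).1
  constructor
  · intro h
    rcases h.append_cases with h | h | h | h
    · exact absurd h.mem_left hA
    · have h' : Con u x ([u] ++ R) := h
      rcases h'.append_cases with h | h | h | h
      · exfalso
        rcases h with h | h
        · have := h.length_le
          simp at this
        · have := h.length_le
          simp at this
      · exact absurd h.mem_left hR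
      · exact Or.inr h.2
      · exact absurd (List.mem_of_mem_head? h.2) hR
    · exact absurd (List.mem_of_mem_getLast? h.1) hA
    · exact Or.inl h.1
  · rintro (h | h)
    · exact (con_mid h (by simp)).symm
    · have h' : Con u x ([u] ++ R) := con_mid (by simp) h
      exact Con.append_left A h'

theorem con_getElem (l : List V) (i : ℕ) (hi : i + 1 < l.length) : Con l[i] l[i + 1] l := by
  have h : Con l[i] l[i + 1] (l.take (i + 1) ++ l.drop (i + 1)) := by
    refine con_mid ?_ ?_
    · rw [List.getLast?_take, if_neg (by omega)]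
      have : l[i + 1 - 1]? = some l[i] := by
        rw [Nat.add_sub_cancel, List.getElem?_eq_getElem (by omega)]
      rw [this]; rfl
    · rw [List.head?_drop, List.getElem?_eq_getElem (by omega)]; rfl
  rwa [List.take_append_drop] at h

end lists

section ham

variable {V : Type} [Fintype V] [DecidableEq V]

omit [DecidableEq V] in
theorem mem_HL_Dv (G : SimpleGraph V) (v : V) (F : Finset V) (l : List V) :
    l ∈ HL (Dv G v F) ↔ l ∈ HL G ∧ ∀ x ∈ F, ¬ Con v x l := by
  constructor
  · rintro ⟨h1, h2, h3⟩
    refine ⟨⟨h1, List.IsChain.imp (fun a b h => h.1) h2, h3⟩, ?_⟩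
    intro x hx hc
    exact (hc.adj h2).2.1 ⟨rfl, hx⟩
  · rintro ⟨⟨h1, h2, h3⟩, h4⟩
    refine ⟨h1, ?_, h3⟩
    rw [List.isChain_iff_getElem] at h2 ⊢
    intro i hi
    refine ⟨h2 i hi, ?_, ?_⟩
    · rintro ⟨e1, e2⟩
      refine h4 _ e2 ?_
      rw [← e1]
      exact con_getElem l i hi
    · rintro ⟨e1, e2⟩
      refine h4 _ e2 ?_
      rw [← e1]
      exact (con_getElem l i hi).symm

/-- a list with two marked entries -/
def flat (u v : V) (t : List V × List V × List V) : List V := t.1 ++ u :: (t.2.1 ++ v :: t.2.2)

omit [Fintype V] [DecidableEq V] in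
theorem flat_reverse (u v : V) (t : List V × List V × List V) :
    (flat u v t).reverse = flat v u (t.2.2.reverse, t.2.1.reverse, t.1.reverse) := by
  simp [flat]

omit [Fintype V] [DecidableEq V] in
theorem flat_inj (u v : V) {t t' : List V × List V × List V} (hn : (flat u v t).Nodup)
    (h : flat u v t = flat u v t') : t = t' := by
  obtain ⟨A, B, C⟩ := t
  obtain ⟨A', B', C'⟩ := t'
  simp only [flat] at h hn
  rw [List.nodup_append] at hn
  obtain ⟨n1, n2, n3⟩ := hn
  have k1 : u ∉ A := fun hu => n3 u hu u (by simp) rfl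
  obtain ⟨k2, n4⟩ := List.nodup_cons.1 n2
  obtain ⟨e1, -, e2⟩ := (List.append_cons_inj_of_notMem k1 k2).1 h
  rw [List.nodup_append] at n4
  obtain ⟨n5, n6, n7⟩ := n4
  have k3 : v ∉ B := fun hu => n7 v hu v (by simp) rfl
  have k4 : v ∉ C := (List.nodup_cons.1 n6).1
  obtain ⟨e3, -, e4⟩ := (List.append_cons_inj_of_notMem k3 k4).1 e2
  rw [e1, e3, e4]

omit [DecidableEq V] in
theorem TF_finite (G : SimpleGraph V) (u v : V) :
    {t : List V × List V × List V | flat u v t ∈ HL G}.Finite := by
  refine Set.Finite.of_injOn (f := flat u v) (t := HL G) ?_ ?_ (HL_finite G)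
  · intro t ht; exact ht
  · intro t ht t' _ h
    exact flat_inj u v ht.1 h

/-- the Hamilton paths with `u` before `v` -/
noncomputable def TF (G : SimpleGraph V) (u v : V) : Finset (List V × List V × List V) :=
  (TF_finite G u v).toFinset

omit [DecidableEq V] in
theorem mem_TF (G : SimpleGraph V) (u v : V) (t : List V × List V × List V) :
    t ∈ TF G u v ↔ flat u v t ∈ HL G := by
  simp [TF]

omit [DecidableEq V] in
theorem HL_reverse {G : SimpleGraph V} {l : List V} (h : l ∈ HL G) : l.reverse ∈ HL G :=
  ⟨by simpa using h.1, chain_reverse h.2.1, by simpa using h.2.2⟩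

theorem HL_mem {G : SimpleGraph V} {l : List V} (h : l ∈ HL G) (v : V) : v ∈ l := by
  have : l.toFinset = univ := by
    apply Finset.eq_univ_of_card
    rw [List.toFinset_card_of_nodup h.1, h.2.2]
  have hv := mem_univ v
  rw [← this, List.mem_toFinset] at hv
  exact hv

theorem ncard_HL_TF (G : SimpleGraph V) {u v : V} (huv : u ≠ v) :
    (HL G).ncard = 2 * (TF G u v).card := by
  set S : Finset (List V) := (HL_finite G).toFinset with hS
  have hmem : ∀ l, l ∈ S ↔ l ∈ HL G := fun l => (HL_finite G).mem_toFinset
  have hSc : (HL G).ncard = S.card := by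
    rw [← Set.ncard_coe_finset, hS, Set.Finite.coe_toFinset]
  have h1 : (S.filter fun l => ∃ t, l = flat u v t).card = (TF G u v).card := by
    symm
    refine Finset.card_bij (fun t _ => flat u v t) ?_ ?_ ?_
    · intro t ht
      rw [mem_TF] at ht
      rw [mem_filter, hmem]
      exact ⟨ht, t, rfl⟩
    · intro t ht t' _ h
      rw [mem_TF] at ht
      exact flat_inj u v ht.1 h
    · intro l hl
      rw [mem_filter, hmem] at hl
      obtain ⟨hl, t, rfl⟩ := hl
      exact ⟨t, (mem_TF _ _ _ _).2 hl, rfl⟩
  have h2 : (S.filter fun l => ¬ ∃ t, l = flat u v t).card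
      = (S.filter fun l => ∃ t, l = flat u v t).card := by
    refine Finset.card_nbij' List.reverse List.reverse ?_ ?_
      (fun l _ => List.reverse_reverse l) (fun l _ => List.reverse_reverse l)
    · intro l hl
      rw [mem_coe, mem_filter, hmem] at hl ⊢
      obtain ⟨hl, hl'⟩ := hl
      refine ⟨HL_reverse hl, ?_⟩
      obtain ⟨A, R, rfl⟩ := List.append_of_mem (HL_mem hl u)
      have hv := HL_mem hl v
      rw [List.mem_append, List.mem_cons] at hv
      rcases hv with hv | hv | hv
      · obtain ⟨A1, A2, rfl⟩ := List.append_of_mem hv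
        exact ⟨(R.reverse, A2.reverse, A1.reverse), by simp [flat]⟩
      · exact absurd hv.symm huv
      · obtain ⟨B, C, rfl⟩ := List.append_of_mem hv
        exact absurd ⟨(A, B, C), rfl⟩ hl'
    · intro l hl
      rw [mem_coe, mem_filter, hmem] at hl ⊢
      obtain ⟨hl, ⟨A, B, C⟩, rfl⟩ := hl
      refine ⟨HL_reverse hl, ?_⟩
      rintro ⟨⟨A', B', C'⟩, h⟩
      rw [flat_reverse] at h
      simp only [flat] at h hl
      have hn := hl.1
      rw [List.nodup_append] at hn
      obtain ⟨n1, n2, n3⟩ := hn
      have k1 : u ∉ A := fun hu => n3 u hu u (by simp) rfl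
      obtain ⟨k2, n4⟩ := List.nodup_cons.1 n2
      -- `A ++ u :: (B ++ v :: C)` reversed
      have h' := congrArg List.reverse h
      simp only [List.reverse_append, List.reverse_cons, List.reverse_reverse,
        List.append_assoc, List.cons_append, List.nil_append] at h'
      obtain ⟨e1, -, e2⟩ := (List.append_cons_inj_of_notMem
        (x₂ := C'.reverse ++ v :: B'.reverse) (z₂ := A'.reverse) k1 k2).1 (by
          rw [h']; simp)
      have hvA : v ∈ A := by rw [e1]; simp
      exact n3 v hvA v (by simp) rfl
  rw [hSc, ← Finset.card_filter_add_card_filter_not (s := S) (fun l => ∃ t, l = flat u v t), h2, h1]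
  ring

end ham

end Pool.Agent.Helper52.LP
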