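import Pool.Agent.Helper52.LP.P

/-! # The relations modulo two between the numbers of Hamilton paths -/

namespace Pool.Agent.Helper52.LP

open Finset Function
open scoped Classical

variable {V : Type}

/-- `x` is next to the first marked entry -/
def nu (t : List V × List V × List V) (x : V) : Prop := x ∈ t.1.getLast? ∨ x ∈ t.2.1.head?

/-- `x` is next to the second marked entry -/
def nv (t : List V × List V × List V) (x : V) : Prop := x ∈ t.2.1.getLast? ∨ x ∈ t.2.2.head?

theorem con_u {u v x : V} {t : List V × List V × List V} (hn : (flat u v t).Nodup)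
    (hx : x ≠ v) : Con u x (flat u v t) ↔ nu t x := by
  obtain ⟨A, B, C⟩ := t
  simp only [flat] at hn ⊢
  rw [con_iff hn]
  simp only [nu]
  rcases B with _ | ⟨b, B⟩
  · simp [hx.symm]
  · simp

theorem con_v {u v x : V} {t : List V × List V × List V} (hn : (flat u v t).Nodup)
    (hx : x ≠ u) : Con v x (flat u v t) ↔ nv t x := by
  obtain ⟨A, B, C⟩ := t
  have e : flat u v (A, B, C) = (A ++ u :: B) ++ v :: C := by simp [flat]
  rw [e] at hn ⊢
  rw [con_iff hn]
  simp only [nv]
  rcases List.eq_nil_or_concat B with h | ⟨B', b, h⟩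
  · subst h; simp [hx.symm]
  · subst h
    have : (A ++ u :: (B' ++ [b])).getLast? = (B' ++ [b]).getLast? := by
      rw [List.getLast?_append_of_ne_nil _ (by simp), List.getLast?_cons,
        List.getLast?_concat]
      simp
    rw [List.concat_eq_append, this]

variable [Fintype V] [DecidableEq V]

/-- half the number of Hamilton paths avoiding the edges from `u` to `X` and from `v` to `Y`,
modulo two -/
noncomputable def ph (G : SimpleGraph V) (u v : V) (X Y : Finset V) : ZMod 2 :=
  ∑ t ∈ TF G u v, (if ∀ x ∈ X, ¬ nu t x then 1 else 0) * (if ∀ y ∈ Y, ¬ nv t y then 1 else 0)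

theorem TF_Dv (G : SimpleGraph V) {u v : V} (X Y : Finset V)
    (hX : v ∉ X) (hY : u ∉ Y) : TF (Dv (Dv G u X) v Y) u v
      = (TF G u v).filter fun t => (∀ x ∈ X, ¬ nu t x) ∧ ∀ y ∈ Y, ¬ nv t y := by
  ext t
  rw [mem_filter, mem_TF, mem_TF, mem_HL_Dv, mem_HL_Dv, and_assoc]
  refine and_congr_right fun h => and_congr ?_ ?_
  · refine forall_congr' fun x => forall_congr' fun hx => ?_
    rw [con_u h.1 (fun h => hX (h ▸ hx))]
  · refine forall_congr' fun x => forall_congr' fun hx => ?_
    rw [con_v h.1 (fun h => hY (h ▸ hx))]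

theorem ph_eq (G : SimpleGraph V) {u v : V} (X Y : Finset V) (hX : v ∉ X) (hY : u ∉ Y) :
    ph G u v X Y = ((TF (Dv (Dv G u X) v Y) u v).card : ZMod 2) := by
  rw [TF_Dv G X Y hX hY, ph, Finset.card_filter, Nat.cast_sum]
  refine Finset.sum_congr rfl fun t _ => ?_
  split_ifs <;> simp_all

/-- the number is odd -/
theorem ph_one (G : SimpleGraph V) (h3 : 3 ≤ Fintype.card V) {u v : V} (huv : u ≠ v)
    (X Y : Finset V) (hX : v ∉ X) (hY : u ∉ Y) :
    ph G u v X Y ≠ 0 ↔ (HP (Dv (Dv G u X) v Y)).card % 4 = 2 := by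
  rw [ph_eq G X Y hX hY, ← ncard_HL _ h3, ncard_HL_TF _ huv, Ne, ZMod.natCast_eq_zero_iff]
  omega

omit [Fintype V] [DecidableEq V] in
theorem Dv_comm (G : SimpleGraph V) (u v : V) (X Y : Finset V) :
    Dv (Dv G u X) v Y = Dv (Dv G v Y) u X := by
  ext a b
  simp only [Dv]
  tauto

/-- the roles of the two vertices can be exchanged -/
theorem ph_comm (G : SimpleGraph V) {u v : V} (huv : u ≠ v)
    (X Y : Finset V) (hX : v ∉ X) (hY : u ∉ Y) : ph G u v X Y = ph G v u Y X := by
  rw [ph_eq G X Y hX hY, ph_eq G Y X hY hX, Dv_comm G v u Y X]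
  have h1 := ncard_HL_TF (Dv (Dv G u X) v Y) huv
  have h2 := ncard_HL_TF (Dv (Dv G u X) v Y) huv.symm
  congr 1
  omega

theorem mob (S : Finset V) (q : V → Prop) :
    ∑ T ∈ S.powerset, (if ∀ y ∈ T, ¬ q y then (1 : ZMod 2) else 0)
      = if ∀ y ∈ S, q y then 1 else 0 := by
  induction S using Finset.induction_on with
  | empty => rw [Finset.powerset_empty, Finset.sum_singleton]; simp
  | insert a S ha ih =>
    rw [Finset.sum_powerset_insert ha, ih]
    have h2 : ∑ T ∈ S.powerset, (if ∀ y ∈ insert a T, ¬ q y then (1 : ZMod 2) else 0)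
        = if q a then 0 else if ∀ y ∈ S, q y then 1 else 0 := by
      by_cases h : q a
      · rw [if_pos h]
        refine Finset.sum_eq_zero fun T _ => ?_
        rw [if_neg]
        intro h'
        exact h' a (Finset.mem_insert_self _ _) h
      · rw [if_neg h, ← ih]
        refine Finset.sum_congr rfl fun T _ => ?_
        congr 1
        rw [Finset.forall_mem_insert]
        simp [h]
    rw [h2]
    by_cases h : q a
    · simp [h]
    · rw [if_neg h, if_neg (c := ∀ y ∈ insert a S, q y)]
      · exact CharTwo.add_self_eq_zero _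
      · intro h'
        exact h (h' a (Finset.mem_insert_self _ _))

/-- the number of Hamilton paths through all the edges from `u` to `X` and from `v` to `Y` -/
noncomputable def nn (G : SimpleGraph V) (u v : V) (X Y : Finset V) : ZMod 2 :=
  ∑ t ∈ TF G u v, (if ∀ x ∈ X, nu t x then 1 else 0) * (if ∀ y ∈ Y, nv t y then 1 else 0)

theorem sum_ph (G : SimpleGraph V) (u v : V) (X Y : Finset V) :
    ∑ X' ∈ X.powerset, ∑ Y' ∈ Y.powerset, ph G u v X' Y' = nn G u v X Y := by
  have h1 : ∀ X' : Finset V, ∑ Y' ∈ Y.powerset, ph G u v X' Y'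
      = ∑ t ∈ TF G u v, (if ∀ x ∈ X', ¬ nu t x then 1 else 0) *
        (if ∀ y ∈ Y, nv t y then 1 else 0) := by
    intro X'
    simp only [ph]
    rw [Finset.sum_comm]
    refine Finset.sum_congr rfl fun t _ => ?_
    rw [← Finset.mul_sum, mob]
  simp_rw [h1]
  rw [Finset.sum_comm, nn]
  refine Finset.sum_congr rfl fun t _ => ?_
  rw [← Finset.sum_mul, mob]

/-- at most two neighbours on a path -/
theorem nv_three {t : List V × List V × List V} {S : Finset V} (hS : 3 ≤ S.card)
    (h : ∀ y ∈ S, nv t y) : False := by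
  obtain ⟨A, B, C⟩ := t
  have hsub : S ⊆ (B.getLast?.toList ++ C.head?.toList).toFinset := by
    intro y hy
    rw [List.mem_toFinset, List.mem_append, Option.mem_toList, Option.mem_toList]
    exact h y hy
  have h1 := Finset.card_le_card hsub
  have h2 := List.toFinset_card_le (B.getLast?.toList ++ C.head?.toList)
  have h4 : ∀ o : Option V, o.toList.length ≤ 1 := by
    rintro (_ | a) <;> simp
  rw [List.length_append] at h2
  have h5 := h4 B.getLast?
  have h6 := h4 C.head?
  omega

/-- the star relation at the second vertex -/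
theorem star_v (G : SimpleGraph V) (u v : V) (X Y : Finset V) (hY : 3 ≤ Y.card) :
    ∑ Y' ∈ Y.powerset, ph G u v X Y' = 0 := by
  simp only [ph]
  rw [Finset.sum_comm]
  refine Finset.sum_eq_zero fun t _ => ?_
  rw [← Finset.mul_sum, mob, if_neg (c := ∀ y ∈ Y, nv t y), mul_zero]
  exact fun h => nv_three hY h

end Pool.Agent.Helper52.LP
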