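import Pool.Agent.Helper52.LP.R

/-! # The relations modulo two: certificates -/

namespace Pool.Agent.Helper52.LP

open Finset Function

/-- the coefficient of the relation of the complete bipartite graph -/
def cK (X Y : Finset (Fin 3)) : ZMod 2 := ∑ i : Fin 3, if X ⊆ {i} ∧ Y ⊆ {i}ᶜ then 1 else 0

/-- the coefficient of the relations of the paths on five vertices -/
def cP (X Y : Finset (Fin 3)) : ZMod 2 :=
  ∑ i : Fin 3, ((if X ⊆ {i + 1, i} ∧ Y ⊆ {i, i + 2} then 1 else 0) +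
    if X ⊆ {i + 2, i} ∧ Y ⊆ {i, i + 1} then 1 else 0)

/-- the coefficient of a combination of the relations -/
def coef (La Lb : List (Finset (Fin 3))) (k1 k2 p : ZMod 2) (X Y : Finset (Fin 3)) : ZMod 2 :=
  (if X ∈ La then 1 else 0) + (if Y ∈ Lb then 1 else 0) + k1 * cK X Y + k2 * cK Y X + p * cP X Y

/-- the sum over the subsets -/
def NN (g : Finset (Fin 3) → Finset (Fin 3) → ZMod 2) (S T : Finset (Fin 3)) : ZMod 2 :=
  ∑ X ∈ S.powerset, ∑ Y ∈ T.powerset, g X Y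

theorem sum_box (g : Finset (Fin 3) → Finset (Fin 3) → ZMod 2) (S T : Finset (Fin 3)) :
    ∑ X, ∑ Y, (if X ⊆ S ∧ Y ⊆ T then 1 else 0) * g X Y = NN g S T := by
  unfold NN
  have h1 : ∀ S : Finset (Fin 3), S.powerset = univ.filter fun X => X ⊆ S := by
    intro S; ext X; simp
  rw [h1 S, Finset.sum_filter]
  refine Finset.sum_congr rfl fun X _ => ?_
  by_cases hX : X ⊆ S
  · rw [if_pos hX, h1 T, Finset.sum_filter]
    refine Finset.sum_congr rfl fun Y _ => ?_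
    by_cases hY : Y ⊆ T
    · rw [if_pos ⟨hX, hY⟩, if_pos hY, one_mul]
    · rw [if_neg (fun h => hY h.2), if_neg hY, zero_mul]
  · rw [if_neg hX]
    refine Finset.sum_eq_zero fun Y _ => ?_
    rw [if_neg (fun h => hX h.1), zero_mul]

theorem sum_three (f : Fin 3 → Finset (Fin 3) → Finset (Fin 3) → ZMod 2)
    (g : Finset (Fin 3) → Finset (Fin 3) → ZMod 2) :
    ∑ X, ∑ Y, (∑ i, f i X Y) * g X Y = ∑ i, ∑ X, ∑ Y, f i X Y * g X Y := by
  simp only [Finset.sum_mul]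
  calc ∑ X, ∑ Y, ∑ i, f i X Y * g X Y = ∑ X, ∑ i, ∑ Y, f i X Y * g X Y :=
        Finset.sum_congr rfl fun X _ => Finset.sum_comm
    _ = ∑ i, ∑ X, ∑ Y, f i X Y * g X Y := Finset.sum_comm

/-- the relations -/
structure Rel (g : Finset (Fin 3) → Finset (Fin 3) → ZMod 2) : Prop where
  sv : ∀ X, ∑ Y, g X Y = 0
  su : ∀ Y, ∑ X, g X Y = 0
  k1 : ∑ i : Fin 3, NN g {i} {i}ᶜ = 0
  k2 : ∑ i : Fin 3, NN g {i}ᶜ {i} = 0
  p : ∀ i : Fin 3, NN g {i + 1, i} {i, i + 2} + NN g {i + 2, i} {i, i + 1} = 0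

theorem Rel.sum_coef {g : Finset (Fin 3) → Finset (Fin 3) → ZMod 2} (h : Rel g)
    (La Lb : List (Finset (Fin 3))) (k1 k2 p : ZMod 2) :
    ∑ X, ∑ Y, coef La Lb k1 k2 p X Y * g X Y = 0 := by
  have e1 : ∑ X, ∑ Y, (if X ∈ La then 1 else 0) * g X Y = 0 := by
    refine Finset.sum_eq_zero fun X _ => ?_
    rw [← Finset.mul_sum, h.sv, mul_zero]
  have e2 : ∑ X, ∑ Y, (if Y ∈ Lb then 1 else 0) * g X Y = 0 := by
    rw [Finset.sum_comm]
    refine Finset.sum_eq_zero fun X _ => ?_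
    rw [← Finset.mul_sum, h.su, mul_zero]
  have e3 : ∑ X, ∑ Y, cK X Y * g X Y = 0 := by
    rw [← h.k1]
    simp only [cK]
    rw [sum_three]
    exact Finset.sum_congr rfl fun i _ => sum_box g _ _
  have e4 : ∑ X, ∑ Y, cK Y X * g X Y = 0 := by
    rw [← h.k2]
    simp only [cK]
    rw [sum_three (fun i X Y => if Y ⊆ {i} ∧ X ⊆ {i}ᶜ then 1 else 0)]
    refine Finset.sum_congr rfl fun i _ => ?_
    rw [← sum_box g]
    refine Finset.sum_congr rfl fun X _ => Finset.sum_congr rfl fun Y _ => ?_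
    simp only [and_comm]
  have e5 : ∑ X, ∑ Y, cP X Y * g X Y = 0 := by
    simp only [cP]
    rw [sum_three]
    refine Finset.sum_eq_zero fun i _ => ?_
    refine Eq.trans ?_ (h.p i)
    rw [← sum_box g, ← sum_box g]
    simp only [add_mul, Finset.sum_add_distrib]
  calc ∑ X, ∑ Y, coef La Lb k1 k2 p X Y * g X Y
      = (∑ X, ∑ Y, (if X ∈ La then 1 else 0) * g X Y) +
        (∑ X, ∑ Y, (if Y ∈ Lb then 1 else 0) * g X Y) + k1 * (∑ X, ∑ Y, cK X Y * g X Y) +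
        k2 * (∑ X, ∑ Y, cK Y X * g X Y) + p * (∑ X, ∑ Y, cP X Y * g X Y) := by
        simp only [Finset.mul_sum, ← Finset.sum_add_distrib]
        refine Finset.sum_congr rfl fun X _ => Finset.sum_congr rfl fun Y _ => ?_
        unfold coef
        ring
    _ = 0 := by rw [e1, e2, e3, e4, e5]; ring

/-- the conclusion from a certificate -/
theorem Rel.exists_of_coef {g : Finset (Fin 3) → Finset (Fin 3) → ZMod 2} (h : Rel g)
    (La Lb : List (Finset (Fin 3))) (k1 k2 p : ZMod 2) (h0 : coef La Lb k1 k2 p ∅ ∅ = 1)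
    (hg : g ∅ ∅ ≠ 0) :
    ∃ X Y, ¬ (X = ∅ ∧ Y = ∅) ∧ coef La Lb k1 k2 p X Y ≠ 0 ∧ g X Y ≠ 0 := by
  by_contra hc
  have h1 := h.sum_coef La Lb k1 k2 p
  have h2 : ∀ X Y, ¬ (X = ∅ ∧ Y = ∅) → coef La Lb k1 k2 p X Y * g X Y = 0 := by
    intro X Y hXY
    by_cases h3 : coef La Lb k1 k2 p X Y = 0
    · rw [h3, zero_mul]
    · by_cases h4 : g X Y = 0
      · rw [h4, mul_zero]
      · exact absurd ⟨X, Y, hXY, h3, h4⟩ hc
  rw [Finset.sum_eq_single ∅, Finset.sum_eq_single ∅, h0, one_mul] at h1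
  · exact hg h1
  · intro Y _ hY; exact h2 _ _ (fun h => hY h.2)
  · intro h; exact absurd (mem_univ _) h
  · intro X _ hX
    refine Finset.sum_eq_zero fun Y _ => h2 _ _ (fun h => hX h.1)
  · intro h; exact absurd (mem_univ _) h

/-- the number of removed edges at the `i`-th common neighbour -/
def lo (X Y : Finset (Fin 3)) (i : Fin 3) : ℕ := (if i ∈ X then 1 else 0) + if i ∈ Y then 1 else 0

/-- the certificates -/
theorem Rel.exact {g : Finset (Fin 3) → Finset (Fin 3) → ZMod 2} (h : Rel g)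
    (hg : g ∅ ∅ ≠ 0) (t : Fin 3 → ℕ) (ht : ∀ i, t i = 1 ∨ t i = 2) :
    ∃ X Y, (∀ i, lo X Y i ≤ t i) ∧ (∃ i, lo X Y i = t i) ∧ g X Y ≠ 0 := by
  obtain ⟨La, Lb, k1, k2, p, h0, h1⟩ : ∃ (La Lb : List (Finset (Fin 3))) (k1 k2 p : ZMod 2),
      coef La Lb k1 k2 p ∅ ∅ = 1 ∧ ∀ X Y, ¬ (X = ∅ ∧ Y = ∅) → coef La Lb k1 k2 p X Y ≠ 0 →
        (lo X Y 0 ≤ t 0 ∧ lo X Y 1 ≤ t 1 ∧ lo X Y 2 ≤ t 2) ∧
          (lo X Y 0 = t 0 ∨ lo X Y 1 = t 1 ∨ lo X Y 2 = t 2) := by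
    rcases ht 0 with a0 | a0 <;> rcases ht 1 with a1 | a1 <;> rcases ht 2 with a2 | a2 <;>
      rw [a0, a1, a2]
    · exact ⟨[], [], 0, 1, 0, by decide +kernel, by decide +kernel⟩
    · exact ⟨[], [{2}], 0, 1, 0, by decide +kernel, by decide +kernel⟩
    · exact ⟨[], [{1}], 0, 1, 0, by decide +kernel, by decide +kernel⟩
    · exact ⟨[{1, 2}], [{1}, {2}], 0, 1, 0, by decide +kernel, by decide +kernel⟩
    · exact ⟨[], [{0}], 0, 1, 0, by decide +kernel, by decide +kernel⟩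
    · exact ⟨[{0, 2}], [{0}, {2}], 0, 1, 0, by decide +kernel, by decide +kernel⟩
    · exact ⟨[{0, 1}], [{0}, {1}], 0, 1, 0, by decide +kernel, by decide +kernel⟩
    · exact ⟨[{0, 1, 2}], [∅, {0}, {1}, {2}, {0, 1}, {0, 2}, {1, 2}], 1, 1, 1,
        by decide +kernel, by decide +kernel⟩
  obtain ⟨X, Y, h2, h3, h4⟩ := h.exists_of_coef La Lb k1 k2 p h0 hg
  obtain ⟨⟨b0, b1, b2⟩, b3⟩ := h1 X Y h2 h3
  refine ⟨X, Y, ?_, ?_, h4⟩
  · intro i; fin_cases i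
    · exact b0
    · exact b1
    · exact b2
  · rcases b3 with b | b | b
    · exact ⟨0, b⟩
    · exact ⟨1, b⟩
    · exact ⟨2, b⟩

/-- the relation of the complete bipartite graph alone -/
theorem Rel.step {g : Finset (Fin 3) → Finset (Fin 3) → ZMod 2} (h : Rel g)
    (hg : g ∅ ∅ ≠ 0) : ∃ X Y, ¬ (X = ∅ ∧ Y = ∅) ∧ (∀ i, lo X Y i ≤ 1) ∧ X.card ≤ 1 ∧
      Y.card ≤ 2 ∧ g X Y ≠ 0 := by
  obtain ⟨X, Y, h2, h3, h4⟩ := h.exists_of_coef [] [] 1 0 0 (by decide +kernel) hg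
  have h1 : ∀ X Y, coef [] [] 1 0 0 X Y ≠ 0 → (∀ i, lo X Y i ≤ 1) ∧ X.card ≤ 1 ∧
      Y.card ≤ 2 := by decide +kernel
  obtain ⟨h5, h6, h7⟩ := h1 X Y h3
  exact ⟨X, Y, h2, h5, h6, h7, h4⟩

end Pool.Agent.Helper52.LP
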