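import Pool.Agent.Helper52.LP.S

/-! # The relations modulo two for three common neighbours -/

namespace Pool.Agent.Helper52.LP

open Finset Function
open scoped Classical

variable {V : Type} [Fintype V] [DecidableEq V]

omit [Fintype V] in
theorem sum_pow_image {c : Fin 3 → V} (hc : Injective c) (S : Finset (Fin 3))
    (F : Finset V → ZMod 2) :
    ∑ T ∈ (S.image c).powerset, F T = ∑ T ∈ S.powerset, F (T.image c) := by
  rw [Finset.powerset_image, Finset.sum_image]
  intro T _ T' _ h
  exact Finset.image_injective hc h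

/-- the relations hold -/
theorem rel (G : SimpleGraph V) {u v : V} (huv : u ≠ v) {c : Fin 3 → V} (hc : Injective c)
    (hu : ∀ i, G.Adj u (c i)) (hv : ∀ i, G.Adj v (c i)) :
    Rel fun X Y => ph G u v (X.image c) (Y.image c) := by
  have hcu : ∀ X : Finset (Fin 3), u ∉ X.image c := by
    intro X h
    obtain ⟨i, _, hi⟩ := Finset.mem_image.1 h
    exact (hu i).ne hi.symm
  have hcv : ∀ X : Finset (Fin 3), v ∉ X.image c := by
    intro X h
    obtain ⟨i, _, hi⟩ := Finset.mem_image.1 h
    exact (hv i).ne hi.symm
  have huniv : ∀ F : Finset (Fin 3) → ZMod 2, ∑ T, F T = ∑ T ∈ (univ : Finset (Fin 3)).powerset, F T := by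
    intro F; rw [Finset.powerset_univ]
  have hcard : 3 ≤ ((univ : Finset (Fin 3)).image c).card := by
    rw [Finset.card_image_of_injective _ hc]; simp
  have hNN : ∀ S T : Finset (Fin 3), NN (fun X Y => ph G u v (X.image c) (Y.image c)) S T
      = nn G u v (S.image c) (T.image c) := by
    intro S T
    rw [← sum_ph, sum_pow_image hc]
    unfold NN
    refine Finset.sum_congr rfl fun X _ => ?_
    rw [sum_pow_image hc]
  have hNN' : ∀ S T : Finset (Fin 3), NN (fun X Y => ph G u v (X.image c) (Y.image c)) S T
      = nn G v u (T.image c) (S.image c) := by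
    intro S T
    rw [← sum_ph, sum_pow_image hc]
    unfold NN
    rw [Finset.sum_comm]
    refine Finset.sum_congr rfl fun Y _ => ?_
    rw [sum_pow_image hc]
    refine Finset.sum_congr rfl fun X _ => ?_
    exact ph_comm G huv _ _ (hcv X) (hcu Y)
  refine ⟨?_, ?_, ?_, ?_, ?_⟩
  · intro X
    rw [huniv, ← sum_pow_image hc univ (fun T => ph G u v (X.image c) T)]
    exact star_v G u v _ _ hcard
  · intro Y
    have h1 : ∀ X : Finset (Fin 3), ph G u v (X.image c) (Y.image c)
        = ph G v u (Y.image c) (X.image c) := fun X => ph_comm G huv _ _ (hcv X) (hcu Y)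
    simp only [h1]
    rw [huniv, ← sum_pow_image hc univ (fun T => ph G v u (Y.image c) T)]
    exact star_v G v u _ _ hcard
  · simp only [hNN]
    have e0 : ({0}ᶜ : Finset (Fin 3)) = {1, 2} := by decide
    have e1 : ({1}ᶜ : Finset (Fin 3)) = {0, 2} := by decide
    have e2 : ({2}ᶜ : Finset (Fin 3)) = {0, 1} := by decide
    rw [Fin.sum_univ_three, e0, e1, e2]
    simp only [Finset.image_insert, Finset.image_singleton]
    exact k23 G (fun h => absurd (hc h) (by decide)) (fun h => absurd (hc h) (by decide))
      (fun h => absurd (hc h) (by decide)) (hu 0) (hu 1) (hu 2) (hv 0) (hv 1) (hv 2)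
  · simp only [hNN']
    have e0 : ({0}ᶜ : Finset (Fin 3)) = {1, 2} := by decide
    have e1 : ({1}ᶜ : Finset (Fin 3)) = {0, 2} := by decide
    have e2 : ({2}ᶜ : Finset (Fin 3)) = {0, 1} := by decide
    rw [Fin.sum_univ_three, e0, e1, e2]
    simp only [Finset.image_insert, Finset.image_singleton]
    exact k23 G (fun h => absurd (hc h) (by decide)) (fun h => absurd (hc h) (by decide))
      (fun h => absurd (hc h) (by decide)) (hv 0) (hv 1) (hv 2) (hu 0) (hu 1) (hu 2)
  · intro i
    rw [hNN, hNN]
    simp only [Finset.image_insert, Finset.image_singleton]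
    have h1 : i + 1 ≠ i := by fin_cases i <;> decide
    have h2 : i ≠ i + 2 := by fin_cases i <;> decide
    rw [p5 G (x := c (i + 1)) (y := c i) (z := c (i + 2)) (fun h => h1 (hc h))
      (fun h => h2 (hc h)) (hu _) (hu _) (hv _) (hv _)]
    rw [Finset.pair_comm (c i) (c (i + 1))]
    exact CharTwo.add_self_eq_zero _

end Pool.Agent.Helper52.LP
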