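import Pool.Agent.Helper52.LP.P

/-! # Many Hamilton paths in dense graphs -/

namespace Pool.Agent.Helper52.LP

open Finset Function
open scoped Classical

variable {V : Type} [Fintype V] [DecidableEq V]

/-- a Hamilton cycle -/
theorem exists_cyc (G : SimpleGraph V) (hδ : ∀ v, Fintype.card V ≤ 2 * dg G v) {l : List V}
    (hl : l ∈ HL G) (h1 : 1 ≤ Fintype.card V) : ∃ C : List V, C.Perm l ∧ Cyc G C := by
  have hmem := fun v => HL_mem hl v
  obtain ⟨hl1, hl2, hlen⟩ := hl
  obtain ⟨a⟩ : Nonempty V := Fintype.card_pos_iff.1 (by omega)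
  set f : ℕ → V := fun i => l.getD i a with hf
  have hfi : ∀ i (h : i < l.length), f i = l[i] := by
    intro i h
    simp only [hf]
    rw [List.getD_eq_getElem?_getD, List.getElem?_eq_getElem h]; rfl
  have hfm : ∀ w, ∃ i, i < l.length ∧ f i = w := by
    intro w
    obtain ⟨i, hi, rfl⟩ := List.mem_iff_getElem.1 (hmem w)
    exact ⟨i, hi, hfi i hi⟩
  set m := l.length with hm
  set S := (range (m - 1)).filter fun i => G.Adj (f 0) (f (i + 1)) with hS
  set T := (range (m - 1)).filter fun i => G.Adj (f i) (f (m - 1)) with hT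
  have hSc : dg G (f 0) ≤ S.card := by
    unfold dg
    refine le_trans (Finset.card_le_card (t := S.image fun i => f (i + 1)) ?_)
      Finset.card_image_le
    intro w hw
    simp only [mem_filter, mem_univ, true_and] at hw
    obtain ⟨j, hj, rfl⟩ := hfm w
    have hj0 : j ≠ 0 := by rintro rfl; exact hw.ne rfl
    rw [mem_image]
    refine ⟨j - 1, ?_, by congr 1; omega⟩
    rw [hS, mem_filter, mem_range]
    refine ⟨by omega, ?_⟩
    have : j - 1 + 1 = j := by omega
    rw [this]; exact hw
  have hTc : dg G (f (m - 1)) ≤ T.card := by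
    unfold dg
    refine le_trans (Finset.card_le_card (t := T.image f) ?_) Finset.card_image_le
    intro w hw
    simp only [mem_filter, mem_univ, true_and] at hw
    obtain ⟨j, hj, rfl⟩ := hfm w
    have hj0 : j ≠ m - 1 := by rintro rfl; exact hw.ne rfl
    rw [mem_image]
    refine ⟨j, ?_, rfl⟩
    rw [hT, mem_filter, mem_range]
    exact ⟨by omega, hw.symm⟩
  have hST : (S ∪ T).card ≤ m - 1 := by
    have : (S ∪ T).card ≤ (range (m - 1)).card :=
      Finset.card_le_card (Finset.union_subset (Finset.filter_subset _ _) (Finset.filter_subset _ _))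
    rwa [card_range] at this
  have h2 : 0 < (S ∩ T).card := by
    have h1 := Finset.card_union_add_card_inter S T
    have h3 := hδ (f 0)
    have h4 := hδ (f (m - 1))
    omega
  obtain ⟨i, hi⟩ := Finset.card_pos.1 h2
  have hiS := (mem_inter.1 hi).1
  have hiT := (mem_inter.1 hi).2
  rw [hS, mem_filter, mem_range] at hiS
  rw [hT, mem_filter, mem_range] at hiT
  obtain ⟨hir, hiS⟩ := hiS
  obtain ⟨-, hiT⟩ := hiT
  set p := l.take (i + 1) with hp
  set q := l.drop (i + 1) with hq
  have hpq : p ++ q = l := List.take_append_drop _ _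
  have hplast : p.getLast? = some (f i) := by
    rw [hp, List.getLast?_take, if_neg (by omega)]
    have : l[i + 1 - 1]? = some (f i) := by
      rw [Nat.add_sub_cancel, List.getElem?_eq_getElem (by omega), hfi i (by omega)]
    rw [this]; rfl
  have hphead : p.head? = some (f 0) := by
    rw [hp, List.head?_take, if_neg (by omega), List.head?_eq_getElem?,
      List.getElem?_eq_getElem (by omega), hfi 0 (by omega)]
  have hqhead : q.head? = some (f (i + 1)) := by
    rw [hq, List.head?_drop, List.getElem?_eq_getElem (by omega), hfi (i + 1) (by omega)]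
  have hqlast : q.getLast? = some (f (m - 1)) := by
    rw [hq, List.getLast?_drop, if_neg (by omega), List.getLast?_eq_getElem?,
      List.getElem?_eq_getElem (by omega), hfi _ (by omega)]
  refine ⟨p ++ q.reverse, ?_, ?_, ?_⟩
  · rw [← hpq]
    exact List.Perm.append_left _ (List.reverse_perm _)
  · refine List.IsChain.append (hl2.take _) (chain_reverse (hl2.drop _)) ?_
    intro x hx y hy
    rw [hplast] at hx
    rw [List.head?_reverse, hqlast] at hy
    have hx' := Option.mem_some_iff.1 hx
    have hy' := Option.mem_some_iff.1 hy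
    rw [← hx', ← hy']; exact hiT
  · intro x hx y hy
    have hq0 : q.reverse ≠ [] := by
      intro h
      rw [List.reverse_eq_nil_iff] at h
      rw [h] at hqhead
      simp at hqhead
    have hp0 : p ≠ [] := by
      intro h
      rw [h] at hphead
      simp at hphead
    rw [List.getLast?_append_of_ne_nil _ hq0, List.getLast?_reverse, hqhead] at hx
    rw [List.head?_append_of_ne_nil _ hp0, hphead] at hy
    have hx' := Option.mem_some_iff.1 hx
    have hy' := Option.mem_some_iff.1 hy
    rw [← hx', ← hy']; exact hiS.symm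

/-- a Hamilton path with a given end -/
theorem exists_ham_last (G : SimpleGraph V) (hδ : ∀ v, Fintype.card V ≤ 2 * dg G v)
    (h1 : 1 ≤ Fintype.card V) (hne : (HL G).Nonempty) (t : V) :
    ∃ l ∈ HL G, l.getLast? = some t := by
  obtain ⟨l, hl⟩ := hne
  obtain ⟨C, hC, hc1, hc2⟩ := exists_cyc G hδ hl h1
  obtain ⟨A, B, rfl⟩ := List.append_of_mem (hC.mem_iff.2 (HL_mem hl t))
  have hp : ((t :: B ++ A).reverse).Perm l :=
    (List.reverse_perm _).trans (List.perm_append_comm.trans hC)
  refine ⟨(t :: B ++ A).reverse, ⟨hp.nodup_iff.2 hl.1, ?_, hp.length_eq.trans hl.2.2⟩, ?_⟩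
  · refine chain_reverse (List.IsChain.append hc1.right_of_append hc1.left_of_append ?_)
    intro x hx x' hx'
    refine hc2 x ?_ x' ?_
    · rw [List.getLast?_append_of_ne_nil _ (by simp)]; exact hx
    · rcases A with _ | ⟨z, A⟩
      · simp at hx'
      · simpa using hx'
  · rw [List.getLast?_reverse]; simp

/-- reversing the beginning of a list -/
def rot {α : Type} (j : ℕ) (l : List α) : List α := (l.take j).reverse ++ l.drop j

theorem rot_map {α β : Type} (f : α → β) (j : ℕ) (l : List α) :
    (rot j l).map f = rot j (l.map f) := by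
  simp [rot, List.map_take, List.map_drop]

theorem rot_length {α : Type} (j : ℕ) (l : List α) : (rot j l).length = l.length := by
  simp [rot]; omega

/-- the possible rotations -/
noncomputable def Al (G : SimpleGraph V) (l : List V) : Finset ℕ :=
  (Finset.Ico 2 l.length).filter fun j => ∀ x ∈ l[0]?, ∀ y ∈ l[j]?, G.Adj x y

theorem rot_mem (G : SimpleGraph V) {l : List V} (hl : l ∈ HL G) {t : V}
    (ht : l.getLast? = some t) {j : ℕ} (hj : j ∈ Al G l) :
    rot j l ∈ HL G ∧ (rot j l).getLast? = some t := by
  rw [Al, mem_filter, Finset.mem_Ico] at hj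
  obtain ⟨⟨j2, jn⟩, hadj⟩ := hj
  obtain ⟨h1, h2, h3⟩ := hl
  have hp : (rot j l).Perm l := by
    unfold rot
    conv_rhs => rw [← List.take_append_drop j l]
    exact List.Perm.append_right _ (List.reverse_perm _)
  refine ⟨⟨hp.nodup_iff.2 h1, ?_, hp.length_eq.trans h3⟩, ?_⟩
  · refine List.IsChain.append (chain_reverse (h2.take _)) (h2.drop _) ?_
    intro x hx y hy
    rw [List.getLast?_reverse, List.head?_take, if_neg (by omega), List.head?_eq_getElem?] at hx
    rw [List.head?_drop] at hy
    exact hadj x hx y hy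
  · unfold rot
    rw [List.getLast?_append_of_ne_nil, List.getLast?_drop, if_neg (by omega), ht]
    intro h
    have := congrArg List.length h
    simp at this
    omega

theorem Al_card (G : SimpleGraph V) {l : List V} (hl : l ∈ HL G) (d : ℕ)
    (hd : ∀ v, d + 1 ≤ dg G v) (h0 : 2 ≤ l.length) : d ≤ (Al G l).card := by
  have hmem := fun v => HL_mem hl v
  have h1 : dg G l[0] ≤ (insert 1 (Al G l)).card := by
    unfold dg
    refine le_trans (Finset.card_le_card (t := (insert 1 (Al G l)).image
      fun j => l.getD j l[0]) ?_) Finset.card_image_le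
    intro w hw
    simp only [mem_filter, mem_univ, true_and] at hw
    obtain ⟨j, hj, rfl⟩ := List.mem_iff_getElem.1 (hmem w)
    have hj0 : j ≠ 0 := by rintro rfl; exact hw.ne rfl
    rw [mem_image]
    refine ⟨j, ?_, ?_⟩
    · rw [mem_insert, Al, mem_filter, Finset.mem_Ico]
      by_cases hj1 : j = 1
      · exact Or.inl hj1
      · right
        refine ⟨⟨by omega, hj⟩, ?_⟩
        intro x hx y hy
        rw [List.getElem?_eq_getElem (by omega)] at hx hy
        rw [← Option.mem_some_iff.1 hx, ← Option.mem_some_iff.1 hy]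
        exact hw
    · rw [List.getD_eq_getElem?_getD, List.getElem?_eq_getElem hj]; rfl
  have h2 := Finset.card_insert_le 1 (Al G l)
  have h3 := hd l[0]
  omega

/-- all words of three rotations -/
def words (n : ℕ) : List (ℕ × ℕ × ℕ) :=
  ((List.range n).flatMap fun i => (List.range n).flatMap fun j => (List.range n).map fun k =>
    (i, j, k)).filter fun w => 2 ≤ w.1 ∧ 2 ≤ w.2.1 ∧ 2 ≤ w.2.2 ∧ w.1 ≠ w.2.1 ∧ w.2.1 ≠ w.2.2 ∧
      w ≠ (3, 2, 3)

def rotw {α : Type} (w : ℕ × ℕ × ℕ) (l : List α) : List α := rot w.2.2 (rot w.2.1 (rot w.1 l))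

theorem words_nodup (n : ℕ) (hn : n = 9 ∨ n = 10) :
    ((words n).map fun w => rotw w (List.range n)).Nodup := by
  rcases hn with rfl | rfl
  · decide +kernel
  · decide +kernel

end Pool.Agent.Helper52.LP
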